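import Pool.Agent.X111.MS.On3
import Pool.Agent.Y568.UP.STRIP
import Pool.Agent.Y732.UP.SUBA
import Pool.Agent.Y496.UP.OUT

set_option autoImplicit false
set_option linter.unusedSectionVars false

/-! The upper bound on the critical line, orders up to two. -/

namespace Pool.Agent.X111.MS

open Finset MeasureTheory Filter Topology
open Pool.Agent.W184 (zn zn_nonneg zn_cont zn_le')

noncomputable section

/-- moments near the critical line, both sides -/
theorem strip : Pool.Agent.Y745.UP.P_STRIP := Pool.Agent.Y568.UP.t_STRIP Pool.Agent.Y732.UP.t_SUBA Pool.Agent.Y496.UP.t_OUT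

lemma WM_att {H : ℝ} (hH : 0 ≤ H) (t : ℝ) : ∃ h : ℝ, |h| ≤ H ∧ WM H t = zn (1 / 2) (t + h) := by
  obtain ⟨h, hh, e⟩ := (isCompact_Icc (a := -H) (b := H)).exists_sSup_image_eq (f := fun h : ℝ => zn (1 / 2) (t + h))
    ⟨0, by linarith, hH⟩ (zh_cont.comp (continuous_const.add continuous_id)).continuousOn
  exact ⟨h, abs_le.mpr hh, e⟩

lemma ofReal_int_le {β : Type} [MeasurableSpace β] {μ : Measure β} {f : β → ℝ} (hf : ∀ x, 0 ≤ f x) :
    ENNReal.ofReal (∫ x, f x ∂μ) ≤ ∫⁻ x, ENNReal.ofReal (f x) ∂μ := by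
  by_cases h : Integrable f μ
  · rw [ofReal_integral_eq_lintegral_ofReal h (Eventually.of_forall hf)]
  · rw [integral_undef h]
    simp

lemma tr_set (g : ℝ → ENNReal) (a b c : ℝ) : ∫⁻ y in Set.Ioc a b, g (c + y) = ∫⁻ s in Set.Ioc (c + a) (c + b), g s := by
  rw [← lintegral_indicator measurableSet_Ioc, ← lintegral_indicator measurableSet_Ioc,
    ← lintegral_add_left_eq_self (fun s => (Set.Ioc (c + a) (c + b)).indicator g s) c]
  refine lintegral_congr fun y => ?_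
  by_cases h : y ∈ Set.Ioc a b
  · have h2 : c + y ∈ Set.Ioc (c + a) (c + b) := ⟨by linarith [h.1], by linarith [h.2]⟩
    rw [Set.indicator_of_mem h, Set.indicator_of_mem h2]
  · have h2 : c + y ∉ Set.Ioc (c + a) (c + b) := fun h3 => h ⟨by linarith [h3.1], by linarith [h3.2]⟩
    rw [Set.indicator_of_notMem h, Set.indicator_of_notMem h2]

/-- the powers near the critical line -/
def gg (α : ℝ) (q : ℝ × ℝ) : ENNReal := ENNReal.ofReal (‖riemannZeta (((1 / 2 + q.1 : ℝ) : ℂ) + (q.2 : ℂ) * Complex.I)‖ ^ (2 * α))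

lemma gg_meas (α : ℝ) : Measurable (gg α) := by
  unfold gg
  have h1 : Continuous fun q : ℝ × ℝ => (((1 / 2 + q.1 : ℝ) : ℂ) + (q.2 : ℂ) * Complex.I) := by fun_prop
  exact ((Mz.comp h1.measurable).norm.pow_const _).ennreal_ofReal

/-- the pointwise bound -/
lemma wm_pt {α R H : ℝ} (hα : 0 < α) (hR : 0 < R) (hR1 : R ≤ 1 / 8) (hH : 0 ≤ H) (t : ℝ) :
    ENNReal.ofReal (WM H t ^ (2 * α)) ≤ ENNReal.ofReal (1 / (Real.pi * R ^ 2)) *
      ∫⁻ x in Set.Ioc (-R) R, ∫⁻ y in Set.Ioc (-(H + R)) (H + R), gg α (x, t + y) := by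
  obtain ⟨h, hh, e⟩ := WM_att hH t
  rw [e]
  obtain ⟨c, hc⟩ : ∃ c : ℂ, c = (((1 / 2 : ℝ)) : ℂ) + ((t + h : ℝ) : ℂ) * Complex.I := ⟨_, rfl⟩
  have han : AnalyticOnNhd ℂ riemannZeta (Metric.closedBall c (2 * R)) := by
    have h1 : DifferentiableOn ℂ riemannZeta {z : ℂ | z.re < 1} := fun z hz =>
      (Pool.Agent.W184.zeta_diffAt hz).differentiableWithinAt
    have ho : IsOpen {z : ℂ | z.re < 1} := isOpen_lt Complex.continuous_re continuous_const
    refine (h1.analyticOnNhd ho).mono fun z hz => ?_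
    rw [Metric.mem_closedBall, dist_eq_norm] at hz
    have h2 := (Complex.abs_re_le_norm (z - c)).trans hz
    have h3 : (z - c).re = z.re - 1 / 2 := by
      rw [hc]
      simp
    rw [h3] at h2
    have h4 := (abs_le.mp h2).2
    show z.re < 1
    linarith
  have h1 := Pool.Agent.Y732.UP.t_SUBA riemannZeta c R (2 * α) hR (by linarith) han
  have e0 : zn (1 / 2) (t + h) = ‖riemannZeta c‖ := by
    unfold zn
    rw [hc]
  rw [e0]
  refine (ENNReal.ofReal_le_ofReal h1).trans ?_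
  rw [ENNReal.ofReal_mul (by positivity)]
  refine mul_le_mul_right ?_ _
  rw [intervalIntegral.integral_of_le (by linarith)]
  refine (ofReal_int_le fun x => intervalIntegral.integral_nonneg (by linarith) fun y _ => Real.rpow_nonneg (norm_nonneg _) _).trans ?_
  refine lintegral_mono fun x => ?_
  rw [intervalIntegral.integral_of_le (by linarith)]
  refine (ofReal_int_le fun y => Real.rpow_nonneg (norm_nonneg _) _).trans ?_
  have e1 : ∀ y : ℝ, ENNReal.ofReal (‖riemannZeta (c + x + y * Complex.I)‖ ^ (2 * α)) = gg α (x, (t + h) + y) := by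
    intro y
    unfold gg
    congr 4
    rw [hc]
    push_cast
    ring
  rw [lintegral_congr e1, tr_set (fun s => gg α (x, s)) (-R) R (t + h), tr_set (fun s => gg α (x, s)) (-(H + R)) (H + R) t]
  refine lintegral_mono_set (Set.Ioc_subset_Ioc ?_ ?_)
  · linarith [(abs_le.mp hh).1]
  · linarith [(abs_le.mp hh).2]

lemma fub_meas (g : ℝ × ℝ → ENNReal) (hg : Measurable g) (R W : ℝ) :
    Measurable fun t => ∫⁻ x in Set.Ioc (-R) R, ∫⁻ y in Set.Ioc (-W) W, g (x, t + y) := by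
  have hm3 : Measurable fun q : (ℝ × ℝ) × ℝ => g (q.1.2, q.1.1 + q.2) :=
    hg.comp ((measurable_snd.comp measurable_fst).prodMk ((measurable_fst.comp measurable_fst).add measurable_snd))
  have hm2 : Measurable fun q : ℝ × ℝ => ∫⁻ y in Set.Ioc (-W) W, g (q.2, q.1 + y) := hm3.lintegral_prod_right'
  exact hm2.lintegral_prod_right'

/-- the triple integral -/
lemma fub (g : ℝ × ℝ → ENNReal) (hg : Measurable g) {R W T : ℝ} (hT : 0 ≤ T) (hW : W ≤ T / 2) {D : ENNReal}
    (hJ : ∀ x ∈ Set.Ioc (-R) R, ∫⁻ s in Set.Ioc (T / 2) (3 * T), g (x, s) ≤ D) :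
    ∫⁻ t in Set.Ioc T (2 * T), ∫⁻ x in Set.Ioc (-R) R, ∫⁻ y in Set.Ioc (-W) W, g (x, t + y) ≤ D * ENNReal.ofReal (2 * W) * ENNReal.ofReal (2 * R) := by
  have hm3 : Measurable fun q : (ℝ × ℝ) × ℝ => g (q.1.2, q.1.1 + q.2) :=
    hg.comp ((measurable_snd.comp measurable_fst).prodMk ((measurable_fst.comp measurable_fst).add measurable_snd))
  have hm2 : Measurable fun q : ℝ × ℝ => ∫⁻ y in Set.Ioc (-W) W, g (q.2, q.1 + y) := hm3.lintegral_prod_right'
  have hy : ∀ x ∈ Set.Ioc (-R) R, ∀ y ∈ Set.Ioc (-W) W, ∫⁻ t in Set.Ioc T (2 * T), g (x, t + y) ≤ D := by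
    intro x hx y hy
    have e1 : ∀ t : ℝ, g (x, t + y) = (fun s => g (x, s)) (y + t) := fun t => by simp only [add_comm]
    rw [lintegral_congr e1, tr_set (fun s => g (x, s)) T (2 * T) y]
    refine (lintegral_mono_set (Set.Ioc_subset_Ioc ?_ ?_)).trans (hJ x hx)
    · linarith [hy.1]
    · linarith [hy.2]
  have hx : ∀ x ∈ Set.Ioc (-R) R, ∫⁻ t in Set.Ioc T (2 * T), ∫⁻ y in Set.Ioc (-W) W, g (x, t + y) ≤ D * ENNReal.ofReal (2 * W) := by
    intro x hx
    have hm4 : Measurable fun q : ℝ × ℝ => g (x, q.1 + q.2) :=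
      hg.comp (measurable_const.prodMk (measurable_fst.add measurable_snd))
    rw [lintegral_lintegral_swap hm4.aemeasurable]
    calc ∫⁻ y in Set.Ioc (-W) W, ∫⁻ t in Set.Ioc T (2 * T), g (x, t + y) ≤ ∫⁻ _y in Set.Ioc (-W) W, D := setLIntegral_mono' measurableSet_Ioc (hy x hx)
      _ = D * ENNReal.ofReal (2 * W) := by
        rw [setLIntegral_const, Real.volume_Ioc]
        congr 2
        ring
  rw [lintegral_lintegral_swap hm2.aemeasurable]
  calc ∫⁻ x in Set.Ioc (-R) R, ∫⁻ t in Set.Ioc T (2 * T), ∫⁻ y in Set.Ioc (-W) W, g (x, t + y) ≤ ∫⁻ _x in Set.Ioc (-R) R, D * ENNReal.ofReal (2 * W) :=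
        setLIntegral_mono' measurableSet_Ioc hx
    _ = D * ENNReal.ofReal (2 * W) * ENNReal.ofReal (2 * R) := by
      rw [setLIntegral_const, Real.volume_Ioc]
      congr 2
      ring

/-- one dyadic interval -/
theorem up_dy {α : ℝ} (hα : 0 < α) (hα2 : α ≤ 2) : ∃ C : ℝ, 0 < C ∧ ∀ᶠ T : ℝ in atTop, ∀ H : ℝ, 0 ≤ H → H ≤ 1 →
    ∫ t in T..(2 * T), WM H t ^ (2 * α) ≤ C * ((1 + H * Real.log T) * Real.log T ^ (α ^ 2)) * T := by
  obtain ⟨C, hC1, hC⟩ := strip α 1 hα hα2 one_pos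
  refine ⟨4 / Real.pi * C, by positivity, ?_⟩
  filter_upwards [hC, eventually_ge_atTop (Real.exp 8)] with T hT hTe H hH hH1
  have hT0 : 0 < T := lt_of_lt_of_le (Real.exp_pos _) hTe
  have hT9 : 9 ≤ T := by linarith [Real.add_one_le_exp (8:ℝ)]
  have hL : 8 ≤ Real.log T := by
    have := Real.log_le_log (Real.exp_pos _) hTe
    rwa [Real.log_exp] at this
  obtain ⟨R, hR⟩ : ∃ R : ℝ, R = 1 / Real.log T := ⟨_, rfl⟩
  have hR0 : 0 < R := by rw [hR]; positivity
  have hR1 : R ≤ 1 / 8 := by rw [hR]; exact one_div_le_one_div_of_le (by norm_num) hL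
  have hW := (WM_cont H).rpow_const (fun _ => Or.inr (by linarith : (0:ℝ) ≤ 2 * α))
  have hWn : ∀ t, 0 ≤ WM H t ^ (2 * α) := fun t => Real.rpow_nonneg (WM_nn hH t) _
  obtain ⟨D, hD⟩ : ∃ D : ℝ, D = C * (T * Real.log T ^ (α ^ 2)) := ⟨_, rfl⟩
  have hD0 : 0 ≤ D := by rw [hD]; positivity
  have hJ : ∀ x ∈ Set.Ioc (-R) R, ∫⁻ s in Set.Ioc (T / 2) (3 * T), gg α (x, s) ≤ ENNReal.ofReal D := by
    intro x hx
    have hx1 : |x| ≤ 1 / Real.log T := by
      rw [← hR]
      exact abs_le.mpr ⟨hx.1.le, hx.2⟩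
    have h1 := hT x hx1
    rw [intervalIntegral.integral_of_le (by linarith)] at h1
    have hc : Continuous fun s : ℝ => ‖riemannZeta (((1 / 2 + x : ℝ) : ℂ) + (s : ℂ) * Complex.I)‖ ^ (2 * α) := by
      have h2 := zn_cont (σ := 1 / 2 + x) (by linarith [hx.2])
      unfold zn at h2
      exact h2.rpow_const fun _ => Or.inr (by linarith)
    unfold gg
    rw [← ofReal_integral_eq_lintegral_ofReal (hc.integrableOn_Icc.mono_set Set.Ioc_subset_Icc_self)
      (Eventually.of_forall fun s => Real.rpow_nonneg (norm_nonneg _) _), hD]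
    exact ENNReal.ofReal_le_ofReal h1
  have hmain : ∫⁻ t in Set.Ioc T (2 * T), ENNReal.ofReal (WM H t ^ (2 * α)) ≤
      ENNReal.ofReal (1 / (Real.pi * R ^ 2)) * (ENNReal.ofReal D * ENNReal.ofReal (2 * (H + R)) * ENNReal.ofReal (2 * R)) := by
    refine (lintegral_mono fun t => wm_pt hα hR0 hR1 hH t).trans ?_
    rw [lintegral_const_mul _ (fub_meas (gg α) (gg_meas α) R (H + R))]
    exact mul_le_mul_right (fub (gg α) (gg_meas α) hT0.le (by linarith) hJ) _
  rw [intervalIntegral.integral_of_le (by linarith)]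
  rw [← ofReal_integral_eq_lintegral_ofReal (hW.integrableOn_Icc.mono_set Set.Ioc_subset_Icc_self) (Eventually.of_forall hWn),
    ← ENNReal.ofReal_mul (by positivity), ← ENNReal.ofReal_mul (by positivity), ← ENNReal.ofReal_mul (by positivity)] at hmain
  have h2 := (ENNReal.ofReal_le_ofReal_iff (by positivity)).mp hmain
  refine h2.trans (le_of_eq ?_)
  rw [hD, hR]
  have hLp : Real.log T ≠ 0 := by linarith
  field_simp
  ring

end

end Pool.Agent.X111.MS
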