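import Pool.Agent.X111.MS.On2

set_option autoImplicit false
set_option linter.unusedSectionVars false

/-! The lower bound on the critical line, all real orders above one. -/

namespace Pool.Agent.X111.MS

open Finset MeasureTheory Filter Topology
open Pool.Agent.Y746.OA (sp)
open Pool.Agent.W184 (zn zn_nonneg zn_cont zn_le')

noncomputable section

lemma ev_ll (C ε : ℝ) (hε : 0 < ε) : ∀ᶠ T : ℝ in atTop, C * Real.log (Real.log T) / Real.log T ≤ ε := by
  have h1 : Tendsto (fun x : ℝ => Real.log x / x) atTop (𝓝 0) := by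
    have := Real.isLittleO_log_id_atTop.tendsto_div_nhds_zero
    simpa using this
  have h2 : Tendsto (fun T : ℝ => C * (Real.log (Real.log T) / Real.log T)) atTop (𝓝 (C * 0)) := (h1.comp Real.tendsto_log_atTop).const_mul C
  rw [mul_zero] at h2
  filter_upwards [h2.eventually (gt_mem_nhds hε)] with T hT
  rw [mul_div_assoc]
  exact hT.le

lemma ev_edge (E : ℕ) : ∀ᶠ T : ℝ in atTop, 2 * T ^ (1 / 4 : ℝ) ≤ T / Real.log T ^ (E + 2) := by
  have h1 := (isLittleO_log_rpow_rpow_atTop (s := 3 / 4) ((E + 2 : ℕ) : ℝ) (by norm_num)).bound (show (0:ℝ) < 1 / 2 by norm_num)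
  filter_upwards [h1, eventually_ge_atTop (Real.exp 1)] with T hT hTe
  have hT0 : 0 < T := lt_of_lt_of_le (Real.exp_pos _) hTe
  have hL : 1 ≤ Real.log T := by
    have := Real.log_le_log (Real.exp_pos _) hTe
    rwa [Real.log_exp] at this
  rw [Real.rpow_natCast, Real.norm_of_nonneg (by positivity), Real.norm_of_nonneg (by positivity)] at hT
  rw [le_div_iff₀ (by positivity)]
  calc 2 * T ^ (1 / 4 : ℝ) * Real.log T ^ (E + 2) ≤ 2 * T ^ (1 / 4 : ℝ) * (1 / 2 * T ^ (3 / 4 : ℝ)) := mul_le_mul_of_nonneg_left hT (by positivity)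
    _ = T ^ (1 / 4 : ℝ) * T ^ (3 / 4 : ℝ) := by ring
    _ = T := by
      rw [← Real.rpow_add hT0]
      norm_num

/-- the lower bound on the critical line -/
theorem low_on {k : ℝ} (hk : 1 < k) : ∃ c C : ℝ, 0 < c ∧ 0 < C ∧ ∀ᶠ T : ℝ in atTop, ∀ H : ℝ, C * Real.log (Real.log T) / Real.log T ≤ H → H ≤ 1 →
    c * (H * (Real.log T / Real.log (Real.log T)) ^ (k ^ 2 + 1)) * T ≤ ∫ t in (0:ℝ)..T, WM H t ^ (2 * k) := by
  have hk0 : 0 < k := by linarith
  obtain ⟨E, c, C, T0, hc, hC, hnl⟩ := nl hk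
  obtain ⟨c1, C1, hc1, hC1, htr⟩ := tr hk0
  refine ⟨c1 * c / 256 * C ^ (-(k ^ 2 + 1)), C, by positivity, hC, ?_⟩
  filter_upwards [eventually_ge_atTop T0, ev_ll C (1 / 64) (by norm_num), ev_edge E, eventually_ge_atTop 16, eventually_ge_atTop (2 * C1 / (c1 * c))]
    with T hT0 hll hedge hT16 hTC H hH hH1
  obtain ⟨hT4, hL, h2⟩ := hnl T hT0
  obtain ⟨δ, hδ⟩ : ∃ δ : ℝ, δ = C * Real.log (Real.log T) / Real.log T := ⟨_, rfl⟩
  rw [← hδ] at hll hH
  have hT : 0 < T := by linarith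
  have hlog2 : 0 < Real.log (Real.log T) := Real.log_pos (by linarith)
  obtain ⟨hδ0, h2δ, h3⟩ := h2 δ hδ.ge (by linarith)
  obtain ⟨H', hH'⟩ : ∃ H' : ℝ, H' = min H (1 / 64) := ⟨_, rfl⟩
  have hδH : δ ≤ H' := by rw [hH']; exact le_min hH hll
  have hH'H : H' ≤ H := by rw [hH']; exact min_le_left _ _
  have hH'64 : H' ≤ 1 / 64 := by rw [hH']; exact min_le_right _ _
  have hH0 : 0 < H := by linarith
  have hHH' : H / 64 ≤ H' := by
    rw [hH']
    refine le_min (by linarith) (by linarith)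
  obtain ⟨M, hM1, hM2⟩ := exists_nat_pow_near (x := H' / δ) (y := (2:ℝ)) (by rwa [le_div_iff₀ hδ0, one_mul]) (by norm_num)
  rw [le_div_iff₀ hδ0] at hM1
  rw [div_lt_iff₀ hδ0] at hM2
  have hM3 : δ * 2 ^ M ≤ H' := by rw [mul_comm]; exact hM1
  have hM4 : δ * 2 ^ (M + 1) ≤ 1 / 32 := by
    rw [pow_succ, ← mul_assoc]
    linarith
  obtain ⟨U, hU⟩ : ∃ U : ℝ, U = T ^ (1 / 4 : ℝ) := ⟨_, rfl⟩
  have hU0 : 0 < U := by rw [hU]; positivity
  obtain ⟨R, hR⟩ : ∃ R : Set ℝ, R = (Set.Ioc U (T - U))ᶜ := ⟨_, rfl⟩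
  have hRm : MeasurableSet R := by rw [hR]; exact measurableSet_Ioc.compl
  have hUT : 2 * U ≤ T := by
    rw [← hU] at hedge
    refine hedge.trans (div_le_self hT.le (one_le_pow₀ (by linarith)))
  have hRv : (volume (Set.Ioc 0 T ∩ R)).toReal ≤ T / Real.log T ^ (E + 2) := by
    refine le_trans ?_ hedge
    have h4 : Set.Ioc 0 T ∩ R ⊆ Set.Ioc 0 U ∪ Set.Ioc (T - U) T := by
      intro t ht
      rw [hR] at ht
      obtain ⟨⟨h5, h6⟩, h7⟩ := ht
      by_cases h8 : t ≤ U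
      · left
        exact ⟨h5, h8⟩
      · right
        push Not at h8
        refine ⟨?_, h6⟩
        by_contra h9
        push Not at h9
        exact h7 ⟨h8, h9⟩
    have h5 := (measure_mono h4).trans (measure_union_le (μ := volume) _ _)
    rw [Real.volume_Ioc, Real.volume_Ioc, ← ENNReal.ofReal_add (by linarith) (by linarith)] at h5
    have h6 := ENNReal.toReal_le_of_le_ofReal (by linarith) h5
    rw [← hU]
    linarith
  have h4 := h3 M hM4 R hRm hRv
  have hset : Set.Ioc 0 T \ R = Set.Ioc U (T - U) := by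
    rw [hR, Set.sdiff_compl]
    refine Set.inter_eq_right.mpr (Set.Ioc_subset_Ioc (by linarith) (by linarith))
  have hMc := MX_cont (k := k) (δ := δ) hk0 (by linarith) M
  rw [hset, ← ofReal_integral_eq_lintegral_ofReal (hMc.integrableOn_Icc.mono_set Set.Ioc_subset_Icc_self) (Eventually.of_forall fun t => MX_nn _ _ _ _)] at h4
  have hI0 : 0 ≤ ∫ t in Set.Ioc U (T - U), MX k δ M t := integral_nonneg fun t => MX_nn _ _ _ _
  have h5 := (ENNReal.ofReal_le_ofReal_iff hI0).mp h4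
  rw [← intervalIntegral.integral_of_le (by linarith)] at h5
  have h6 := htr T δ M hT16 hδ0 (by linarith) (by linarith)
  rw [← hU] at h6
  have hmono : ∫ t in (0:ℝ)..T, WM (δ * 2 ^ M) t ^ (2 * k) ≤ ∫ t in (0:ℝ)..T, WM H t ^ (2 * k) := by
    have hd2 : 0 ≤ δ * 2 ^ M := by positivity
    refine intervalIntegral.integral_mono_on hT.le ?_ ?_ fun t _ => ?_
    · exact ((WM_cont _).rpow_const fun _ => Or.inr (by linarith)).intervalIntegrable _ _
    · exact ((WM_cont _).rpow_const fun _ => Or.inr (by linarith)).intervalIntegrable _ _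
    · exact Real.rpow_le_rpow (WM_nn hd2 t) (WM_mono hd2 (by linarith) t) (by linarith)
  obtain ⟨X, hX⟩ : ∃ X : ℝ, X = c1 * (c * 2 ^ M * δ ^ (-(k ^ 2)) * T) := ⟨_, rfl⟩
  have h7 : X ≤ (∫ t in (0:ℝ)..T, WM H t ^ (2 * k)) + C1 := by
    rw [hX]
    have := mul_le_mul_of_nonneg_left h5 hc1.le
    linarith
  have hδpow : 1 ≤ δ ^ (-(k ^ 2)) := Real.one_le_rpow_of_pos_of_le_one_of_nonpos hδ0 (by linarith) (by nlinarith)
  have h8 : 2 * C1 ≤ X := by
    rw [div_le_iff₀ (by positivity)] at hTC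
    have h9 : (1:ℝ) ≤ 2 ^ M := one_le_pow₀ (by norm_num)
    have h10 : 1 ≤ 2 ^ M * δ ^ (-(k ^ 2)) := one_le_mul_of_one_le_of_one_le h9 hδpow
    rw [hX]
    calc 2 * C1 ≤ T * (c1 * c) := hTC
      _ = c1 * c * T * 1 := by ring
      _ ≤ c1 * c * T * (2 ^ M * δ ^ (-(k ^ 2))) := mul_le_mul_of_nonneg_left h10 (by positivity)
      _ = _ := by ring
  have h9 : X / 2 ≤ ∫ t in (0:ℝ)..T, WM H t ^ (2 * k) := by linarith
  refine le_trans ?_ h9
  rw [hX]
  have h10 : H / (128 * δ) ≤ 2 ^ M := by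
    rw [div_le_iff₀ (by positivity)]
    rw [pow_succ] at hM2
    nlinarith
  have h11 : C ^ (-(k ^ 2 + 1)) * (Real.log T / Real.log (Real.log T)) ^ (k ^ 2 + 1) = δ ^ (-(k ^ 2)) / δ := by
    have e1 : δ = C * (Real.log T / Real.log (Real.log T))⁻¹ := by
      rw [hδ, inv_div]
      ring
    have hr : 0 < Real.log T / Real.log (Real.log T) := div_pos (by linarith) hlog2
    have e2 : δ ^ (-(k ^ 2)) / δ = δ ^ (-(k ^ 2 + 1)) := by
      rw [neg_add, Real.rpow_add hδ0, Real.rpow_neg_one, div_eq_mul_inv]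
    rw [e2, e1, Real.mul_rpow hC.le (by positivity), Real.inv_rpow hr.le, Real.rpow_neg hr.le, inv_inv]
  calc c1 * c / 256 * C ^ (-(k ^ 2 + 1)) * (H * (Real.log T / Real.log (Real.log T)) ^ (k ^ 2 + 1)) * T =
      c1 * c / 256 * H * T * (C ^ (-(k ^ 2 + 1)) * (Real.log T / Real.log (Real.log T)) ^ (k ^ 2 + 1)) := by ring
    _ = c1 * c / 256 * H * T * (δ ^ (-(k ^ 2)) / δ) := by rw [h11]
    _ = c1 * (c * (H / (128 * δ)) * δ ^ (-(k ^ 2)) * T) / 2 := by field_simp; ring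
    _ ≤ _ := by gcongr

end

end Pool.Agent.X111.MS
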