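import Pool.Agent.X111.FZ.Blk2

set_option autoImplicit false
set_option linter.unusedSectionVars false

/-! Fractional moments of sums over blocks: the abstract estimates. -/

namespace Pool.Agent.X111.MS

open Finset MeasureTheory Filter Topology
open Pool.Agent.X111.FZ (young sum_pow_le rpow_sum_le)

noncomputable section

variable {α : Type} [MeasurableSpace α] {μ : Measure α}

/-- one block -/
theorem blk_abs {k u D : ℝ} (hk : 1 < k) (hu0 : 0 < u) (hu1 : u ≤ 1) (huk : u ≤ k - 1) (hD : 0 ≤ D) (i : ℕ) (a : ℕ → α → ℝ) (x : α → ℝ)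
    (ham : ∀ l, Measurable (a l)) (hxm : Measurable x) (hpos : ∀ᵐ t ∂μ, 0 < x t ∧ ∀ l, 0 ≤ a l t)
    (h0 : μ Set.univ ≤ ENNReal.ofReal D)
    (hX : ∫⁻ t, ENNReal.ofReal (x t ^ (2 * u)) ∂μ ≤ ENNReal.ofReal (D * (2 ^ (2 * u * (k - u)) * (1 + (2:ℝ) ^ i) ^ (u ^ 2 - 2 * u * k))))
    (hR : ∀ l ∈ Finset.Ico (2 ^ i) (2 ^ (i + 1)), ∫⁻ t, ENNReal.ofReal (a l t ^ 2 / x t ^ 2) ∂μ ≤ ENNReal.ofReal (D * (4 * 9 ^ k * (1 + (2:ℝ) ^ i)))) :
    ∫⁻ t, ENNReal.ofReal ((∑ l ∈ Finset.Ico (2 ^ i) (2 ^ (i + 1)), a l t ^ (2 * k)) ^ (u / (2 * k))) ∂μ ≤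
      ENNReal.ofReal (D * ((2 ^ (2 * u * (k - u)) + (4 * 9 ^ k + 1)) * ((2:ℝ) ^ i) ^ (-(u * (k - 1 - u / 2))))) := by
  obtain ⟨A, hA⟩ : ∃ A : ℝ, A = 2 ^ i := ⟨_, rfl⟩
  have hA1 : 1 ≤ A := by rw [hA]; exact one_le_pow₀ (by norm_num)
  obtain ⟨r, hr⟩ : ∃ r : ℝ, r = 1 + A := ⟨_, rfl⟩
  have hr0 : 0 < r := by rw [hr]; linarith
  obtain ⟨S, hS⟩ : ∃ S : Finset ℕ, S = Finset.Ico (2 ^ i) (2 ^ (i + 1)) := ⟨_, rfl⟩
  have hScard : (S.card : ℝ) = A := by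
    rw [hS, Nat.card_Ico, hA]
    have : 2 ^ (i + 1) - 2 ^ i = 2 ^ i := by rw [pow_succ]; omega
    rw [this]
    push_cast
    rfl
  rw [← hS] at hR ⊢
  rw [← hA, ← hr] at hR hX
  obtain ⟨s, hs⟩ : ∃ s : ℝ, s = r ^ (u + u * k - u ^ 2 / 2) := ⟨_, rfl⟩
  have hs0 : 0 < s := by rw [hs]; positivity
  have hτ0 : 0 < r ^ 2 := by positivity
  have hk0 : 0 < k := by linarith
  have hpt : ∀ᵐ t ∂μ, ENNReal.ofReal ((∑ l ∈ S, a l t ^ (2 * k)) ^ (u / (2 * k))) ≤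
      ENNReal.ofReal s * ENNReal.ofReal (x t ^ (2 * u)) +
        (ENNReal.ofReal (s⁻¹ * (r ^ 2) ^ (u - 1)) * ∑ l ∈ S, ENNReal.ofReal (a l t ^ 2 / x t ^ 2) + ENNReal.ofReal (s⁻¹ * (r ^ 2) ^ u)) := by
    filter_upwards [hpos] with t ht
    obtain ⟨hx, ha⟩ := ht
    obtain ⟨W, hW⟩ : ∃ W : ℝ, W = ∑ l ∈ S, a l t ^ 2 / x t ^ 2 := ⟨_, rfl⟩
    have hW0 : 0 ≤ W := by rw [hW]; exact Finset.sum_nonneg fun l _ => by positivity
    have h1 : ∑ l ∈ S, a l t ^ (2 * k) ≤ (x t ^ 2 * W) ^ k := by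
      have h2 : ∑ l ∈ S, a l t ^ (2 * k) = ∑ l ∈ S, (a l t ^ 2) ^ k := by
        refine Finset.sum_congr rfl fun l _ => ?_
        rw [← Real.rpow_natCast, ← Real.rpow_mul (ha l)]
        norm_num
      have h3 : x t ^ 2 * W = ∑ l ∈ S, a l t ^ 2 := by
        rw [hW, Finset.mul_sum]
        refine Finset.sum_congr rfl fun l _ => ?_
        field_simp
      rw [h2, h3]
      exact sum_pow_le (fun l _ => sq_nonneg _) hk.le
    have h4 : (∑ l ∈ S, a l t ^ (2 * k)) ^ (u / (2 * k)) ≤ (x t ^ 2 * W) ^ (u / 2) := by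
      refine (Real.rpow_le_rpow (Finset.sum_nonneg fun l _ => Real.rpow_nonneg (ha l) _) h1 (by positivity)).trans (le_of_eq ?_)
      rw [← Real.rpow_mul (mul_nonneg (by positivity) hW0)]
      congr 1
      field_simp
    have h5 := h4.trans (young hx hW0 hu0 hu1 hs0 hτ0)
    refine (ENNReal.ofReal_le_ofReal h5).trans (le_of_eq ?_)
    rw [← ENNReal.ofReal_sum_of_nonneg fun l _ => div_nonneg (sq_nonneg _) (sq_nonneg _), ← hW, ← ENNReal.ofReal_mul hs0.le,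
      ← ENNReal.ofReal_mul (by positivity), ← ENNReal.ofReal_add (by positivity) (by positivity), ← ENNReal.ofReal_add (by positivity) (by positivity)]
    congr 1
    ring
  have hm1 : Measurable fun t => ENNReal.ofReal (x t ^ (2 * u)) := ENNReal.measurable_ofReal.comp (hxm.pow_const _)
  have hm2 : ∀ l, Measurable fun t => ENNReal.ofReal (a l t ^ 2 / x t ^ 2) := fun l =>
    ENNReal.measurable_ofReal.comp (((ham l).pow_const 2).div (hxm.pow_const 2))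
  have hm3 : Measurable fun t => ENNReal.ofReal (s⁻¹ * (r ^ 2) ^ (u - 1)) * ∑ l ∈ S, ENNReal.ofReal (a l t ^ 2 / x t ^ 2) :=
    (Finset.measurable_fun_sum _ fun l _ => hm2 l).const_mul _
  refine (lintegral_mono_ae hpt).trans ?_
  rw [lintegral_add_left (hm1.const_mul _), lintegral_const_mul _ hm1, lintegral_add_left hm3, lintegral_const_mul _ (Finset.measurable_fun_sum _ fun l _ => hm2 l),
    lintegral_finsetSum _ fun l _ => hm2 l, lintegral_const]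
  obtain ⟨κ, hκ⟩ : ∃ κ : ℝ, κ = u * (k - 1 - u / 2) := ⟨_, rfl⟩
  have hκ0 : 0 ≤ κ := by rw [hκ]; exact mul_nonneg hu0.le (by linarith)
  have g1 : ENNReal.ofReal s * ∫⁻ t, ENNReal.ofReal (x t ^ (2 * u)) ∂μ ≤ ENNReal.ofReal (D * (2 ^ (2 * u * (k - u)) * r ^ (-κ))) := by
    refine (mul_le_mul_right hX _).trans (le_of_eq ?_)
    rw [← ENNReal.ofReal_mul hs0.le]
    congr 1
    have h1 : s * r ^ (u ^ 2 - 2 * u * k) = r ^ (-κ) := by
      rw [hs, ← Real.rpow_add hr0]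
      congr 1
      rw [hκ]
      ring
    rw [← h1]
    ring
  have g2 : ENNReal.ofReal (s⁻¹ * (r ^ 2) ^ (u - 1)) * ∑ l ∈ S, ∫⁻ t, ENNReal.ofReal (a l t ^ 2 / x t ^ 2) ∂μ ≤
      ENNReal.ofReal (D * (4 * 9 ^ k * r ^ (-κ))) := by
    have h1 : ∑ l ∈ S, ∫⁻ t, ENNReal.ofReal (a l t ^ 2 / x t ^ 2) ∂μ ≤ ENNReal.ofReal (A * (D * (4 * 9 ^ k * r))) := by
      refine (Finset.sum_le_sum hR).trans (le_of_eq ?_)
      rw [Finset.sum_const, nsmul_eq_mul, ← hScard, ENNReal.ofReal_mul (Nat.cast_nonneg _), ENNReal.ofReal_natCast]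
    refine (mul_le_mul_right h1 _).trans ?_
    rw [← ENNReal.ofReal_mul (by positivity)]
    refine ENNReal.ofReal_le_ofReal ?_
    have h2 : s⁻¹ * ((r ^ 2) ^ (u - 1) * (r * r)) = r ^ (-κ) := by
      have h3 : (r ^ 2) ^ (u - 1) * (r * r) = (r ^ 2) ^ u := by
        have h4 : (r ^ 2) ^ u = r ^ 2 * (r ^ 2) ^ (u - 1) := by
          rw [← Real.rpow_one_add' hτ0.le (by linarith)]
          congr 1
          ring
        rw [h4]
        ring
      rw [h3, hs, ← Real.rpow_neg hr0.le, ← Real.rpow_natCast r 2, ← Real.rpow_mul hr0.le, ← Real.rpow_add hr0]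
      congr 1
      rw [hκ]
      push_cast
      ring
    rw [← h2]
    have hAr : A ≤ r := by rw [hr]; linarith
    have h5 : 0 ≤ s⁻¹ * (r ^ 2) ^ (u - 1) * (D * (4 * 9 ^ k * r)) := by positivity
    calc s⁻¹ * (r ^ 2) ^ (u - 1) * (A * (D * (4 * 9 ^ k * r))) = A * (s⁻¹ * (r ^ 2) ^ (u - 1) * (D * (4 * 9 ^ k * r))) := by ring
      _ ≤ r * (s⁻¹ * (r ^ 2) ^ (u - 1) * (D * (4 * 9 ^ k * r))) := mul_le_mul_of_nonneg_right hAr h5
      _ = D * (4 * 9 ^ k * (s⁻¹ * ((r ^ 2) ^ (u - 1) * (r * r)))) := by ring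
  have g3 : ENNReal.ofReal (s⁻¹ * (r ^ 2) ^ u) * μ Set.univ ≤ ENNReal.ofReal (D * r ^ (-κ)) := by
    refine (mul_le_mul_right h0 _).trans (le_of_eq ?_)
    rw [← ENNReal.ofReal_mul (by positivity)]
    congr 1
    have h2 : s⁻¹ * (r ^ 2) ^ u = r ^ (-κ) := by
      rw [hs, ← Real.rpow_neg hr0.le, ← Real.rpow_natCast r 2, ← Real.rpow_mul hr0.le, ← Real.rpow_add hr0]
      congr 1
      rw [hκ]
      push_cast
      ring
    rw [h2]
    ring
  refine (add_le_add g1 (add_le_add g2 g3)).trans ?_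
  rw [← ENNReal.ofReal_add (by positivity) (by positivity), ← ENNReal.ofReal_add (by positivity) (by positivity), ← hκ]
  refine ENNReal.ofReal_le_ofReal ?_
  have g4 : r ^ (-κ) ≤ ((2:ℝ) ^ i) ^ (-κ) := by
    rw [← hA]
    exact Real.rpow_le_rpow_of_nonpos (by linarith) (by rw [hr]; linarith) (by linarith)
  have g5 : (0:ℝ) ≤ D * (2 ^ (2 * u * (k - u)) + (4 * 9 ^ k + 1)) := by positivity
  calc D * (2 ^ (2 * u * (k - u)) * r ^ (-κ)) + (D * (4 * 9 ^ k * r ^ (-κ)) + D * r ^ (-κ)) =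
      D * (2 ^ (2 * u * (k - u)) + (4 * 9 ^ k + 1)) * r ^ (-κ) := by ring
    _ ≤ D * (2 ^ (2 * u * (k - u)) + (4 * 9 ^ k + 1)) * ((2:ℝ) ^ i) ^ (-κ) := mul_le_mul_of_nonneg_left g4 g5
    _ = _ := by ring

/-- the exponent in use -/
def uk (k : ℝ) : ℝ := min 1 (k - 1)

lemma uk_pos {k : ℝ} (hk : 1 < k) : 0 < uk k := lt_min one_pos (by linarith)

lemma uk_le1 (k : ℝ) : uk k ≤ 1 := min_le_left _ _

lemma uk_le (k : ℝ) : uk k ≤ k - 1 := min_le_right _ _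

/-- the constant in use -/
def CB (k : ℝ) : ℝ := (2 ^ (2 * uk k * (k - uk k)) + (4 * 9 ^ k + 1)) * (1 - (2:ℝ) ^ (-(uk k * (k - 1 - uk k / 2))))⁻¹

lemma CB_pos {k : ℝ} (hk : 1 < k) : 0 < CB k := by
  have hu0 := uk_pos hk
  have huk := uk_le k
  have hκ0 : 0 < uk k * (k - 1 - uk k / 2) := mul_pos hu0 (by linarith)
  have hρ1 : (2:ℝ) ^ (-(uk k * (k - 1 - uk k / 2))) < 1 := Real.rpow_lt_one_of_one_lt_of_neg (by norm_num) (by linarith)
  unfold CB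
  have : 0 < 1 - (2:ℝ) ^ (-(uk k * (k - 1 - uk k / 2))) := by linarith
  positivity

/-- all blocks -/
theorem all_abs {k D : ℝ} (hk : 1 < k) (hD : 0 ≤ D) (M : ℕ) (a : ℕ → α → ℝ) (x : ℕ → α → ℝ)
    (ham : ∀ l, Measurable (a l)) (hxm : ∀ i, Measurable (x i)) (ha : ∀ l t, 0 ≤ a l t) (hpos : ∀ i < M, ∀ᵐ t ∂μ, 0 < x i t)
    (h0 : μ Set.univ ≤ ENNReal.ofReal D)
    (hX : ∀ i < M, ∫⁻ t, ENNReal.ofReal (x i t ^ (2 * uk k)) ∂μ ≤
      ENNReal.ofReal (D * (2 ^ (2 * uk k * (k - uk k)) * (1 + (2:ℝ) ^ i) ^ (uk k ^ 2 - 2 * uk k * k))))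
    (hR : ∀ i < M, ∀ l ∈ Finset.Ico (2 ^ i) (2 ^ (i + 1)), ∫⁻ t, ENNReal.ofReal (a l t ^ 2 / x i t ^ 2) ∂μ ≤ ENNReal.ofReal (D * (4 * 9 ^ k * (1 + (2:ℝ) ^ i)))) :
    ∫⁻ t, ENNReal.ofReal ((∑ l ∈ Finset.Ico 1 (2 ^ M), a l t ^ (2 * k)) ^ (uk k / (2 * k))) ∂μ ≤ ENNReal.ofReal (D * CB k) := by
  have hu0 := uk_pos hk
  have hu1 := uk_le1 k
  have huk := uk_le k
  obtain ⟨κ, hκ⟩ : ∃ κ : ℝ, κ = uk k * (k - 1 - uk k / 2) := ⟨_, rfl⟩
  have hκ0 : 0 < κ := by rw [hκ]; exact mul_pos hu0 (by linarith)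
  obtain ⟨C3, hC3⟩ : ∃ C3 : ℝ, C3 = 2 ^ (2 * uk k * (k - uk k)) + (4 * 9 ^ k + 1) := ⟨_, rfl⟩
  have hC30 : 0 ≤ C3 := by rw [hC3]; positivity
  obtain ⟨ρ, hρ⟩ : ∃ ρ : ℝ, ρ = (2:ℝ) ^ (-κ) := ⟨_, rfl⟩
  have hρ0 : 0 < ρ := by rw [hρ]; positivity
  have hρ1 : ρ < 1 := by rw [hρ]; exact Real.rpow_lt_one_of_one_lt_of_neg (by norm_num) (by linarith)
  have hCB : CB k = C3 * (1 - ρ)⁻¹ := by unfold CB; rw [hC3, hρ, hκ]
  have hq0 : 0 < uk k / (2 * k) := by positivity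
  have hq1 : uk k / (2 * k) ≤ 1 := by
    rw [div_le_one (by positivity)]
    linarith
  have hsplit : ∀ t, ∑ l ∈ Finset.Ico 1 (2 ^ M), a l t ^ (2 * k) = ∑ i ∈ Finset.range M, ∑ l ∈ Finset.Ico (2 ^ i) (2 ^ (i + 1)), a l t ^ (2 * k) := by
    intro t
    have key : ∀ M : ℕ, ∑ l ∈ Finset.Ico 1 (2 ^ M), a l t ^ (2 * k) = ∑ i ∈ Finset.range M, ∑ l ∈ Finset.Ico (2 ^ i) (2 ^ (i + 1)), a l t ^ (2 * k) := by
      intro M
      induction M with
      | zero => simp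
      | succ M ih =>
        rw [Finset.sum_range_succ, ← ih, Finset.sum_Ico_consecutive _ Nat.one_le_two_pow (Nat.pow_le_pow_right (by norm_num) (by omega))]
    exact key M
  have hnn : ∀ (i : ℕ) (t : α), 0 ≤ ∑ l ∈ Finset.Ico (2 ^ i) (2 ^ (i + 1)), a l t ^ (2 * k) := fun i t =>
    Finset.sum_nonneg fun l _ => Real.rpow_nonneg (ha l t) _
  have hle : ∀ t, ENNReal.ofReal ((∑ l ∈ Finset.Ico 1 (2 ^ M), a l t ^ (2 * k)) ^ (uk k / (2 * k))) ≤
      ∑ i ∈ Finset.range M, ENNReal.ofReal ((∑ l ∈ Finset.Ico (2 ^ i) (2 ^ (i + 1)), a l t ^ (2 * k)) ^ (uk k / (2 * k))) := by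
    intro t
    rw [hsplit, ← ENNReal.ofReal_sum_of_nonneg fun i _ => Real.rpow_nonneg (hnn i t) _]
    exact ENNReal.ofReal_le_ofReal (rpow_sum_le (fun i _ => hnn i t) hq0 hq1)
  have hmeas : ∀ i, Measurable fun t => ENNReal.ofReal ((∑ l ∈ Finset.Ico (2 ^ i) (2 ^ (i + 1)), a l t ^ (2 * k)) ^ (uk k / (2 * k))) := fun i =>
    ENNReal.measurable_ofReal.comp ((Finset.measurable_fun_sum _ fun l _ => (ham l).pow_const _).pow_const _)
  refine (lintegral_mono hle).trans ?_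
  rw [lintegral_finsetSum _ fun i _ => hmeas i]
  have h1 : ∀ i ∈ Finset.range M, ∫⁻ t, ENNReal.ofReal ((∑ l ∈ Finset.Ico (2 ^ i) (2 ^ (i + 1)), a l t ^ (2 * k)) ^ (uk k / (2 * k))) ∂μ ≤
      ENNReal.ofReal (D * C3 * ρ ^ i) := by
    intro i hi
    rw [Finset.mem_range] at hi
    refine (blk_abs hk hu0 hu1 huk hD i a (x i) ham (hxm i) ((hpos i hi).mono fun t ht => ⟨ht, fun l => ha l t⟩) h0 (hX i hi) (hR i hi)).trans (le_of_eq ?_)
    rw [← hC3, ← hκ, hρ, ← Real.rpow_natCast (2:ℝ) i, ← Real.rpow_mul (by norm_num), ← Real.rpow_natCast ((2:ℝ) ^ (-κ)) i, ← Real.rpow_mul (by norm_num), mul_assoc]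
    congr 4
    ring
  refine (Finset.sum_le_sum h1).trans ?_
  rw [← ENNReal.ofReal_sum_of_nonneg fun i _ => by positivity, ← Finset.mul_sum, hCB, ← mul_assoc]
  refine ENNReal.ofReal_le_ofReal (mul_le_mul_of_nonneg_left ?_ (by positivity))
  have h2 := (summable_geometric_of_lt_one hρ0.le hρ1).sum_le_tsum (Finset.range M) fun m _ => by positivity
  rwa [tsum_geometric_of_lt_one hρ0.le hρ1] at h2

/-- the mean of the inverse of the sum -/
theorem low_abs {q c C D : ℝ} (hq0 : 0 < q) (hq1 : q ≤ 1) (hc : 0 < c) (hC : 0 < C) (hD : 0 < D) {P Q : α → ℝ} (hPm : Measurable P) (hQm : Measurable Q)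
    (hP0 : ∀ t, 0 ≤ P t) (hQ0 : ∀ t, 0 ≤ Q t) (h0 : ENNReal.ofReal (c * D) ≤ μ Set.univ)
    (hP : ∫⁻ t, ENNReal.ofReal (P t ^ q) ∂μ ≤ ENNReal.ofReal (D * C)) (hQ : ∫⁻ t, ENNReal.ofReal (Q t ^ q) ∂μ ≤ ENNReal.ofReal (D * C)) :
    ENNReal.ofReal (c / (2 * (1 + (4 * C / c) ^ (1 / q))) * D) ≤ ∫⁻ t, ENNReal.ofReal (1 / (1 + (P t + Q t))) ∂μ := by
  obtain ⟨M0, hM0⟩ : ∃ M0 : ℝ, M0 = (4 * C / c) ^ (1 / q) := ⟨_, rfl⟩
  have hM0p : 0 < M0 := by rw [hM0]; positivity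
  have hM0q : M0 ^ q = 4 * C / c := by
    rw [hM0, ← Real.rpow_mul (by positivity), one_div, inv_mul_cancel₀ hq0.ne', Real.rpow_one]
  rw [← hM0]
  have hpt : ∀ t, (1 : ENNReal) ≤ ENNReal.ofReal (1 + M0) * ENNReal.ofReal (1 / (1 + (P t + Q t))) +
      (ENNReal.ofReal (c / (4 * C)) * ENNReal.ofReal (P t ^ q) + ENNReal.ofReal (c / (4 * C)) * ENNReal.ofReal (Q t ^ q)) := by
    intro t
    have hp := hP0 t
    have hqq := hQ0 t
    have h4 : (P t + Q t) ^ q ≤ P t ^ q + Q t ^ q := Real.rpow_add_le_add_rpow hp hqq hq0.le hq1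
    have hpq := Real.rpow_nonneg hp q
    have hqq2 := Real.rpow_nonneg hqq q
    rw [← ENNReal.ofReal_mul (by positivity), ← ENNReal.ofReal_mul (by positivity), ← ENNReal.ofReal_mul (by positivity),
      ← ENNReal.ofReal_add (by positivity) (by positivity), ← ENNReal.ofReal_add (by positivity) (by positivity), ← ENNReal.ofReal_one]
    refine ENNReal.ofReal_le_ofReal ?_
    rcases le_or_gt (P t + Q t) M0 with h | h
    · have h5 : 1 ≤ (1 + M0) * (1 / (1 + (P t + Q t))) := by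
        rw [mul_one_div, le_div_iff₀ (by linarith)]
        linarith
      have h6 : 0 ≤ c / (4 * C) * P t ^ q + c / (4 * C) * Q t ^ q := by positivity
      linarith
    · have h5 : 4 * C / c ≤ (P t + Q t) ^ q := by
        rw [← hM0q]
        exact Real.rpow_le_rpow hM0p.le h.le hq0.le
      have h6 : 1 ≤ c / (4 * C) * P t ^ q + c / (4 * C) * Q t ^ q := by
        have h7 : c / (4 * C) * (4 * C / c) ≤ c / (4 * C) * (P t ^ q + Q t ^ q) := mul_le_mul_of_nonneg_left (h5.trans h4) (by positivity)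
        have h8 : c / (4 * C) * (4 * C / c) = 1 := by field_simp
        linarith
      have h9 : 0 ≤ (1 + M0) * (1 / (1 + (P t + Q t))) := by positivity
      linarith
  have hm1 : Measurable fun t => ENNReal.ofReal (1 / (1 + (P t + Q t))) :=
    ENNReal.measurable_ofReal.comp (measurable_const.div (measurable_const.add (hPm.add hQm)))
  have hm2 : Measurable fun t => ENNReal.ofReal (P t ^ q) := ENNReal.measurable_ofReal.comp (hPm.pow_const _)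
  have hm3 : Measurable fun t => ENNReal.ofReal (Q t ^ q) := ENNReal.measurable_ofReal.comp (hQm.pow_const _)
  have h1 : μ Set.univ ≤ ENNReal.ofReal (1 + M0) * ∫⁻ t, ENNReal.ofReal (1 / (1 + (P t + Q t))) ∂μ + ENNReal.ofReal (c * D / 2) := by
    have h2 : μ Set.univ = ∫⁻ _t, 1 ∂μ := by rw [lintegral_one]
    rw [h2]
    refine (lintegral_mono hpt).trans ?_
    rw [lintegral_add_left (hm1.const_mul _), lintegral_const_mul _ hm1, lintegral_add_left (hm2.const_mul _), lintegral_const_mul _ hm2, lintegral_const_mul _ hm3]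
    refine add_le_add le_rfl ?_
    refine (add_le_add (mul_le_mul_right hP _) (mul_le_mul_right hQ _)).trans (le_of_eq ?_)
    rw [← ENNReal.ofReal_mul (by positivity), ← ENNReal.ofReal_add (by positivity) (by positivity)]
    congr 1
    field_simp
    ring
  have h2 := h0.trans h1
  have h3 : ENNReal.ofReal (c * D) = ENNReal.ofReal (c * D / 2) + ENNReal.ofReal (c * D / 2) := by
    rw [← ENNReal.ofReal_add (by positivity) (by positivity)]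
    congr 1
    ring
  rw [h3] at h2
  have h4 : ENNReal.ofReal (c * D / 2) ≤ ENNReal.ofReal (1 + M0) * ∫⁻ t, ENNReal.ofReal (1 / (1 + (P t + Q t))) ∂μ :=
    (ENNReal.add_le_add_iff_right ENNReal.ofReal_ne_top).mp h2
  have h5 : ENNReal.ofReal (1 + M0) * ENNReal.ofReal (c / (2 * (1 + M0)) * D) = ENNReal.ofReal (c * D / 2) := by
    rw [← ENNReal.ofReal_mul (by positivity)]
    congr 1
    field_simp
  rw [← h5] at h4
  exact (ENNReal.mul_le_mul_iff_right (by positivity) ENNReal.ofReal_ne_top).mp h4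

end

end Pool.Agent.X111.MS
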