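import Pool.Agent.X110.RR5
import Pool.Agent.Y901.SHR.Diag

set_option autoImplicit false
set_option linter.unusedSectionVars false

/-! Joint moments near the line: the diagonal sum up to constant factors, all real exponents and complex shifts. -/

namespace Pool.Agent.X111.MS

open Finset MeasureTheory Filter Topology
open Pool.Agent.H306R2 (lc dv dA lc_nonneg lc_sq_le lc_summable C0 C0_summable C0_nonneg dv_nonneg dv_one dv_prime_pow lc_one dA_mult dA_apply inv_prime dv_sq_le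
  dvJ_summable primes_summable)
open Pool.Agent.X110.RR (tw2 tw2_apply Ty Ty_le)

noncomputable section

lemma tw2_mult (y : ℝ) (w : ℂ) : (tw2 y w).IsMultiplicative := by
  refine ⟨?_, fun {m n} hmn => ?_⟩
  · rw [tw2_apply, dv_one]
    simp
  · rw [tw2_apply, tw2_apply, tw2_apply]
    have h1 : dv y (m * n) = dv y m * dv y n := by
      rw [← dA_apply, (dA_mult y).map_mul_of_coprime hmn, dA_apply, dA_apply]
    rw [h1, Nat.cast_mul, Complex.natCast_mul_natCast_cpow]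
    push_cast
    ring

lemma prod_mult {ι : Type} (s : Finset ι) (y : ι → ℝ) (w : ι → ℂ) : (∏ j ∈ s, tw2 (y j) (w j)).IsMultiplicative := by
  classical
  induction s using Finset.induction_on with
  | empty =>
    rw [prod_empty]
    exact ArithmeticFunction.isMultiplicative_one
  | insert a s ha ih =>
    rw [prod_insert ha]
    exact (tw2_mult _ _).mul ih

lemma prod_prime {ι : Type} (s : Finset ι) (y : ι → ℝ) (w : ι → ℂ) {p : ℕ} (hp : p.Prime) :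
    (∏ j ∈ s, tw2 (y j) (w j)) p = ∑ j ∈ s, (y j : ℂ) * (p : ℂ) ^ (-(w j)) := by
  classical
  induction s using Finset.induction_on with
  | empty =>
    rw [prod_empty, sum_empty, ArithmeticFunction.one_apply, if_neg hp.ne_one]
  | insert a s ha ih =>
    rw [prod_insert ha, sum_insert ha, ArithmeticFunction.mul_apply,
      Nat.sum_divisorsAntidiagonal (fun a' b' => (tw2 (y a) (w a)) a' * (∏ j ∈ s, tw2 (y j) (w j)) b')]
    rw [hp.divisors, sum_pair hp.one_lt.ne, Nat.div_one, Nat.div_self hp.pos, ih, (tw2_mult _ _).map_one, (prod_mult s y w).map_one, one_mul, mul_one]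
    have h1 : tw2 (y a) (w a) p = (y a : ℂ) * (p : ℂ) ^ (-(w a)) := by
      rw [tw2_apply]
      have h2 := dv_prime_pow (y a) hp 1
      rw [pow_one, lc_one] at h2
      rw [h2]
    rw [h1]
    ring

section

variable {m K : ℕ} {y : Fin m → ℝ} {w : Fin m → ℂ} {δ : ℝ}

/-- the terms of the diagonal sum -/
def fT (y : Fin m → ℝ) (w : Fin m → ℂ) (δ : ℝ) (n : ℕ) : ℝ := ‖Ty y w n‖ ^ 2 * (n : ℝ) ^ (-1 - 2 * δ)

lemma fT_nn (y : Fin m → ℝ) (w : Fin m → ℂ) (δ : ℝ) (n : ℕ) : 0 ≤ fT y w δ n := by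
  unfold fT
  positivity

lemma fT_one (y : Fin m → ℝ) (w : Fin m → ℂ) (δ : ℝ) : fT y w δ 1 = 1 := by
  unfold fT Ty
  rw [(prod_mult univ y w).map_one]
  simp

lemma fT_zero (y : Fin m → ℝ) (w : Fin m → ℂ) (δ : ℝ) : fT y w δ 0 = 0 := by
  unfold fT
  rw [ArithmeticFunction.map_zero]
  simp

lemma fT_mult (y : Fin m → ℝ) (w : Fin m → ℂ) (δ : ℝ) {a b : ℕ} (h : Nat.Coprime a b) : fT y w δ (a * b) = fT y w δ a * fT y w δ b := by
  unfold fT Ty
  rw [(prod_mult univ y w).map_mul_of_coprime h, norm_mul, Nat.cast_mul, Real.mul_rpow (Nat.cast_nonneg _) (Nat.cast_nonneg _)]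
  ring

lemma fT_le (hy : ∀ j, |y j| ≤ K) (hw : ∀ j, 0 ≤ (w j).re) (n : ℕ) : fT y w δ n ≤ dv ((m * K : ℕ) : ℝ) n ^ 2 * (n : ℝ) ^ (-1 - 2 * δ) := by
  unfold fT
  refine mul_le_mul_of_nonneg_right ?_ (Real.rpow_nonneg (Nat.cast_nonneg _) _)
  exact pow_le_pow_left₀ (norm_nonneg _) (Ty_le hy hw n) 2

lemma fT_summable (hy : ∀ j, |y j| ≤ K) (hw : ∀ j, 0 ≤ (w j).re) (hδ : 0 < δ) : Summable (fT y w δ) := by
  refine Summable.of_nonneg_of_le (fun n => fT_nn _ _ _ n) (fun n => ?_) (dvJ_summable ((m * K) ^ 2) (σ := 2 * δ) (by linarith))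
  refine (fT_le hy hw n).trans ?_
  refine mul_le_mul_of_nonneg_right ?_ (Real.rpow_nonneg (Nat.cast_nonneg _) _)
  have := dv_sq_le (κ := ((m * K : ℕ) : ℝ)) (Nat.cast_nonneg _) n
  push_cast at this ⊢
  exact this

lemma fT_pp (hy : ∀ j, |y j| ≤ K) (hw : ∀ j, 0 ≤ (w j).re) (hδ : 0 ≤ δ) {p : ℕ} (hp : p.Prime) (e : ℕ) :
    fT y w δ (p ^ e) ≤ lc (((m * K : ℕ) : ℝ) ^ 2) e * (1 / (p : ℝ)) ^ e := by
  refine (fT_le hy hw _).trans ?_
  rw [dv_prime_pow _ hp]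
  have h1 : (1 : ℝ) ≤ ((p ^ e : ℕ) : ℝ) := by exact_mod_cast Nat.one_le_pow _ _ hp.pos
  have h2 : ((p ^ e : ℕ) : ℝ) ^ (-1 - 2 * δ) ≤ (1 / (p : ℝ)) ^ e := by
    calc ((p ^ e : ℕ) : ℝ) ^ (-1 - 2 * δ) ≤ ((p ^ e : ℕ) : ℝ) ^ (-1 : ℝ) := Real.rpow_le_rpow_of_exponent_le h1 (by linarith)
      _ = (1 / (p : ℝ)) ^ e := by
          rw [Real.rpow_neg_one]
          push_cast
          rw [one_div, inv_pow]
  exact mul_le_mul (lc_sq_le (Nat.cast_nonneg _) e) h2 (Real.rpow_nonneg (Nat.cast_nonneg _) _) (lc_nonneg (by positivity) _)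

/-- the local factor -/
def Ep (y : Fin m → ℝ) (w : Fin m → ℂ) (δ : ℝ) (p : ℕ) : ℝ := ∑' e : ℕ, fT y w δ (p ^ e)

/-- the diagonal sum -/
def DG (y : Fin m → ℝ) (w : Fin m → ℂ) (δ : ℝ) : ℝ := ∑' n : ℕ, fT y w δ n

lemma DG_prod (hy : ∀ j, |y j| ≤ K) (hw : ∀ j, 0 ≤ (w j).re) (hδ : 0 < δ) : HasProd (fun p : Nat.Primes => Ep y w δ p) (DG y w δ) := by
  refine EulerProduct.eulerProduct_hasProd (f := fT y w δ) (fT_one y w δ) (fun {a b} h => fT_mult y w δ h) ?_ (fT_zero y w δ)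
  refine (fT_summable hy hw hδ).congr fun n => ?_
  rw [Real.norm_of_nonneg (fT_nn _ _ _ n)]

lemma DG_ge (hy : ∀ j, |y j| ≤ K) (hw : ∀ j, 0 ≤ (w j).re) (hδ : 0 < δ) : 1 ≤ DG y w δ := by
  have := (fT_summable hy hw hδ).le_tsum 1 fun n _ => fT_nn y w δ n
  rwa [fT_one] at this

lemma Ep_two (hK : 0 < m * K) (hy : ∀ j, |y j| ≤ K) (hw : ∀ j, 0 ≤ (w j).re) (hδ : 0 ≤ δ) {p : ℕ} (hp : p.Prime) :
    1 + fT y w δ p ≤ Ep y w δ p ∧ Ep y w δ p ≤ 1 + fT y w δ p + C0 ((m * K : ℕ) : ℝ) * (1 / (p : ℝ)) ^ 2 := by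
  have hK' : (0:ℝ) < ((m * K : ℕ) : ℝ) := by exact_mod_cast hK
  have hp' := inv_prime hp
  have hsum : Summable fun e : ℕ => fT y w δ (p ^ e) :=
    Summable.of_nonneg_of_le (fun e => fT_nn _ _ _ _) (fun e => fT_pp hy hw hδ hp e) (lc_summable (by positivity) hp'.1 (by linarith [hp'.2]))
  have h1 : Ep y w δ p = 1 + fT y w δ p + ∑' e : ℕ, fT y w δ (p ^ (e + 2)) := by
    unfold Ep
    rw [← hsum.sum_add_tsum_nat_add 2]
    simp only [sum_range_succ, sum_range_zero, pow_zero, pow_one, zero_add, fT_one]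
  rw [h1]
  have h0 : 0 ≤ ∑' e : ℕ, fT y w δ (p ^ (e + 2)) := tsum_nonneg fun e => fT_nn _ _ _ _
  refine ⟨by linarith, ?_⟩
  have h2 : ∑' e : ℕ, fT y w δ (p ^ (e + 2)) ≤ C0 ((m * K : ℕ) : ℝ) * (1 / (p : ℝ)) ^ 2 := by
    unfold C0
    rw [← tsum_mul_right]
    refine Summable.tsum_le_tsum (fun e => ?_) ((summable_nat_add_iff 2).mpr hsum) ((C0_summable hK').mul_right _)
    refine (fT_pp hy hw hδ hp (e + 2)).trans ?_
    rw [pow_add, mul_assoc]
    have h3 : (1 / (p : ℝ)) ^ e ≤ (1 / 2) ^ e := pow_le_pow_left₀ hp'.1.le hp'.2 e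
    have h4 := lc_nonneg (α := ((m * K : ℕ) : ℝ) ^ 2) (by positivity) (e + 2)
    gcongr
  linarith

lemma fT_p_le (hy : ∀ j, |y j| ≤ K) (hw : ∀ j, 0 ≤ (w j).re) (hδ : 0 ≤ δ) {p : ℕ} (hp : p.Prime) :
    fT y w δ p ≤ ((m * K : ℕ) : ℝ) ^ 2 * (1 / (p : ℝ)) := by
  have h1 := fT_pp hy hw hδ hp 1
  rwa [pow_one, lc_one, pow_one] at h1

/-- the constant of the Euler product -/
def CA (m K : ℕ) : ℝ := (((m * K : ℕ) : ℝ) ^ 4 + C0 ((m * K : ℕ) : ℝ)) * ∑' p : Nat.Primes, (1 / ((p : ℕ) : ℝ)) ^ 2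

/-- the Euler product up to a constant -/
theorem DG_exp (hK : 0 < m * K) (hy : ∀ j, |y j| ≤ K) (hw : ∀ j, 0 ≤ (w j).re) (hδ : 0 < δ) :
    Summable (fun p : Nat.Primes => fT y w δ p) ∧
    |Real.log (DG y w δ) - ∑' p : Nat.Primes, fT y w δ p| ≤ CA m K := by
  have hs : Summable (fun p : Nat.Primes => fT y w δ p) := (fT_summable hy hw hδ).comp_injective Nat.Primes.coe_nat_injective
  refine ⟨hs, ?_⟩
  have hD := DG_ge hy hw hδ
  have hK' : (0:ℝ) < ((m * K : ℕ) : ℝ) := by exact_mod_cast hK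
  have hC0 := C0_nonneg hK'
  obtain ⟨c, hc⟩ : ∃ c : ℝ, c = ((m * K : ℕ) : ℝ) ^ 4 + C0 ((m * K : ℕ) : ℝ) := ⟨_, rfl⟩
  have hc0 : 0 ≤ c := by rw [hc]; positivity
  have hlog : ∀ p : Nat.Primes, |Real.log (Ep y w δ p) - fT y w δ p| ≤ c * (1 / ((p : ℕ) : ℝ)) ^ 2 := by
    intro p
    obtain ⟨h1, h2⟩ := Ep_two hK hy hw hδ.le p.2
    have h3 := fT_nn y w δ (p : ℕ)
    have h4 := fT_p_le hy hw hδ.le p.2
    have h5 : fT y w δ (p : ℕ) ^ 2 ≤ ((m * K : ℕ) : ℝ) ^ 4 * (1 / ((p : ℕ) : ℝ)) ^ 2 := by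
      refine (pow_le_pow_left₀ h3 h4 2).trans (le_of_eq ?_)
      ring
    have h6 : 0 ≤ (1 / ((p : ℕ) : ℝ)) ^ 2 := by positivity
    have h7 : 0 ≤ C0 ((m * K : ℕ) : ℝ) * (1 / ((p : ℕ) : ℝ)) ^ 2 := mul_nonneg hC0 h6
    rw [abs_le, hc]
    constructor
    · have h8 := Real.log_le_log (by linarith) h1
      have h9 := (abs_le.mp (Pool.Agent.H306R2.log_bd h3)).1
      nlinarith
    · have h8 := Real.log_le_sub_one_of_pos (show 0 < Ep y w δ p by linarith)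
      have h10 : 0 ≤ ((m * K : ℕ) : ℝ) ^ 4 * (1 / ((p : ℕ) : ℝ)) ^ 2 := by positivity
      nlinarith
  have hEp : ∀ p : Nat.Primes, 0 < Ep y w δ p := fun p => by
    have := (Ep_two hK hy hw hδ.le p.2).1
    have := fT_nn y w δ (p : ℕ)
    linarith
  have hsq : Summable fun p : Nat.Primes => c * (1 / ((p : ℕ) : ℝ)) ^ 2 := primes_summable.mul_left c
  have hdiff : Summable fun p : Nat.Primes => Real.log (Ep y w δ p) - fT y w δ p := Summable.of_norm_bounded hsq fun p => hlog p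
  have hlogs : Summable fun p : Nat.Primes => Real.log (Ep y w δ p) := by
    refine (hdiff.add hs).congr fun p => ?_
    ring
  have h1 : DG y w δ = Real.exp (∑' p : Nat.Primes, Real.log (Ep y w δ p)) := by
    have h2 := hlogs.hasSum.rexp
    have h3 : (Real.exp ∘ fun p : Nat.Primes => Real.log (Ep y w δ p)) = fun p : Nat.Primes => Ep y w δ p := by
      funext p
      exact Real.exp_log (hEp p)
    rw [h3] at h2
    exact (DG_prod hy hw hδ).unique h2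
  rw [h1, Real.log_exp, ← hlogs.tsum_sub hs, ← Real.norm_eq_abs]
  refine (tsum_of_norm_bounded hsq.hasSum fun p => hlog p).trans (le_of_eq ?_)
  rw [tsum_mul_left, hc]
  rfl

end

end

end Pool.Agent.X111.MS
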