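import Pool.Agent.X111.MS.Dg

set_option autoImplicit false
set_option linter.unusedSectionVars false

/-! Joint moments near the line: the diagonal sum and the logarithms of the differences of the shifts. -/

namespace Pool.Agent.X111.MS

open Finset MeasureTheory Filter Topology
open Pool.Agent.H306R2 (inv_prime primes_summable)
open Pool.Agent.X110.RR (tw2 tw2_apply Ty Ty_le)

noncomputable section

/-- the sum of the inverse squares of the primes -/
def P2 : ℝ := ∑' p : Nat.Primes, (1 / ((p : ℕ) : ℝ)) ^ 2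

lemma pw_norm {s : ℂ} (hs : 1 ≤ s.re) {p : ℕ} (hp : p.Prime) : ‖(p : ℂ) ^ (-s)‖ ≤ 1 / (p : ℝ) := by
  have hp0 : 0 < p := hp.pos
  have hp1 : (1:ℝ) ≤ p := by exact_mod_cast hp.one_lt.le
  rw [Complex.norm_natCast_cpow_of_pos hp0, Complex.neg_re]
  calc (p : ℝ) ^ (-s.re) ≤ (p : ℝ) ^ (-1 : ℝ) := Real.rpow_le_rpow_of_exponent_le hp1 (by linarith)
    _ = 1 / (p : ℝ) := by rw [Real.rpow_neg_one, one_div]

lemma pw_summable {s : ℂ} (hs : 1 < s.re) : Summable fun p : Nat.Primes => ((p : ℕ) : ℂ) ^ (-s) := by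
  have h1 := (Complex.summable_one_div_nat_cpow.mpr hs).comp_injective Nat.Primes.coe_nat_injective
  refine h1.congr fun p => ?_
  show 1 / ((p : ℕ) : ℂ) ^ s = _
  rw [Complex.cpow_neg, one_div]

/-- the logarithm of zeta and the sum over the primes -/
lemma log_zeta {s : ℂ} (hs : 1 < s.re) : |(∑' p : Nat.Primes, ((p : ℕ) : ℂ) ^ (-s)).re - Real.log ‖riemannZeta s‖| ≤ P2 := by
  have h1 := pw_summable hs
  have h2 : ∀ p : Nat.Primes, ‖-Complex.log (1 - ((p : ℕ) : ℂ) ^ (-s)) - ((p : ℕ) : ℂ) ^ (-s)‖ ≤ (1 / ((p : ℕ) : ℝ)) ^ 2 := by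
    intro p
    have hp' := inv_prime p.2
    have h3 := pw_norm hs.le p.2
    have h4 : ‖-((p : ℕ) : ℂ) ^ (-s)‖ < 1 := by rw [norm_neg]; linarith
    have h5 := Complex.norm_log_one_add_sub_self_le h4
    rw [norm_neg] at h5
    have e1 : -Complex.log (1 - ((p : ℕ) : ℂ) ^ (-s)) - ((p : ℕ) : ℂ) ^ (-s) =
        -(Complex.log (1 + -((p : ℕ) : ℂ) ^ (-s)) - -((p : ℕ) : ℂ) ^ (-s)) := by
      rw [← sub_eq_add_neg]
      ring
    rw [e1, norm_neg]
    refine h5.trans ?_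
    have h6 : (1 - ‖((p : ℕ) : ℂ) ^ (-s)‖)⁻¹ ≤ 2 := by
      rw [inv_le_comm₀ (by linarith) (by norm_num)]
      linarith
    calc ‖((p : ℕ) : ℂ) ^ (-s)‖ ^ 2 * (1 - ‖((p : ℕ) : ℂ) ^ (-s)‖)⁻¹ / 2 ≤ ‖((p : ℕ) : ℂ) ^ (-s)‖ ^ 2 * 2 / 2 := by gcongr
      _ = ‖((p : ℕ) : ℂ) ^ (-s)‖ ^ 2 := by ring
      _ ≤ (1 / ((p : ℕ) : ℝ)) ^ 2 := pow_le_pow_left₀ (norm_nonneg _) h3 2
  have h3 : Summable fun p : Nat.Primes => -Complex.log (1 - ((p : ℕ) : ℂ) ^ (-s)) := by
    have h4 : Summable fun p : Nat.Primes => -Complex.log (1 - ((p : ℕ) : ℂ) ^ (-s)) - ((p : ℕ) : ℂ) ^ (-s) :=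
      Summable.of_norm_bounded primes_summable h2
    refine (h4.add h1).congr fun p => ?_
    ring
  have h4 : Real.log ‖riemannZeta s‖ = (∑' p : Nat.Primes, -Complex.log (1 - ((p : ℕ) : ℂ) ^ (-s))).re := by
    rw [← riemannZeta_eulerProduct_exp_log hs, Complex.norm_exp, Real.log_exp]
  rw [h4, ← Complex.sub_re, ← h1.tsum_sub h3]
  refine (Complex.abs_re_le_norm _).trans ?_
  unfold P2
  refine tsum_of_norm_bounded primes_summable.hasSum fun p => ?_
  rw [norm_sub_rev]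
  exact h2 p

/-- zeta near its pole -/
lemma zeta_pole : ∃ C : ℝ, 0 < C ∧ ∀ u : ℂ, 0 < u.re → ‖u‖ ≤ 3 → |Real.log ‖riemannZeta (1 + u)‖ + Real.log ‖u‖| ≤ C := by
  obtain ⟨g, hg⟩ : ∃ g : ℂ → ℂ, g = Function.update (fun u : ℂ => u * riemannZeta (1 + u)) 0 1 := ⟨_, rfl⟩
  obtain ⟨Q, hQ⟩ : ∃ Q : Set ℂ, Q = Metric.closedBall 0 3 ∩ {u | 0 ≤ u.re} := ⟨_, rfl⟩
  have hQc : IsCompact Q := by
    rw [hQ]
    exact (isCompact_closedBall 0 3).inter_right (isClosed_le continuous_const Complex.continuous_re)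
  have hgc : Continuous g := by
    rw [continuous_iff_continuousAt]
    intro u
    rcases eq_or_ne u 0 with h | h
    · rw [h, hg, continuousAt_update_same]
      have h1 := riemannZeta_residue_one
      have h2 : Tendsto (fun u : ℂ => 1 + u) (𝓝[≠] 0) (𝓝[≠] 1) := by
        refine tendsto_nhdsWithin_iff.mpr ⟨?_, ?_⟩
        · have : Tendsto (fun u : ℂ => 1 + u) (𝓝 0) (𝓝 (1 + 0)) := (continuous_const.add continuous_id).tendsto 0
          rw [add_zero] at this
          exact this.mono_left nhdsWithin_le_nhds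
        · filter_upwards [self_mem_nhdsWithin] with u hu h3
          apply hu
          have h4 : 1 + u = 1 := h3
          have : u = 0 := by linear_combination h4
          exact this
      refine (h1.comp h2).congr fun u => ?_
      show (1 + u - 1) * riemannZeta (1 + u) = _
      ring
    · rw [hg]
      rw [continuousAt_update_of_ne h]
      have h1 : ContinuousAt riemannZeta (1 + u) := (differentiableAt_riemannZeta (by
        intro h2
        apply h
        linear_combination h2)).continuousAt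
      exact continuousAt_id.mul (ContinuousAt.comp (f := fun u : ℂ => 1 + u) h1 (by fun_prop))
  have hg0 : ∀ u ∈ Q, g u ≠ 0 := by
    intro u hu
    rw [hQ] at hu
    rcases eq_or_ne u 0 with h | h
    · rw [h, hg, Function.update_self]
      exact one_ne_zero
    · rw [hg, Function.update_of_ne h]
      refine mul_ne_zero h (riemannZeta_ne_zero_of_one_le_re ?_)
      have : 0 ≤ u.re := hu.2
      simp
      exact this
  obtain ⟨C, hC⟩ := hQc.exists_bound_of_continuousOn (f := fun u => Real.log ‖g u‖) (by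
    refine ContinuousOn.log hgc.norm.continuousOn fun u hu => ?_
    exact (norm_pos_iff.mpr (hg0 u hu)).ne')
  refine ⟨max C 1, lt_of_lt_of_le one_pos (le_max_right _ _), fun u hu0 hu3 => ?_⟩
  have hu : u ∈ Q := by
    rw [hQ]
    refine ⟨by rw [mem_closedBall_zero_iff]; exact hu3, hu0.le⟩
  have hne : u ≠ 0 := by
    rintro rfl
    simp at hu0
  have h1 := hC u hu
  have h2 : g u = u * riemannZeta (1 + u) := by rw [hg, Function.update_of_ne hne]
  have hz : riemannZeta (1 + u) ≠ 0 := riemannZeta_ne_zero_of_one_le_re (by simp; exact hu0.le)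
  rw [h2, norm_mul, Real.log_mul (norm_ne_zero_iff.mpr hne) (norm_ne_zero_iff.mpr hz), Real.norm_eq_abs] at h1
  rw [add_comm]
  exact h1.trans (le_max_left _ _)

section

variable {m K : ℕ} {y : Fin m → ℝ} {w : Fin m → ℂ} {δ : ℝ}

/-- the difference of two shifts -/
def uu (δ : ℝ) (a b : ℂ) : ℂ := ((2 * δ : ℝ) : ℂ) + a + (starRingEnd ℂ) b

lemma uu_re (δ : ℝ) (a b : ℂ) : (uu δ a b).re = 2 * δ + a.re + b.re := by
  unfold uu
  simp

/-- the prime terms -/
lemma fT_prime (y : Fin m → ℝ) (w : Fin m → ℂ) (δ : ℝ) {p : ℕ} (hp : p.Prime) :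
    fT y w δ p = ∑ i, ∑ j, y i * y j * ((p : ℂ) ^ (-(1 + uu δ (w i) (w j)))).re := by
  have hp0 : (p : ℂ) ≠ 0 := by exact_mod_cast hp.ne_zero
  have hpp : (0:ℝ) < p := by exact_mod_cast hp.pos
  have h1 : Ty y w p = ∑ j, (y j : ℂ) * (p : ℂ) ^ (-(w j)) := by
    unfold Ty
    exact prod_prime univ y w hp
  have h2 : ((‖Ty y w p‖ ^ 2 : ℝ) : ℂ) = Ty y w p * (starRingEnd ℂ) (Ty y w p) := by
    rw [Complex.mul_conj, Complex.normSq_eq_norm_sq]
  have h3 : ((fT y w δ p : ℝ) : ℂ) = ∑ i, ∑ j, ((y i * y j : ℝ) : ℂ) * (p : ℂ) ^ (-(1 + uu δ (w i) (w j))) := by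
    unfold fT
    rw [Complex.ofReal_mul, h2, h1, map_sum, Finset.sum_mul_sum, Finset.sum_mul]
    refine Finset.sum_congr rfl fun i _ => ?_
    rw [Finset.sum_mul]
    refine Finset.sum_congr rfl fun j _ => ?_
    have e1 : (starRingEnd ℂ) ((p : ℂ) ^ (-(w j))) = (p : ℂ) ^ (-(starRingEnd ℂ) (w j)) := by
      have h4 := Complex.cpow_conj (p : ℂ) (-(w j)) (by
        rw [Complex.natCast_arg]
        exact Real.pi_ne_zero.symm)
      rw [map_neg] at h4
      rw [h4, Complex.conj_natCast]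
    have e2 : (((p : ℝ) ^ (-1 - 2 * δ) : ℝ) : ℂ) = (p : ℂ) ^ ((-1 - 2 * δ : ℝ) : ℂ) := by
      rw [Complex.ofReal_cpow hpp.le, Complex.ofReal_natCast]
    rw [map_mul, Complex.conj_ofReal, e1, e2]
    have e3 : (p : ℂ) ^ (-(1 + uu δ (w i) (w j))) = (p : ℂ) ^ (-(w i)) * (p : ℂ) ^ (-(starRingEnd ℂ) (w j)) * (p : ℂ) ^ ((-1 - 2 * δ : ℝ) : ℂ) := by
      rw [← Complex.cpow_add _ _ hp0, ← Complex.cpow_add _ _ hp0]
      congr 1
      unfold uu
      push_cast
      ring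
    rw [e3]
    push_cast
    ring
  have h4 := congrArg Complex.re h3
  rw [Complex.ofReal_re] at h4
  rw [h4, Complex.re_sum]
  refine Finset.sum_congr rfl fun i _ => ?_
  rw [Complex.re_sum]
  refine Finset.sum_congr rfl fun j _ => ?_
  rw [Complex.re_ofReal_mul]

/-- **The diagonal sum up to constants.** -/
theorem dg (m K : ℕ) (hK : 0 < m * K) : ∃ C : ℝ, 0 < C ∧ ∀ (y : Fin m → ℝ) (w : Fin m → ℂ) (δ : ℝ), (∀ j, |y j| ≤ K) →
    (∀ j, 0 ≤ (w j).re ∧ (w j).re ≤ 1 / 16 ∧ |(w j).im| ≤ 1) → 0 < δ → δ ≤ 1 / 16 →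
    |Real.log (DG y w δ) + ∑ i, ∑ j, y i * y j * Real.log ‖uu δ (w i) (w j)‖| ≤ C := by
  obtain ⟨C1, hC1, hC⟩ := zeta_pole
  have hP2 : 0 ≤ P2 := tsum_nonneg fun p => by positivity
  refine ⟨|CA m K| + (m * m) * ((K * K) * (P2 + C1)) + 1, by positivity, fun y w δ hy hw hδ hδ1 => ?_⟩
  obtain ⟨hs, h1⟩ := DG_exp hK hy (fun j => (hw j).1) hδ
  have hu : ∀ i j, 0 < (uu δ (w i) (w j)).re ∧ ‖uu δ (w i) (w j)‖ ≤ 3 := by
    intro i j
    have hi := hw i
    have hj := hw j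
    constructor
    · rw [uu_re]
      linarith
    · unfold uu
      have n1 : ‖w i‖ ≤ 17 / 16 := (Complex.norm_le_abs_re_add_abs_im _).trans (by rw [abs_of_nonneg hi.1]; linarith)
      have n2 : ‖(starRingEnd ℂ) (w j)‖ ≤ 17 / 16 := by
        rw [RCLike.norm_conj]
        exact (Complex.norm_le_abs_re_add_abs_im _).trans (by rw [abs_of_nonneg hj.1]; linarith)
      have n3 : ‖((2 * δ : ℝ) : ℂ)‖ ≤ 1 / 8 := by
        rw [Complex.norm_real, Real.norm_of_nonneg (by linarith)]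
        linarith
      refine (norm_add_le _ _).trans ?_
      have := norm_add_le ((2 * δ : ℝ) : ℂ) (w i)
      linarith
  have hterm : ∀ i j, |(∑' p : Nat.Primes, ((p : ℕ) : ℂ) ^ (-(1 + uu δ (w i) (w j)))).re + Real.log ‖uu δ (w i) (w j)‖| ≤ P2 + C1 := by
    intro i j
    have h2 := log_zeta (s := 1 + uu δ (w i) (w j)) (by rw [Complex.add_re, Complex.one_re]; linarith [(hu i j).1])
    have h3 := hC _ (hu i j).1 (hu i j).2
    obtain ⟨a1, a2⟩ := abs_le.mp h2
    obtain ⟨b1, b2⟩ := abs_le.mp h3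
    rw [abs_le]
    constructor <;> linarith
  have hsum : ∑' p : Nat.Primes, fT y w δ p = ∑ i, ∑ j, y i * y j * (∑' p : Nat.Primes, ((p : ℕ) : ℂ) ^ (-(1 + uu δ (w i) (w j)))).re := by
    have hij : ∀ i j, Summable fun p : Nat.Primes => (((p : ℕ) : ℂ) ^ (-(1 + uu δ (w i) (w j)))).re := by
      intro i j
      exact Complex.reCLM.summable (pw_summable (s := 1 + uu δ (w i) (w j)) (by rw [Complex.add_re, Complex.one_re]; linarith [(hu i j).1]))
    have h2 : ∀ p : Nat.Primes, fT y w δ p = ∑ i, ∑ j, y i * y j * (((p : ℕ) : ℂ) ^ (-(1 + uu δ (w i) (w j)))).re := fun p => fT_prime y w δ p.2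
    simp_rw [h2]
    rw [Summable.tsum_finsetSum fun i _ => summable_sum fun j _ => (hij i j).mul_left _]
    refine Finset.sum_congr rfl fun i _ => ?_
    rw [Summable.tsum_finsetSum fun j _ => (hij i j).mul_left _]
    refine Finset.sum_congr rfl fun j _ => ?_
    rw [tsum_mul_left, Complex.re_tsum (pw_summable (s := 1 + uu δ (w i) (w j)) (by rw [Complex.add_re, Complex.one_re]; linarith [(hu i j).1]))]
  rw [hsum] at h1
  have h5 : |∑ i, ∑ j, y i * y j * (∑' p : Nat.Primes, ((p : ℕ) : ℂ) ^ (-(1 + uu δ (w i) (w j)))).re +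
      ∑ i, ∑ j, y i * y j * Real.log ‖uu δ (w i) (w j)‖| ≤ (m * m) * ((K * K) * (P2 + C1)) := by
    rw [← Finset.sum_add_distrib]
    refine (Finset.abs_sum_le_sum_abs _ _).trans ?_
    have h6 : ∀ i ∈ (univ : Finset (Fin m)), |(∑ j, y i * y j * (∑' p : Nat.Primes, ((p : ℕ) : ℂ) ^ (-(1 + uu δ (w i) (w j)))).re) +
        ∑ j, y i * y j * Real.log ‖uu δ (w i) (w j)‖| ≤ m * ((K * K) * (P2 + C1)) := by
      intro i _
      rw [← Finset.sum_add_distrib]
      refine (Finset.abs_sum_le_sum_abs _ _).trans ?_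
      have h7 : ∀ j ∈ (univ : Finset (Fin m)), |y i * y j * (∑' p : Nat.Primes, ((p : ℕ) : ℂ) ^ (-(1 + uu δ (w i) (w j)))).re +
          y i * y j * Real.log ‖uu δ (w i) (w j)‖| ≤ (K * K) * (P2 + C1) := by
        intro j _
        rw [← mul_add, abs_mul, abs_mul]
        refine mul_le_mul (mul_le_mul (hy i) (hy j) (abs_nonneg _) (Nat.cast_nonneg _)) (hterm i j) (abs_nonneg _) (by positivity)
      refine (Finset.sum_le_sum h7).trans (le_of_eq ?_)
      rw [Finset.sum_const, card_univ, Fintype.card_fin, nsmul_eq_mul]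
    refine (Finset.sum_le_sum h6).trans (le_of_eq ?_)
    rw [Finset.sum_const, card_univ, Fintype.card_fin, nsmul_eq_mul]
    ring
  obtain ⟨a1, a2⟩ := abs_le.mp h1
  obtain ⟨b1, b2⟩ := abs_le.mp h5
  have h8 := le_abs_self (CA m K)
  rw [abs_le]
  constructor <;> linarith

end

end

end Pool.Agent.X111.MS
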