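import Pool.Agent.X111.MS.Dg2
import Pool.Agent.X111.FZ.Blk2

set_option autoImplicit false
set_option linter.unusedSectionVars false

/-! Joint moments near the line, three points, up to constants. -/

namespace Pool.Agent.X111.MS

open Finset MeasureTheory Filter Topology
open Pool.Agent.X110.RR (tw2 tw2_apply Ty Ty_le GS Zf ratio GS_meas)
open Pool.Agent.Y746.OA (sp)
open Pool.Agent.X111.FZ (sg lz_one lz_two X_bd R_bd sg_line sg_real norm_real_half il_re re_re sg_symm)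

noncomputable section

/-- the joint moment -/
def JI (δ V T : ℝ) {m : ℕ} (w : Fin m → ℂ) (β : Fin m → ℝ) : ℝ :=
  ∫ t in Set.Ioc 0 T ∩ GS δ V w, ∏ j, ‖riemannZeta (sp δ t + w j)‖ ^ (2 * β j)

lemma Zf_zero (δ : ℝ) {m : ℕ} (w : Fin m → ℂ) (β : Fin m → ℝ) (t : ℝ) :
    Zf δ w β (fun _ => 0) t = ((∏ j, ‖riemannZeta (sp δ t + w j)‖ ^ (2 * β j) : ℝ) : ℂ) := by
  unfold Zf
  rw [Complex.ofReal_prod]
  refine Finset.prod_congr rfl fun j _ => ?_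
  rw [zpow_zero, one_mul]

lemma diag_DG (δ : ℝ) {m : ℕ} (w : Fin m → ℂ) (β : Fin m → ℝ) :
    ∑' n : ℕ, Ty (fun j => β j + ((0 : ℤ) : ℝ)) w n * (starRingEnd ℂ) (Ty β w n) * Pool.Agent.Y746.CS.wt δ n = ((DG β w δ : ℝ) : ℂ) := by
  unfold DG
  rw [Complex.ofReal_tsum]
  refine tsum_congr fun n => ?_
  simp only [Int.cast_zero, add_zero]
  unfold fT Pool.Agent.Y746.CS.wt
  rw [Complex.mul_conj, Complex.normSq_eq_norm_sq]
  have e : -(2 * (1 / 2 + δ)) = -1 - 2 * δ := by ring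
  rw [e]
  push_cast
  rfl

/-- the joint moments, up to the factor two -/
theorem jm (m K : ℕ) : ∃ c : ℝ, 0 < c ∧ ∀ B : ℕ, ∃ (A : ℕ) (C T0 : ℝ), 0 < C ∧
    ∀ T : ℝ, T0 ≤ T → ∀ δ : ℝ, C * Real.log (Real.log T) / Real.log T ≤ δ → δ ≤ 1 / 16 →
    4 ≤ T ∧ 24 ≤ Real.log T ∧ 0 < δ ∧ 2 / δ ≤ Real.log T ∧
    ∀ V : ℝ, Real.log T ^ A ≤ V → V ≤ T ^ (c * δ) →
    ∀ (w : Fin m → ℂ) (β : Fin m → ℝ),
      (∀ j, 0 ≤ (w j).re ∧ δ + (w j).re ≤ 1 / 16 ∧ |(w j).im| ≤ 1) → (∀ j, |β j| ≤ K) →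
    T * DG β w δ / 2 ≤ JI δ V T w β ∧ JI δ V T w β ≤ 2 * T * DG β w δ ∧
    (volume (Set.Ioc 0 T \ GS δ V w)).toReal ≤ T / Real.log T ^ B := by
  obtain ⟨c, hc, h⟩ := ratio m K
  refine ⟨c, hc, fun B => ?_⟩
  obtain ⟨A, C, T0, hC, h2⟩ := h (B + 1)
  refine ⟨A, C, T0, hC, fun T hT δ hδ hδ1 => ?_⟩
  obtain ⟨hT4, hL24, hδ0, h2δ, h3⟩ := h2 T hT δ hδ hδ1
  refine ⟨hT4, hL24, hδ0, h2δ, fun V hV1 hV2 w β hw hβ => ?_⟩
  obtain ⟨g1, g2⟩ := h3 V hV1 hV2 w β (fun _ => 0) (fun j => ⟨(hw j).1, (hw j).2.1, (hw j).2.2.trans (by linarith)⟩) hβ (fun j => by simp)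
  have hL0 : 0 < Real.log T := by linarith
  have hT0 : 0 < T := by linarith
  have hpow : T / Real.log T ^ (B + 1) ≤ T / Real.log T ^ B := by
    refine div_le_div_of_nonneg_left hT0.le (by positivity) ?_
    exact pow_le_pow_right₀ (by linarith) (by omega)
  have hhalf : T / Real.log T ^ (B + 1) ≤ T / 2 := by
    refine div_le_div_of_nonneg_left hT0.le (by norm_num) ?_
    calc (2:ℝ) ≤ Real.log T ^ 1 := by rw [pow_one]; linarith
      _ ≤ Real.log T ^ (B + 1) := pow_le_pow_right₀ (by linarith) (by omega)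
  have hD := DG_ge hβ (fun j => (hw j).1) hδ0 (w := w)
  rw [diag_DG] at g1
  have e1 : ∫ t in Set.Ioc 0 T ∩ GS δ V w, Zf δ w β (fun _ => 0) t = ((JI δ V T w β : ℝ) : ℂ) := by
    unfold JI
    simp_rw [Zf_zero]
    exact integral_ofReal
  rw [e1] at g1
  have e2 : ((JI δ V T w β : ℝ) : ℂ) - (T : ℂ) * ((DG β w δ : ℝ) : ℂ) = ((JI δ V T w β - T * DG β w δ : ℝ) : ℂ) := by push_cast; rfl
  rw [e2, Complex.norm_real, Real.norm_eq_abs] at g1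
  obtain ⟨a1, a2⟩ := abs_le.mp g1
  have hTD : T ≤ T * DG β w δ := le_mul_of_one_le_right hT0.le hD
  refine ⟨by linarith, by linarith, g2.trans hpow⟩

/-- the shift of parameters `a`, `b` -/
def pw (δ a b : ℝ) : ℂ := ((δ * a : ℝ) : ℂ) + ((δ * b : ℝ) : ℂ) * Complex.I

lemma pw_re (δ a b : ℝ) : (pw δ a b).re = δ * a := by
  unfold pw
  simp

lemma pw_im (δ a b : ℝ) : (pw δ a b).im = δ * b := by
  unfold pw
  simp

/-- the logarithm of the differences -/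
lemma uu_pw {δ : ℝ} (hδ : 0 < δ) {a a' : ℝ} (ha : 0 ≤ a) (ha' : 0 ≤ a') (b b' : ℝ) :
    Real.log ‖uu δ (pw δ a b) (pw δ a' b')‖ = Real.log (2 * δ) + Real.log ‖(1 : ℂ) + ((a + a' : ℝ) : ℂ) / 2 + Complex.I * (((b - b') / 2 : ℝ) : ℂ)‖ := by
  have e1 : uu δ (pw δ a b) (pw δ a' b') = ((2 * δ : ℝ) : ℂ) * ((1 : ℂ) + ((a + a' : ℝ) : ℂ) / 2 + Complex.I * (((b - b') / 2 : ℝ) : ℂ)) := by
    unfold uu pw
    simp only [map_add, map_mul, Complex.conj_ofReal, Complex.conj_I]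
    push_cast
    ring
  have hne : (1 : ℂ) + ((a + a' : ℝ) : ℂ) / 2 + Complex.I * (((b - b') / 2 : ℝ) : ℂ) ≠ 0 := by
    intro h
    have := congrArg Complex.re h
    simp at this
    linarith
  rw [e1, norm_mul, Complex.norm_real, Real.norm_of_nonneg (by linarith), Real.log_mul (by linarith) (norm_ne_zero_iff.mpr hne)]

/-- three points -/
def w3 (δ b A l : ℝ) : Fin 3 → ℂ := ![pw δ 0 b, pw δ A b, pw δ 0 (b + l)]

/-- three exponents -/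
def b3 (x y z : ℝ) : Fin 3 → ℝ := ![x, y, z]

/-- the quadratic form for three points -/
lemma quad {δ : ℝ} (hδ : 0 < δ) {A : ℝ} (hA : 0 ≤ A) (b l x y z : ℝ) :
    ∑ i, ∑ j, b3 x y z i * b3 x y z j * Real.log ‖uu δ (w3 δ b A l i) (w3 δ b A l j)‖ =
      (x + y + z) ^ 2 * Real.log (2 * δ) + y ^ 2 * Real.log (1 + A) + 2 * x * y * Real.log (1 + A / 2) +
        2 * x * z * Real.log ‖1 + Complex.I * (l : ℂ) / 2‖ + 2 * y * z * sg (Complex.I * (l : ℂ)) (A : ℂ) := by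
  have s00 : Real.log ‖uu δ (pw δ 0 b) (pw δ 0 b)‖ = Real.log (2 * δ) := by
    rw [uu_pw hδ le_rfl le_rfl]
    simp
  have s11 : Real.log ‖uu δ (pw δ A b) (pw δ A b)‖ = Real.log (2 * δ) + Real.log (1 + A) := by
    rw [uu_pw hδ hA hA]
    have e : (1 : ℂ) + ((A + A : ℝ) : ℂ) / 2 + Complex.I * (((b - b) / 2 : ℝ) : ℂ) = ((1 + A : ℝ) : ℂ) := by push_cast; ring
    rw [e, Complex.norm_real, Real.norm_of_nonneg (by linarith)]
  have s22 : Real.log ‖uu δ (pw δ 0 (b + l)) (pw δ 0 (b + l))‖ = Real.log (2 * δ) := by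
    rw [uu_pw hδ le_rfl le_rfl]
    simp
  have s01 : Real.log ‖uu δ (pw δ 0 b) (pw δ A b)‖ = Real.log (2 * δ) + Real.log (1 + A / 2) := by
    rw [uu_pw hδ le_rfl hA]
    have e : (1 : ℂ) + ((0 + A : ℝ) : ℂ) / 2 + Complex.I * (((b - b) / 2 : ℝ) : ℂ) = ((1 + A / 2 : ℝ) : ℂ) := by push_cast; ring
    rw [e, Complex.norm_real, Real.norm_of_nonneg (by linarith)]
  have s10 : Real.log ‖uu δ (pw δ A b) (pw δ 0 b)‖ = Real.log (2 * δ) + Real.log (1 + A / 2) := by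
    rw [uu_pw hδ hA le_rfl]
    have e : (1 : ℂ) + ((A + 0 : ℝ) : ℂ) / 2 + Complex.I * (((b - b) / 2 : ℝ) : ℂ) = ((1 + A / 2 : ℝ) : ℂ) := by push_cast; ring
    rw [e, Complex.norm_real, Real.norm_of_nonneg (by linarith)]
  have s02 : Real.log ‖uu δ (pw δ 0 b) (pw δ 0 (b + l))‖ = Real.log (2 * δ) + Real.log ‖1 + Complex.I * (l : ℂ) / 2‖ := by
    rw [uu_pw hδ le_rfl le_rfl]
    have e : (1 : ℂ) + ((0 + 0 : ℝ) : ℂ) / 2 + Complex.I * (((b - (b + l)) / 2 : ℝ) : ℂ) = (starRingEnd ℂ) (1 + Complex.I * (l : ℂ) / 2) := by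
      simp only [map_add, map_one, map_div₀, map_mul, Complex.conj_I, Complex.conj_ofReal, map_ofNat]
      push_cast
      ring
    rw [e, RCLike.norm_conj]
  have s20 : Real.log ‖uu δ (pw δ 0 (b + l)) (pw δ 0 b)‖ = Real.log (2 * δ) + Real.log ‖1 + Complex.I * (l : ℂ) / 2‖ := by
    rw [uu_pw hδ le_rfl le_rfl]
    have e : (1 : ℂ) + ((0 + 0 : ℝ) : ℂ) / 2 + Complex.I * ((((b + l) - b) / 2 : ℝ) : ℂ) = 1 + Complex.I * (l : ℂ) / 2 := by
      push_cast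
      ring
    rw [e]
  have s21 : Real.log ‖uu δ (pw δ 0 (b + l)) (pw δ A b)‖ = Real.log (2 * δ) + sg (Complex.I * (l : ℂ)) (A : ℂ) := by
    rw [uu_pw hδ le_rfl hA]
    unfold sg
    have e : (1 : ℂ) + ((0 + A : ℝ) : ℂ) / 2 + Complex.I * ((((b + l) - b) / 2 : ℝ) : ℂ) = 1 + (Complex.I * (l : ℂ) + (starRingEnd ℂ) (A : ℂ)) / 2 := by
      rw [Complex.conj_ofReal]
      push_cast
      ring
    rw [e]
  have s12 : Real.log ‖uu δ (pw δ A b) (pw δ 0 (b + l))‖ = Real.log (2 * δ) + sg (Complex.I * (l : ℂ)) (A : ℂ) := by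
    rw [uu_pw hδ hA le_rfl]
    unfold sg
    have e : (1 : ℂ) + ((A + 0 : ℝ) : ℂ) / 2 + Complex.I * (((b - (b + l)) / 2 : ℝ) : ℂ) =
        (starRingEnd ℂ) (1 + (Complex.I * (l : ℂ) + (starRingEnd ℂ) (A : ℂ)) / 2) := by
      simp only [map_add, map_one, map_div₀, map_mul, Complex.conj_I, Complex.conj_ofReal, map_ofNat]
      push_cast
      ring
    rw [e, RCLike.norm_conj]
  simp only [Fin.sum_univ_three, b3, w3, Matrix.cons_val_zero, Matrix.cons_val_one, Matrix.cons_val_two, Matrix.head_cons, Matrix.tail_cons]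
  rw [s00, s11, s22, s01, s10, s02, s20, s21, s12]
  ring

end

end Pool.Agent.X111.MS
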