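import Pool.Agent.X111.MS.Jm

set_option autoImplicit false
set_option linter.unusedSectionVars false

/-! Joint moments near the line, three points: the bounds in use. -/

namespace Pool.Agent.X111.MS

open Finset MeasureTheory Filter Topology
open Pool.Agent.X110.RR (tw2 tw2_apply Ty Ty_le GS Zf ratio GS_meas)
open Pool.Agent.Y746.OA (sp)
open Pool.Agent.X111.FZ (sg lz lz_one lz_two X_bd R_bd sg_line sg_real norm_real_half il_re re_re sg_symm)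

noncomputable section

/-- the conditions on the parameters of three points -/
structure Pos (δ b A l : ℝ) : Prop where
  d0 : 0 < δ
  d1 : δ ≤ 1 / 32
  A0 : 0 ≤ A
  A1 : δ * A ≤ 1 / 32
  b1 : |δ * b| ≤ 1
  l1 : |δ * (b + l)| ≤ 1

lemma w3_ok {δ b A l : ℝ} (h : Pos δ b A l) (j : Fin 3) : 0 ≤ (w3 δ b A l j).re ∧ δ + (w3 δ b A l j).re ≤ 1 / 16 ∧ |(w3 δ b A l j).im| ≤ 1 := by
  have hd := h.d0
  have hd1 := h.d1
  have hA := mul_nonneg hd.le h.A0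
  have hA1 := h.A1
  fin_cases j
  · show 0 ≤ (pw δ 0 b).re ∧ δ + (pw δ 0 b).re ≤ 1 / 16 ∧ |(pw δ 0 b).im| ≤ 1
    rw [pw_re, pw_im, mul_zero]
    exact ⟨le_rfl, by linarith, h.b1⟩
  · show 0 ≤ (pw δ A b).re ∧ δ + (pw δ A b).re ≤ 1 / 16 ∧ |(pw δ A b).im| ≤ 1
    rw [pw_re, pw_im]
    exact ⟨hA, by linarith, h.b1⟩
  · show 0 ≤ (pw δ 0 (b + l)).re ∧ δ + (pw δ 0 (b + l)).re ≤ 1 / 16 ∧ |(pw δ 0 (b + l)).im| ≤ 1
    rw [pw_re, pw_im, mul_zero]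
    exact ⟨le_rfl, by linarith, h.l1⟩

lemma b3_ok {K : ℕ} {x y z : ℝ} (hx : |x| ≤ K) (hy : |y| ≤ K) (hz : |z| ≤ K) (j : Fin 3) : |b3 x y z j| ≤ K := by
  fin_cases j
  · exact hx
  · exact hy
  · exact hz

/-- the diagonal sum for three points -/
lemma dg3 {K : ℕ} (hK : 0 < K) : ∃ C : ℝ, 0 < C ∧ ∀ (δ b A l x y z : ℝ), Pos δ b A l → |x| ≤ K → |y| ≤ K → |z| ≤ K →
    |Real.log (DG (b3 x y z) (w3 δ b A l) δ) + ((x + y + z) ^ 2 * Real.log (2 * δ) + y ^ 2 * Real.log (1 + A) + 2 * x * y * Real.log (1 + A / 2) +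
        2 * x * z * Real.log ‖1 + Complex.I * (l : ℂ) / 2‖ + 2 * y * z * sg (Complex.I * (l : ℂ)) (A : ℂ))| ≤ C := by
  obtain ⟨C, hC, h⟩ := dg 3 K (by omega)
  refine ⟨C, hC, fun δ b A l x y z hp hx hy hz => ?_⟩
  rw [← quad hp.d0 hp.A0 b l x y z]
  refine h _ _ _ (b3_ok hx hy hz) (fun j => ?_) hp.d0 (by linarith [hp.d1])
  obtain ⟨h1, h2, h3⟩ := w3_ok hp j
  exact ⟨h1, by linarith [hp.d0], h3⟩

/-- the bounds -/
theorem DG_bd {k : ℝ} (hk : 0 < k) {K : ℕ} (hK1 : 1 ≤ K) (hkK : 2 * k ≤ K) : ∃ C : ℝ, 1 ≤ C ∧ ∀ (δ b A l : ℝ), Pos δ b A l →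
    (C⁻¹ * (2 * δ) ^ (-(k ^ 2)) ≤ DG (b3 k 0 0) (w3 δ b A l) δ ∧ DG (b3 k 0 0) (w3 δ b A l) δ ≤ C * (2 * δ) ^ (-(k ^ 2))) ∧
    DG (b3 (2 * k) 0 0) (w3 δ b A l) δ ≤ C * (2 * δ) ^ (-(4 * k ^ 2)) ∧
    (∀ u : ℝ, 0 ≤ u → u ≤ k → DG (b3 (k - u) u 0) (w3 δ b A l) δ ≤ C * (2 * δ) ^ (-(k ^ 2)) * (2 ^ (2 * u * (k - u)) * (1 + A) ^ (u ^ 2 - 2 * u * k))) ∧
    (1 ≤ A → A ≤ |l| → |l| ≤ 2 * A → DG (b3 k (-1) 1) (w3 δ b A l) δ ≤ C * (2 * δ) ^ (-(k ^ 2)) * (4 * 9 ^ k * (1 + A))) := by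
  obtain ⟨C, hC, h⟩ := dg3 (K := K) (by omega)
  have hK0 : (1:ℝ) ≤ K := by exact_mod_cast hK1
  have a0 : |(0:ℝ)| ≤ K := by rw [abs_zero]; linarith
  have ak : |k| ≤ K := by rw [abs_of_pos hk]; linarith
  have a2k : |2 * k| ≤ K := by rw [abs_of_pos (by linarith)]; exact hkK
  refine ⟨Real.exp C, Real.one_le_exp hC.le, fun δ b A l hp => ?_⟩
  have hd := hp.d0
  have hd2 : 0 < 2 * δ := by linarith
  have hDp : ∀ x y z : ℝ, |x| ≤ K → |y| ≤ K → |z| ≤ K → 0 < DG (b3 x y z) (w3 δ b A l) δ := fun x y z hx hy hz =>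
    lt_of_lt_of_le one_pos (DG_ge (b3_ok hx hy hz) (fun j => (w3_ok hp j).1) hd)
  have hup : ∀ x y z : ℝ, |x| ≤ K → |y| ≤ K → |z| ≤ K → DG (b3 x y z) (w3 δ b A l) δ ≤ Real.exp C * Real.exp (-((x + y + z) ^ 2 * Real.log (2 * δ) +
      y ^ 2 * Real.log (1 + A) + 2 * x * y * Real.log (1 + A / 2) +
        2 * x * z * Real.log ‖1 + Complex.I * (l : ℂ) / 2‖ + 2 * y * z * sg (Complex.I * (l : ℂ)) (A : ℂ))) := by
    intro x y z hx hy hz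
    have h1 := (abs_le.mp (h δ b A l x y z hp hx hy hz)).2
    rw [← Real.exp_add, ← Real.log_le_iff_le_exp (hDp x y z hx hy hz)]
    linarith
  have hlo : ∀ x y z : ℝ, |x| ≤ K → |y| ≤ K → |z| ≤ K → (Real.exp C)⁻¹ * Real.exp (-((x + y + z) ^ 2 * Real.log (2 * δ) +
      y ^ 2 * Real.log (1 + A) + 2 * x * y * Real.log (1 + A / 2) +
        2 * x * z * Real.log ‖1 + Complex.I * (l : ℂ) / 2‖ + 2 * y * z * sg (Complex.I * (l : ℂ)) (A : ℂ))) ≤ DG (b3 x y z) (w3 δ b A l) δ := by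
    intro x y z hx hy hz
    have h1 := (abs_le.mp (h δ b A l x y z hp hx hy hz)).1
    rw [← Real.exp_neg, ← Real.exp_add, ← Real.le_log_iff_exp_le (hDp x y z hx hy hz)]
    linarith
  have hpw : ∀ q : ℝ, (2 * δ) ^ (-q) = Real.exp (-(q * Real.log (2 * δ))) := fun q => by
    rw [Real.rpow_def_of_pos hd2]
    congr 1
    ring
  refine ⟨⟨?_, ?_⟩, ?_, fun u hu0 huk => ?_, fun hA1 hAl hlA => ?_⟩
  · refine le_trans (le_of_eq ?_) (hlo k 0 0 ak a0 a0)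
    rw [hpw]
    congr 2
    ring
  · refine (hup k 0 0 ak a0 a0).trans (le_of_eq ?_)
    rw [hpw]
    congr 2
    ring
  · refine (hup (2 * k) 0 0 a2k a0 a0).trans (le_of_eq ?_)
    rw [hpw]
    congr 2
    ring
  · have hu : |u| ≤ K := by rw [abs_of_nonneg hu0]; linarith
    have hku : |k - u| ≤ K := by rw [abs_of_nonneg (by linarith)]; linarith
    refine (hup (k - u) u 0 hku hu a0).trans ?_
    have h1 := X_bd hu0 huk hp.A0
    rw [lz_one k _ (re_re hp.A0), sg_real hp.A0, norm_real_half hp.A0] at h1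
    rw [mul_assoc (Real.exp C)]
    refine mul_le_mul_of_nonneg_left ?_ (Real.exp_pos _).le
    rw [hpw]
    refine le_trans (le_of_eq ?_) (mul_le_mul_of_nonneg_left h1 (Real.exp_pos _).le)
    rw [← Real.exp_add]
    congr 1
    ring
  · refine (hup k (-1) 1 ak (by rw [abs_neg, abs_one]; exact hK0) (by rw [abs_one]; exact hK0)).trans ?_
    have h1 := R_bd (k := k) hk.le hA1 hAl hlA
    rw [lz_two k _ _ (il_re l) (re_re hp.A0), sg_line, sg_real hp.A0, norm_real_half hp.A0] at h1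
    rw [mul_assoc (Real.exp C)]
    refine mul_le_mul_of_nonneg_left ?_ (Real.exp_pos _).le
    rw [hpw]
    refine le_trans (le_of_eq ?_) (mul_le_mul_of_nonneg_left h1 (Real.exp_pos _).le)
    rw [← Real.exp_add]
    congr 1
    ring

end

end Pool.Agent.X111.MS
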