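import Pool.Agent.X111.MS.Pk
import Pool.Agent.X111.FZ.Low

set_option autoImplicit false
set_option linter.unusedSectionVars false

/-! The moments of the maxima over windows near the line: the lower bound, all scales. -/

namespace Pool.Agent.X111.MS

open Finset MeasureTheory Filter Topology
open Pool.Agent.X110.RR (GS Zf GS_meas Zf_meas Zf_le cze)
open Pool.Agent.Y746.OA (sp)
open Pool.Agent.X111.FZ (sum_sym)

noncomputable section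

section

variable {K B : ℕ} {T δ V : ℝ} {M : ℕ}

/-- the ratios -/
def ra (δ : ℝ) (b s : ℤ) (l : ℕ) (t : ℝ) : ℝ := Z δ 0 ((b + s * l : ℤ) : ℝ) t / Z δ 0 b t

/-- the ratios at the real shifts -/
def xa (δ : ℝ) (b : ℤ) (i : ℕ) (t : ℝ) : ℝ := Z δ (2 ^ i) b t / Z δ 0 b t

lemma Mz : Measurable riemannZeta := by
  refine measurable_of_continuousOn_compl_singleton 1 fun z hz => ?_
  exact (differentiableAt_riemannZeta hz).continuousAt.continuousWithinAt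

lemma Z_meas (δ a b : ℝ) : Measurable (Z δ a b) := by
  unfold Z
  have h1 : Continuous fun t : ℝ => sp δ t + pw δ a b := by
    unfold sp
    fun_prop
  exact (Mz.comp h1.measurable).norm

lemma ra_meas (c : Ctx K B T δ V M) (b s : ℤ) (l : ℕ) : Measurable (ra δ b s l) := (Z0_cont c _).measurable.div (Z0_cont c _).measurable

lemma ra_nn (b s : ℤ) (l : ℕ) (t : ℝ) : 0 ≤ ra δ b s l t := div_nonneg (Z_nn _ _ _ _) (Z_nn _ _ _ _)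

/-- the first moment of the ratios at the real shifts -/
lemma sideX (c : Ctx K B T δ V M) {k : ℝ} (hk : 1 < k) (hkK : 2 * k ≤ K) {C : ℝ}
    (hCX : ∀ (δ b A l : ℝ), Pos δ b A l → ∀ u : ℝ, 0 ≤ u → u ≤ k →
      DG (b3 (k - u) u 0) (w3 δ b A l) δ ≤ C * (2 * δ) ^ (-(k ^ 2)) * (2 ^ (2 * u * (k - u)) * (1 + A) ^ (u ^ 2 - 2 * u * k)))
    {b : ℤ} (hb3 : |b| ≤ 2 ^ (M + 3)) {G : Set ℝ} (hGm : MeasurableSet G) (hG : G ⊆ Set.Ioc 0 T ∩ GP δ V M) {i : ℕ} (hi : i < M + 2) :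
    ∫⁻ t, ENNReal.ofReal (xa δ b i t ^ (2 * uk k)) ∂(mu k δ b G) ≤
      ENNReal.ofReal (2 * T * (C * (2 * δ) ^ (-(k ^ 2))) * (2 ^ (2 * uk k * (k - uk k)) * (1 + (2:ℝ) ^ i) ^ (uk k ^ 2 - 2 * uk k * k))) := by
  have hk0 : 0 < k := by linarith
  have hT := c.T0
  have hd := c.d0
  have hu0 := uk_pos hk
  have huk := uk_le k
  have a0 : |(0:ℝ)| ≤ K := by rw [abs_zero]; exact Nat.cast_nonneg _
  have au : |uk k| ≤ K := by rw [abs_of_pos hu0]; linarith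
  have aku : |k - uk k| ≤ K := by rw [abs_of_pos (by linarith)]; linarith
  have hp : Pos δ b (2 ^ i) (0:ℤ) := pos_of c (Or.inr ⟨i, hi, rfl⟩) hb3 (by rwa [add_zero])
  have hx : Measurable (xa δ b i) := (Z_meas δ (2 ^ i) b).div (Z_meas δ 0 b)
  have hxm : Measurable fun t => ENNReal.ofReal (xa δ b i t ^ (2 * uk k)) := (hx.pow_const _).ennreal_ofReal
  rw [mu_lint c b G hxm]
  have hpt : ∀ t ∈ G, ENNReal.ofReal (Z δ 0 b t ^ (2 * k)) * ENNReal.ofReal (xa δ b i t ^ (2 * uk k)) ≤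
      ENNReal.ofReal (Z δ 0 b t ^ (2 * (k - uk k)) * Z δ (2 ^ i) b t ^ (2 * uk k) * Z δ 0 (b + ((0:ℤ):ℝ)) t ^ (2 * (0:ℝ))) := by
    intro t ht
    have z0 : 0 < Z δ 0 b t := Z_pos c (hG ht).2 (zero_mem hb3)
    have zA : 0 < Z δ (2 ^ i) b t := Z_pos c (hG ht).2 (two_mem hi hb3)
    rw [← ENNReal.ofReal_mul (Real.rpow_nonneg z0.le _)]
    refine ENNReal.ofReal_le_ofReal (le_of_eq ?_)
    unfold xa
    rw [Real.div_rpow zA.le z0.le, mul_zero, Real.rpow_zero, mul_one]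
    have e1 : 2 * (k - uk k) = 2 * k - 2 * uk k := by ring
    rw [e1, Real.rpow_sub z0]
    have : 0 < Z δ 0 b t ^ (2 * uk k) := Real.rpow_pos_of_pos z0 _
    field_simp
  refine (lint_le c hp aku au a0 (fun t ht => ⟨(hG ht).1, w3_sub (Or.inr ⟨i, hi, rfl⟩) hb3 (by rwa [add_zero]) (hG ht).2⟩) hGm hpt).trans ?_
  refine ENNReal.ofReal_le_ofReal ?_
  have h1 := hCX _ _ _ _ hp (uk k) hu0.le (by linarith)
  calc 2 * T * DG (b3 (k - uk k) (uk k) 0) (w3 δ b (2 ^ i) ((0:ℤ):ℝ)) δ ≤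
        2 * T * (C * (2 * δ) ^ (-(k ^ 2)) * (2 ^ (2 * uk k * (k - uk k)) * (1 + 2 ^ i) ^ (uk k ^ 2 - 2 * uk k * k))) :=
          mul_le_mul_of_nonneg_left h1 (by positivity)
    _ = _ := by ring

/-- the second moment of the ratios -/
lemma sideR (c : Ctx K B T δ V M) {k : ℝ} (hk : 1 < k) (hkK : 2 * k ≤ K) {C : ℝ}
    (hCR : ∀ (δ b A l : ℝ), Pos δ b A l → 1 ≤ A → A ≤ |l| → |l| ≤ 2 * A →
      DG (b3 k (-1) 1) (w3 δ b A l) δ ≤ C * (2 * δ) ^ (-(k ^ 2)) * (4 * 9 ^ k * (1 + A)))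
    {b : ℤ} (hb3 : |b| ≤ 2 ^ (M + 3)) {G : Set ℝ} (hGm : MeasurableSet G) (hG : G ⊆ Set.Ioc 0 T ∩ GP δ V M) {s : ℤ} (hs : |s| = 1)
    {i : ℕ} (hi : i < M + 2) {l : ℕ} (hl1 : 2 ^ i ≤ l) (hl2 : l < 2 ^ (i + 1)) (hl3 : |b + s * l| ≤ 2 ^ (M + 3)) :
    ∫⁻ t, ENNReal.ofReal (ra δ b s l t ^ 2 / xa δ b i t ^ 2) ∂(mu k δ b G) ≤
      ENNReal.ofReal (2 * T * (C * (2 * δ) ^ (-(k ^ 2))) * (4 * 9 ^ k * (1 + (2:ℝ) ^ i))) := by
  have hk0 : 0 < k := by linarith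
  have hT := c.T0
  have hd := c.d0
  have hK1 : (1:ℝ) ≤ K := by linarith
  have a1 : |(1:ℝ)| ≤ K := by rw [abs_one]; exact hK1
  have am1 : |(-1:ℝ)| ≤ K := by rw [abs_neg, abs_one]; exact hK1
  have ak : |k| ≤ K := by rw [abs_of_pos hk0]; linarith
  have hp : Pos δ b (2 ^ i) ((s * l : ℤ) : ℝ) := pos_of c (Or.inr ⟨i, hi, rfl⟩) hb3 hl3
  have hx : Measurable (xa δ b i) := (Z_meas δ (2 ^ i) b).div (Z_meas δ 0 b)
  have hr : Measurable (ra δ b s l) := ra_meas c b s l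
  have hxm : Measurable fun t => ENNReal.ofReal (ra δ b s l t ^ 2 / xa δ b i t ^ 2) := ((hr.pow_const 2).div (hx.pow_const 2)).ennreal_ofReal
  rw [mu_lint c b G hxm]
  have hpt : ∀ t ∈ G, ENNReal.ofReal (Z δ 0 b t ^ (2 * k)) * ENNReal.ofReal (ra δ b s l t ^ 2 / xa δ b i t ^ 2) ≤
      ENNReal.ofReal (Z δ 0 b t ^ (2 * k) * Z δ (2 ^ i) b t ^ (2 * (-1) : ℝ) * Z δ 0 (b + ((s * l : ℤ):ℝ)) t ^ (2 * 1 : ℝ)) := by
    intro t ht
    have z0 : 0 < Z δ 0 b t := Z_pos c (hG ht).2 (zero_mem hb3)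
    have zA : 0 < Z δ (2 ^ i) b t := Z_pos c (hG ht).2 (two_mem hi hb3)
    have e0 : ((b + s * l : ℤ) : ℝ) = (b : ℝ) + ((s * l : ℤ) : ℝ) := by push_cast; ring
    rw [← ENNReal.ofReal_mul (Real.rpow_nonneg z0.le _)]
    refine ENNReal.ofReal_le_ofReal (le_of_eq ?_)
    unfold xa ra
    rw [e0]
    have e1 : Z δ (2 ^ i) b t ^ (2 * (-1) : ℝ) = (Z δ (2 ^ i) b t ^ 2)⁻¹ := by
      rw [show (2 * (-1) : ℝ) = -((2:ℕ) : ℝ) by norm_num, Real.rpow_neg zA.le, Real.rpow_natCast]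
    have e2 : Z δ 0 ((b : ℝ) + ((s * l : ℤ) : ℝ)) t ^ (2 * 1 : ℝ) = Z δ 0 ((b : ℝ) + ((s * l : ℤ) : ℝ)) t ^ 2 := by
      rw [mul_one, show (2 : ℝ) = ((2:ℕ) : ℝ) by norm_num, Real.rpow_natCast]
    rw [e1, e2]
    field_simp
  refine (lint_le c hp ak am1 a1 (fun t ht => ⟨(hG ht).1, w3_sub (Or.inr ⟨i, hi, rfl⟩) hb3 hl3 (hG ht).2⟩) hGm hpt).trans ?_
  refine ENNReal.ofReal_le_ofReal ?_
  have hcast : |((s * l : ℤ) : ℝ)| = (l : ℝ) := by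
    have h5 : |(s * (l : ℤ))| = (l : ℤ) := by rw [abs_mul, hs, one_mul, abs_of_nonneg (Int.natCast_nonneg _)]
    have h6 : ((|(s * (l : ℤ))| : ℤ) : ℝ) = ((l : ℤ) : ℝ) := by rw [h5]
    rw [Int.cast_abs] at h6
    rw [h6]
    simp
  have h1 := hCR _ _ _ _ hp (one_le_pow₀ (by norm_num)) (by rw [hcast]; exact_mod_cast hl1) (by
    rw [hcast]
    have : l ≤ 2 * 2 ^ i := by rw [pow_succ] at hl2; omega
    exact_mod_cast this)
  calc 2 * T * DG (b3 k (-1) 1) (w3 δ b (2 ^ i) ((s * l : ℤ) : ℝ)) δ ≤ 2 * T * (C * (2 * δ) ^ (-(k ^ 2)) * (4 * 9 ^ k * (1 + 2 ^ i))) :=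
          mul_le_mul_of_nonneg_left h1 (by positivity)
    _ = _ := by ring

/-- one side -/
theorem side (c : Ctx K B T δ V M) {k : ℝ} (hk : 1 < k) (hkK : 2 * k ≤ K) {C : ℝ} (hC1 : 1 ≤ C)
    (hC0 : ∀ (δ b A l : ℝ), Pos δ b A l → DG (b3 k 0 0) (w3 δ b A l) δ ≤ C * (2 * δ) ^ (-(k ^ 2)))
    (hCX : ∀ (δ b A l : ℝ), Pos δ b A l → ∀ u : ℝ, 0 ≤ u → u ≤ k →
      DG (b3 (k - u) u 0) (w3 δ b A l) δ ≤ C * (2 * δ) ^ (-(k ^ 2)) * (2 ^ (2 * u * (k - u)) * (1 + A) ^ (u ^ 2 - 2 * u * k)))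
    (hCR : ∀ (δ b A l : ℝ), Pos δ b A l → 1 ≤ A → A ≤ |l| → |l| ≤ 2 * A →
      DG (b3 k (-1) 1) (w3 δ b A l) δ ≤ C * (2 * δ) ^ (-(k ^ 2)) * (4 * 9 ^ k * (1 + A)))
    {b : ℤ} (hb : |b| ≤ 2 ^ M) {G : Set ℝ} (hGm : MeasurableSet G) (hG : G ⊆ Set.Ioc 0 T ∩ GP δ V M) {s : ℤ} (hs : |s| = 1) :
    ∫⁻ t, ENNReal.ofReal ((∑ l ∈ Finset.Ico 1 (2 ^ (M + 2)), ra δ b s l t ^ (2 * k)) ^ (uk k / (2 * k))) ∂(mu k δ b G) ≤
      ENNReal.ofReal (2 * T * (C * (2 * δ) ^ (-(k ^ 2))) * CB k) := by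
  have hk0 : 0 < k := by linarith
  have hT := c.T0
  have hd := c.d0
  have hb3 : |b| ≤ 2 ^ (M + 3) := hb.trans (pow_le_pow_right₀ (by norm_num) (by omega))
  have hl3 : ∀ l : ℕ, l < 2 ^ (M + 2) → |b + s * l| ≤ 2 ^ (M + 3) := by
    intro l hl
    have h1 : |s * (l : ℤ)| ≤ 2 ^ (M + 2) := by
      rw [abs_mul, hs, one_mul, abs_of_nonneg (Int.natCast_nonneg _)]
      exact_mod_cast hl.le
    have h2 : (2:ℤ) ^ M + 2 ^ (M + 2) ≤ 2 ^ (M + 3) := by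
      have h3 : (0:ℤ) < 2 ^ M := by positivity
      have e1 : (2:ℤ) ^ (M + 2) = 4 * 2 ^ M := by ring
      have e2 : (2:ℤ) ^ (M + 3) = 8 * 2 ^ M := by ring
      rw [e1, e2]
      linarith
    exact (abs_add_le _ _).trans ((add_le_add hb h1).trans h2)
  have hpos : ∀ᵐ t ∂(mu k δ b G), t ∈ G := by
    have h1 : ∀ᵐ t ∂(volume.restrict G), t ∈ G := ae_restrict_mem hGm
    exact (withDensity_absolutelyContinuous _ _).ae_le h1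
  obtain ⟨D, hD⟩ : ∃ D : ℝ, D = 2 * T * (C * (2 * δ) ^ (-(k ^ 2))) := ⟨_, rfl⟩
  have hDn : 0 ≤ D := by rw [hD]; positivity
  rw [← hD]
  refine all_abs hk hDn (M + 2) (ra δ b s) (xa δ b) (ra_meas c b s) (fun i => ?_) (fun l t => ra_nn b s l t) (fun i hi => ?_) ?_ (fun i hi => ?_) (fun i hi l hl => ?_)
  · exact (Z_meas δ (2 ^ i) b).div (Z_meas δ 0 b)
  · filter_upwards [hpos] with t ht
    exact div_pos (Z_pos c (hG ht).2 (two_mem hi hb3)) (Z_pos c (hG ht).2 (zero_mem hb3))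
  · rw [hD]
    exact mass_up c hk0 hkK hC0 hb3 hGm hG
  · rw [hD]
    exact sideX c hk hkK hCX hb3 hGm hG hi
  · rw [Finset.mem_Ico] at hl
    have hl2 : l < 2 ^ (M + 2) := lt_of_lt_of_le hl.2 (Nat.pow_le_pow_right (by norm_num) (by omega))
    rw [hD]
    exact sideR c hk hkK hCR hb3 hGm hG hs hi hl.1 hl.2 (hl3 l hl2)

end

end

end Pool.Agent.X111.MS
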