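import Pool.Agent.X111.MS.Jm2
import Pool.Agent.X111.MS.Abs

set_option autoImplicit false
set_option linter.unusedSectionVars false

/-! Points near the line: the good set and the integrals. -/

namespace Pool.Agent.X111.MS

open Finset MeasureTheory Filter Topology
open Pool.Agent.X110.RR (GS Zf GS_meas Zf_meas Zf_le cze)
open Pool.Agent.Y746.OA (sp)

noncomputable section

/-- the absolute values of zeta -/
def Z (δ a b t : ℝ) : ℝ := ‖riemannZeta (sp δ t + pw δ a b)‖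

lemma Z_nn (δ a b t : ℝ) : 0 ≤ Z δ a b t := norm_nonneg _

lemma Z_cont {δ a b : ℝ} (h : δ + δ * a ≤ 1 / 16) : Continuous (Z δ a b) := by
  unfold Z
  exact (cze (δ := δ) (w := pw δ a b) (by rw [pw_re]; exact h)).norm

/-- the points -/
def Pts (M : ℕ) : Finset (ℝ × ℝ) :=
  (insert 0 ((range (M + 2)).image fun i : ℕ => (2:ℝ) ^ i)) ×ˢ ((Finset.Icc (-(2 ^ (M + 3) : ℤ)) (2 ^ (M + 3))).image fun j : ℤ => (j : ℝ))

lemma Pts_card (M : ℕ) : ((Pts M).card : ℝ) ≤ (M + 3) * (2 * 2 ^ (M + 3) + 1) := by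
  have h1 : (Pts M).card ≤ (M + 3) * (2 * 2 ^ (M + 3) + 1) := by
    unfold Pts
    rw [card_product]
    refine Nat.mul_le_mul ?_ ?_
    · refine (card_insert_le _ _).trans ?_
      have := card_image_le (s := range (M + 2)) (f := fun i : ℕ => (2:ℝ) ^ i)
      rw [card_range] at this
      omega
    · refine card_image_le.trans ?_
      rw [Int.card_Icc]
      have h2 : (0:ℤ) ≤ 2 ^ (M + 3) := by positivity
      have h3 : ((2 ^ (M + 3) : ℕ) : ℤ) = 2 ^ (M + 3) := by push_cast; rfl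
      omega
  exact_mod_cast h1

/-- all values at the points lie between `1/V` and `V` -/
def GP (δ V : ℝ) (M : ℕ) : Set ℝ := {t | ∀ p ∈ Pts M, V⁻¹ < Z δ p.1 p.2 t ∧ Z δ p.1 p.2 t < V}

/-- the conditions -/
structure Ctx (K B : ℕ) (T δ V : ℝ) (M : ℕ) : Prop where
  T0 : 0 < T
  L : 24 ≤ Real.log T
  d0 : 0 < δ
  d1 : δ ≤ 1 / 32
  dM : δ * 2 ^ (M + 1) ≤ 1 / 32
  dL : 2 / δ ≤ Real.log T
  V1 : 1 ≤ V
  j : ∀ (w : Fin 3 → ℂ) (β : Fin 3 → ℝ), (∀ j, 0 ≤ (w j).re ∧ δ + (w j).re ≤ 1 / 16 ∧ |(w j).im| ≤ 1) → (∀ j, |β j| ≤ K) →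
    T * DG β w δ / 2 ≤ JI δ V T w β ∧ JI δ V T w β ≤ 2 * T * DG β w δ ∧
    (volume (Set.Ioc 0 T \ GS δ V w)).toReal ≤ T / Real.log T ^ B

lemma mem_Pts {M : ℕ} {p : ℝ × ℝ} (hp : p ∈ Pts M) : (p.1 = 0 ∨ ∃ i < M + 2, p.1 = 2 ^ i) ∧ |p.2| ≤ 2 ^ (M + 3) := by
  unfold Pts at hp
  rw [mem_product, mem_insert, mem_image, mem_image] at hp
  obtain ⟨h1, j, hj, h2⟩ := hp
  refine ⟨?_, ?_⟩
  · rcases h1 with h1 | ⟨i, hi, h1⟩
    · exact Or.inl h1
    · exact Or.inr ⟨i, mem_range.mp hi, h1.symm⟩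
  · rw [Finset.mem_Icc] at hj
    rw [← h2, abs_le]
    constructor
    · exact_mod_cast hj.1
    · exact_mod_cast hj.2

lemma zero_mem {M : ℕ} {b : ℤ} (hb : |b| ≤ 2 ^ (M + 3)) : ((0:ℝ), (b:ℝ)) ∈ Pts M := by
  unfold Pts
  rw [mem_product]
  refine ⟨mem_insert_self _ _, mem_image.mpr ⟨b, ?_, rfl⟩⟩
  rw [Finset.mem_Icc]
  exact abs_le.mp hb

lemma two_mem {M i : ℕ} (hi : i < M + 2) {b : ℤ} (hb : |b| ≤ 2 ^ (M + 3)) : ((2:ℝ) ^ i, (b:ℝ)) ∈ Pts M := by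
  unfold Pts
  rw [mem_product]
  refine ⟨mem_insert_of_mem (mem_image.mpr ⟨i, mem_range.mpr hi, rfl⟩), mem_image.mpr ⟨b, ?_, rfl⟩⟩
  rw [Finset.mem_Icc]
  exact abs_le.mp hb

section

variable {K B : ℕ} {T δ V : ℝ} {M : ℕ}

lemma pt_ok (c : Ctx K B T δ V M) {p : ℝ × ℝ} (hp : p ∈ Pts M) : 0 ≤ (pw δ p.1 p.2).re ∧ δ + (pw δ p.1 p.2).re ≤ 1 / 16 ∧ |(pw δ p.1 p.2).im| ≤ 1 := by
  obtain ⟨h1, h2⟩ := mem_Pts hp
  have hd := c.d0
  rw [pw_re, pw_im]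
  have h3 : 0 ≤ p.1 ∧ p.1 ≤ 2 ^ (M + 1) := by
    rcases h1 with h1 | ⟨i, hi, h1⟩
    · rw [h1]
      exact ⟨le_rfl, by positivity⟩
    · rw [h1]
      exact ⟨by positivity, pow_le_pow_right₀ (by norm_num) (by omega)⟩
  have h4 : δ * p.1 ≤ 1 / 32 := (mul_le_mul_of_nonneg_left h3.2 hd.le).trans c.dM
  refine ⟨mul_nonneg hd.le h3.1, by linarith [c.d1], ?_⟩
  rw [abs_mul, abs_of_pos hd]
  calc δ * |p.2| ≤ δ * 2 ^ (M + 3) := mul_le_mul_of_nonneg_left h2 hd.le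
    _ = 4 * (δ * 2 ^ (M + 1)) := by ring
    _ ≤ 1 := by linarith [c.dM]

lemma GP_meas (c : Ctx K B T δ V M) : MeasurableSet (GP δ V M) := by
  have h1 : GP δ V M = ⋂ p ∈ Pts M, {t | V⁻¹ < Z δ p.1 p.2 t ∧ Z δ p.1 p.2 t < V} := by
    ext t
    simp [GP]
  rw [h1]
  refine Finset.measurableSet_biInter _ fun p hp => ?_
  have hc : Measurable (Z δ p.1 p.2) := (Z_cont (by
    have := (pt_ok c hp).2.1
    rwa [pw_re] at this)).measurable
  exact (measurableSet_lt measurable_const hc).inter (measurableSet_lt hc measurable_const)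

lemma card_L (c : Ctx K B T δ V M) : ((Pts M).card : ℝ) ≤ Real.log T ^ 2 := by
  refine (Pts_card M).trans ?_
  have hL := c.L
  have hd := c.d0
  have h1 : (2:ℝ) ^ (M + 1) ≤ Real.log T / 64 := by
    have h2 := c.dL
    have h3 := c.dM
    rw [div_le_iff₀ hd] at h2
    have h4 : δ * (2:ℝ) ^ (M + 1) ≤ δ * (Real.log T / 64) := by nlinarith
    exact le_of_mul_le_mul_left h4 hd
  have h2 : 2 * (2:ℝ) ^ (M + 3) + 1 ≤ Real.log T := by
    have h3 : (2:ℝ) ^ (M + 3) = 4 * 2 ^ (M + 1) := by ring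
    rw [h3]
    linarith
  have h3 : ((M:ℝ) + 3) ≤ Real.log T := by
    have h4 : (M : ℝ) + 1 ≤ 2 ^ (M + 1) := by
      have := (Nat.lt_two_pow_self (n := M + 1)).le
      exact_mod_cast this
    linarith
  rw [sq]
  exact mul_le_mul h3 h2 (by positivity) (by linarith)

/-- the bad set is small -/
lemma GP_vol (c : Ctx K B T δ V M) : (volume (Set.Ioc 0 T \ GP δ V M)).toReal ≤ Real.log T ^ 2 * (T / Real.log T ^ B) := by
  have hL := c.L
  have hT := c.T0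
  have hsub : Set.Ioc 0 T \ GP δ V M ⊆ ⋃ p ∈ Pts M, (Set.Ioc 0 T \ GS δ V (fun _ : Fin 3 => pw δ p.1 p.2)) := by
    intro t ht
    obtain ⟨h1, h2⟩ := ht
    have h3 : ∃ p ∈ Pts M, ¬ (V⁻¹ < Z δ p.1 p.2 t ∧ Z δ p.1 p.2 t < V) := by
      by_contra hcon
      push Not at hcon
      exact h2 fun p hp => hcon p hp
    obtain ⟨p, hp, h4⟩ := h3
    rw [Set.mem_iUnion₂]
    refine ⟨p, hp, h1, fun h5 => h4 (h5 0)⟩
  have h0 : (0:ℝ) ≤ T / Real.log T ^ B := by positivity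
  have hone : ∀ p ∈ Pts M, volume (Set.Ioc 0 T \ GS δ V (fun _ : Fin 3 => pw δ p.1 p.2)) ≤ ENNReal.ofReal (T / Real.log T ^ B) := by
    intro p hp
    have h1 := (c.j (fun _ : Fin 3 => pw δ p.1 p.2) (fun _ => 0) (fun _ => pt_ok c hp) (fun _ => by rw [abs_zero]; exact Nat.cast_nonneg _)).2.2
    rw [ENNReal.le_ofReal_iff_toReal_le _ h0]
    · exact h1
    · exact (measure_lt_top_of_subset Set.sdiff_subset (by rw [Real.volume_Ioc]; exact ENNReal.ofReal_ne_top)).ne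
  have h1 : volume (Set.Ioc 0 T \ GP δ V M) ≤ ENNReal.ofReal (Real.log T ^ 2 * (T / Real.log T ^ B)) := by
    refine (measure_mono hsub).trans ((measure_biUnion_finset_le _ _).trans ((Finset.sum_le_sum hone).trans ?_))
    rw [sum_const, nsmul_eq_mul, ← ENNReal.ofReal_natCast, ← ENNReal.ofReal_mul (Nat.cast_nonneg _)]
    exact ENNReal.ofReal_le_ofReal (mul_le_mul_of_nonneg_right (card_L c) h0)
  exact ENNReal.toReal_le_of_le_ofReal (by positivity) h1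

/-- the integrand -/
lemma w3_prod (δ b A l x y z t : ℝ) : ∏ j, ‖riemannZeta (sp δ t + w3 δ b A l j)‖ ^ (2 * b3 x y z j) =
    Z δ 0 b t ^ (2 * x) * Z δ A b t ^ (2 * y) * Z δ 0 (b + l) t ^ (2 * z) := by
  rw [Fin.prod_univ_three]
  rfl

lemma JI_int (c : Ctx K B T δ V M) {b A l : ℝ} (hp : Pos δ b A l) {x y z : ℝ} (hx : |x| ≤ K) (hy : |y| ≤ K) (hz : |z| ≤ K) :
    IntegrableOn (fun t => ∏ j, ‖riemannZeta (sp δ t + w3 δ b A l j)‖ ^ (2 * b3 x y z j)) (Set.Ioc 0 T ∩ GS δ V (w3 δ b A l)) := by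
  have hm : Measurable fun t => ∏ j, ‖riemannZeta (sp δ t + w3 δ b A l j)‖ ^ (2 * b3 x y z j) := by
    refine Finset.measurable_fun_prod _ fun j _ => ?_
    exact (cze (w3_ok hp j).2.1).measurable.norm.pow_const _
  have hG : MeasurableSet (Set.Ioc 0 T ∩ GS δ V (w3 δ b A l)) := measurableSet_Ioc.inter (GS_meas fun j => (w3_ok hp j).2.1)
  refine Measure.integrableOn_of_bounded (M := V ^ (3 * K * 3)) ?_ hm.aestronglyMeasurable ?_
  · exact (measure_lt_top_of_subset Set.inter_subset_left (by rw [Real.volume_Ioc]; exact ENNReal.ofReal_ne_top)).ne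
  · filter_upwards [ae_restrict_mem hG] with t ht
    have h1 := Zf_le (w := w3 δ b A l) (r := fun _ => 0) c.V1 (b3_ok hx hy hz) (fun j => by simp) ht.2
    rw [Zf_zero, Complex.norm_real] at h1
    exact h1

/-- integrals over subsets of the good set -/
lemma lint_le (c : Ctx K B T δ V M) {b A l : ℝ} (hp : Pos δ b A l) {x y z : ℝ} (hx : |x| ≤ K) (hy : |y| ≤ K) (hz : |z| ≤ K) {G : Set ℝ}
    (hG : G ⊆ Set.Ioc 0 T ∩ GS δ V (w3 δ b A l)) (hGm : MeasurableSet G) {f : ℝ → ENNReal}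
    (hf : ∀ t ∈ G, f t ≤ ENNReal.ofReal (Z δ 0 b t ^ (2 * x) * Z δ A b t ^ (2 * y) * Z δ 0 (b + l) t ^ (2 * z))) :
    ∫⁻ t in G, f t ≤ ENNReal.ofReal (2 * T * DG (b3 x y z) (w3 δ b A l) δ) := by
  have h1 := (c.j (w3 δ b A l) (b3 x y z) (fun j => w3_ok hp j) (b3_ok hx hy hz)).2.1
  refine le_trans ?_ (ENNReal.ofReal_le_ofReal h1)
  unfold JI
  rw [ofReal_integral_eq_lintegral_ofReal (JI_int c hp hx hy hz) (Eventually.of_forall fun t => Finset.prod_nonneg fun j _ => Real.rpow_nonneg (norm_nonneg _) _)]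
  refine le_trans ?_ (lintegral_mono_set hG)
  refine setLIntegral_mono' hGm fun t ht => ?_
  rw [w3_prod]
  exact hf t ht

end

end

end Pool.Agent.X111.MS
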