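import Pool.Agent.X111.MS.Low

set_option autoImplicit false
set_option linter.unusedSectionVars false

/-! The moments of the maxima over windows near the line: the lower bound. -/

namespace Pool.Agent.X111.MS

open Finset MeasureTheory Filter Topology
open Pool.Agent.Y746.OA (sp)
open Pool.Agent.X111.FZ (sum_sym)

noncomputable section

lemma win_ne (M : ℕ) : (Finset.Icc (-(2 ^ M : ℤ)) (2 ^ M)).Nonempty := ⟨0, by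
  rw [Finset.mem_Icc]
  have : (0:ℤ) ≤ 2 ^ M := by positivity
  constructor <;> linarith⟩

/-- the largest value over a window -/
def MX (k δ : ℝ) (M : ℕ) (t : ℝ) : ℝ := (Finset.Icc (-(2 ^ M : ℤ)) (2 ^ M)).sup' (win_ne M) fun b => Z δ 0 b t ^ (2 * k)

lemma MX_ge {k δ : ℝ} {M : ℕ} {b : ℤ} (hb : b ∈ Finset.Icc (-(2 ^ M : ℤ)) (2 ^ M)) (t : ℝ) : Z δ 0 b t ^ (2 * k) ≤ MX k δ M t := by
  unfold MX
  exact Finset.le_sup' (fun b : ℤ => Z δ 0 b t ^ (2 * k)) hb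

lemma MX_nn (k δ : ℝ) (M : ℕ) (t : ℝ) : 0 ≤ MX k δ M t := by
  obtain ⟨b, hb⟩ := win_ne M
  exact (Real.rpow_nonneg (Z_nn _ _ _ _) _).trans (MX_ge hb t)

/-- the pointwise share bound -/
lemma share_pt {v : ℤ → ℝ} (hv : ∀ j, 0 ≤ v j) (M : ℕ) {b : ℤ} (hb : |b| ≤ 2 ^ M) (hb0 : 0 < v b) :
    v b * (1 / (1 + (∑ l ∈ Finset.Ico (1:ℕ) (2 ^ (M + 2)), v (b + 1 * (l : ℤ)) / v b + ∑ l ∈ Finset.Ico (1:ℕ) (2 ^ (M + 2)), v (b + -1 * (l : ℤ)) / v b))) ≤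
      v b * (v b / ∑ j ∈ Finset.Icc (-(2 ^ M : ℤ)) (2 ^ M), v j) := by
  have hN : (0:ℤ) ≤ 2 ^ M := by positivity
  obtain ⟨n, hn⟩ : ∃ n : ℕ, n + 1 = 2 ^ (M + 2) := ⟨2 ^ (M + 2) - 1, Nat.sub_add_cancel Nat.one_le_two_pow⟩
  have h1 := sum_sym (fun l => v (b + l)) n
  rw [hn] at h1
  have h2 : ∑ j ∈ Finset.Icc (-(2 ^ M : ℤ)) (2 ^ M), v j ≤ ∑ l ∈ Finset.Icc (-(n : ℤ)) n, v (b + l) := by
    have h3 : ∑ l ∈ Finset.Icc (-(n : ℤ)) n, v (b + l) = ∑ j ∈ (Finset.Icc (-(n : ℤ)) n).image (fun l => b + l), v j := by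
      rw [Finset.sum_image]
      intro x _ y _ h
      simpa using h
    rw [h3]
    refine Finset.sum_le_sum_of_subset_of_nonneg ?_ fun j _ _ => hv j
    intro j hj
    rw [Finset.mem_Icc] at hj
    rw [Finset.mem_image]
    refine ⟨j - b, ?_, by ring⟩
    obtain ⟨hb1, hb2⟩ := abs_le.mp hb
    have h4 : (n : ℤ) + 1 = 4 * 2 ^ M := by
      have h5 : ((n + 1 : ℕ) : ℤ) = ((2 ^ (M + 2) : ℕ) : ℤ) := by rw [hn]
      push_cast at h5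
      rw [h5]
      ring
    have h6 : (1:ℤ) ≤ 2 ^ M := one_le_pow₀ (by norm_num)
    rw [Finset.mem_Icc]
    constructor <;> linarith
  rw [h1] at h2
  have hS : 0 < ∑ j ∈ Finset.Icc (-(2 ^ M : ℤ)) (2 ^ M), v j := by
    have h3 : v b ≤ ∑ j ∈ Finset.Icc (-(2 ^ M : ℤ)) (2 ^ M), v j :=
      Finset.single_le_sum (f := v) (fun j _ => hv j) (Finset.mem_Icc.mpr (abs_le.mp hb))
    linarith
  refine mul_le_mul_of_nonneg_left ?_ hb0.le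
  rw [← Finset.sum_div, ← Finset.sum_div]
  have e : (1:ℝ) + ((∑ l ∈ Finset.Ico (1:ℕ) (2 ^ (M + 2)), v (b + 1 * (l : ℤ))) / v b + (∑ l ∈ Finset.Ico (1:ℕ) (2 ^ (M + 2)), v (b + -1 * (l : ℤ))) / v b) =
      (v (b + 0) + (∑ l ∈ Finset.Ico (1:ℕ) (2 ^ (M + 2)), v (b + (l : ℤ)) + ∑ l ∈ Finset.Ico (1:ℕ) (2 ^ (M + 2)), v (b + -(l : ℤ)))) / v b := by
    rw [add_zero, add_div, div_self hb0.ne', add_div]
    simp only [one_mul, neg_mul]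
  rw [e, one_div, inv_div]
  exact div_le_div_of_nonneg_left hb0.le hS h2

/-- all the constants of one order -/
structure Cst (k C : ℝ) : Prop where
  one : 1 ≤ C
  lo : ∀ (δ b A l : ℝ), Pos δ b A l → C⁻¹ * (2 * δ) ^ (-(k ^ 2)) ≤ DG (b3 k 0 0) (w3 δ b A l) δ
  up : ∀ (δ b A l : ℝ), Pos δ b A l → DG (b3 k 0 0) (w3 δ b A l) δ ≤ C * (2 * δ) ^ (-(k ^ 2))
  dbl : ∀ (δ b A l : ℝ), Pos δ b A l → DG (b3 (2 * k) 0 0) (w3 δ b A l) δ ≤ C * (2 * δ) ^ (-(4 * k ^ 2))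
  X : ∀ (δ b A l : ℝ), Pos δ b A l → ∀ u : ℝ, 0 ≤ u → u ≤ k →
      DG (b3 (k - u) u 0) (w3 δ b A l) δ ≤ C * (2 * δ) ^ (-(k ^ 2)) * (2 ^ (2 * u * (k - u)) * (1 + A) ^ (u ^ 2 - 2 * u * k))
  R : ∀ (δ b A l : ℝ), Pos δ b A l → 1 ≤ A → A ≤ |l| → |l| ≤ 2 * A →
      DG (b3 k (-1) 1) (w3 δ b A l) δ ≤ C * (2 * δ) ^ (-(k ^ 2)) * (4 * 9 ^ k * (1 + A))

/-- the constant of the lower bound -/
def cL (k C : ℝ) : ℝ := 1 / (8 * C ^ 2) / (2 * (1 + (4 * CB k / (1 / (8 * C ^ 2))) ^ (1 / (uk k / (2 * k)))))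

lemma cL_pos {k C : ℝ} (hk : 1 < k) (hC : 1 ≤ C) : 0 < cL k C := by
  have := CB_pos hk
  unfold cL
  positivity

section

variable {K B : ℕ} {T δ V : ℝ} {M : ℕ}

/-- one point -/
lemma nl1 (c : Ctx K B T δ V M) {k : ℝ} (hk : 1 < k) (hkK : 2 * k ≤ K) {C : ℝ} (hC : Cst k C)
    {b : ℤ} (hb : |b| ≤ 2 ^ M) {G : Set ℝ} (hGm : MeasurableSet G) (hG : G ⊆ Set.Ioc 0 T ∩ GP δ V M)
    {E : ℕ} (hE : 4 * k ^ 2 + 1 ≤ E) (hvol : (volume (Set.Ioc 0 T \ G)).toReal ≤ T / Real.log T ^ (E + 1)) (hLC : 4 * (2 * C + 1) ≤ Real.log T) :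
    ENNReal.ofReal (cL k C * (2 * T * (C * (2 * δ) ^ (-(k ^ 2))))) ≤
      ∫⁻ t in G, ENNReal.ofReal (Z δ 0 b t ^ (2 * k) * (Z δ 0 b t ^ (2 * k) / ∑ j ∈ Finset.Icc (-(2 ^ M : ℤ)) (2 ^ M), Z δ 0 j t ^ (2 * k))) := by
  have hk0 : 0 < k := by linarith
  have hT := c.T0
  have hd := c.d0
  have hC1 := hC.one
  have hb3 : |b| ≤ 2 ^ (M + 3) := hb.trans (pow_le_pow_right₀ (by norm_num) (by omega))
  have s1 := side c hk hkK hC1 hC.up hC.X hC.R hb hGm hG (s := 1) (by norm_num)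
  have s2 := side c hk hkK hC1 hC.up hC.X hC.R hb hGm hG (s := -1) (by norm_num)
  have m0 := mass_low c hk0 hkK hC1 hC.lo hC.dbl hb3 hGm hG hE hvol hLC
  obtain ⟨D, hD⟩ : ∃ D : ℝ, D = 2 * T * (C * (2 * δ) ^ (-(k ^ 2))) := ⟨_, rfl⟩
  have hD0 : 0 < D := by rw [hD]; positivity
  have e0 : T * (C⁻¹ * (2 * δ) ^ (-(k ^ 2))) / 4 = 1 / (8 * C ^ 2) * D := by
    rw [hD]
    field_simp
    ring
  rw [e0] at m0
  rw [← hD] at s1 s2 ⊢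
  have hq0 : 0 < uk k / (2 * k) := by have := uk_pos hk; positivity
  have hq1 : uk k / (2 * k) ≤ 1 := by
    rw [div_le_one (by positivity)]
    linarith [uk_le k]
  have hPm : ∀ s : ℤ, Measurable fun t => ∑ l ∈ Finset.Ico 1 (2 ^ (M + 2)), ra δ b s l t ^ (2 * k) := fun s =>
    Finset.measurable_fun_sum _ fun l _ => (ra_meas c b s l).pow_const _
  have hP0 : ∀ (s : ℤ) (t : ℝ), 0 ≤ ∑ l ∈ Finset.Ico 1 (2 ^ (M + 2)), ra δ b s l t ^ (2 * k) := fun s t =>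
    Finset.sum_nonneg fun l _ => Real.rpow_nonneg (ra_nn b s l t) _
  have h1 := low_abs hq0 hq1 (c := 1 / (8 * C ^ 2)) (by positivity) (CB_pos hk) hD0 (hPm 1) (hPm (-1)) (hP0 1) (hP0 (-1)) m0 s1 s2
  have hm : Measurable fun t => ENNReal.ofReal (1 / (1 + (∑ l ∈ Finset.Ico 1 (2 ^ (M + 2)), ra δ b 1 l t ^ (2 * k) + ∑ l ∈ Finset.Ico 1 (2 ^ (M + 2)), ra δ b (-1) l t ^ (2 * k)))) :=
    (measurable_const.div (measurable_const.add ((hPm 1).add (hPm (-1))))).ennreal_ofReal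
  rw [mu_lint c b G hm] at h1
  refine le_trans h1 (setLIntegral_mono' hGm fun t ht => ?_)
  have z0 : 0 < Z δ 0 b t := Z_pos c (hG ht).2 (zero_mem hb3)
  rw [← ENNReal.ofReal_mul (Real.rpow_nonneg z0.le _)]
  refine ENNReal.ofReal_le_ofReal ?_
  have h2 := share_pt (v := fun j : ℤ => Z δ 0 j t ^ (2 * k)) (fun j => Real.rpow_nonneg (Z_nn _ _ _ _) _) M hb (Real.rpow_pos_of_pos z0 _)
  refine le_trans (le_of_eq ?_) h2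
  have e1 : ∀ (s : ℤ) (l : ℕ), ra δ b s l t ^ (2 * k) = Z δ 0 ((b + s * l : ℤ) : ℝ) t ^ (2 * k) / Z δ 0 b t ^ (2 * k) := by
    intro s l
    unfold ra
    rw [Real.div_rpow (Z_nn _ _ _ _) z0.le]
  simp only [e1]

/-- the moments of the maxima over windows near the line -/
theorem nl0 (c : Ctx K B T δ V M) {k : ℝ} (hk : 1 < k) (hkK : 2 * k ≤ K) {C : ℝ} (hC : Cst k C)
    {G : Set ℝ} (hGm : MeasurableSet G) (hG : G ⊆ Set.Ioc 0 T ∩ GP δ V M)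
    {E : ℕ} (hE : 4 * k ^ 2 + 1 ≤ E) (hvol : (volume (Set.Ioc 0 T \ G)).toReal ≤ T / Real.log T ^ (E + 1)) (hLC : 4 * (2 * C + 1) ≤ Real.log T) :
    ENNReal.ofReal (2 ^ M * (cL k C * (2 * T * (C * (2 * δ) ^ (-(k ^ 2)))))) ≤ ∫⁻ t in G, ENNReal.ofReal (MX k δ M t) := by
  have hk0 : 0 < k := by linarith
  have hT := c.T0
  have hd := c.d0
  have hC1 := hC.one
  have hc0 := cL_pos hk hC1
  have hvm : ∀ b : ℤ, Measurable fun t => Z δ 0 b t ^ (2 * k) := fun b => (Z_meas δ 0 b).pow_const _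
  have hsm : Measurable fun t => ∑ j ∈ Finset.Icc (-(2 ^ M : ℤ)) (2 ^ M), Z δ 0 j t ^ (2 * k) := Finset.measurable_fun_sum _ fun j _ => hvm j
  have h1 : ∑ b ∈ Finset.Icc (-(2 ^ M : ℤ)) (2 ^ M), ENNReal.ofReal (cL k C * (2 * T * (C * (2 * δ) ^ (-(k ^ 2))))) ≤
      ∑ b ∈ Finset.Icc (-(2 ^ M : ℤ)) (2 ^ M), ∫⁻ t in G, ENNReal.ofReal (Z δ 0 b t ^ (2 * k) * (Z δ 0 b t ^ (2 * k) / ∑ j ∈ Finset.Icc (-(2 ^ M : ℤ)) (2 ^ M), Z δ 0 j t ^ (2 * k))) :=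
    Finset.sum_le_sum fun b hb => nl1 c hk hkK hC (abs_le.mpr (Finset.mem_Icc.mp hb)) hGm hG hE hvol hLC
  have hmm : ∀ b : ℤ, Measurable fun t => ENNReal.ofReal (Z δ 0 b t ^ (2 * k) * (Z δ 0 b t ^ (2 * k) / ∑ j ∈ Finset.Icc (-(2 ^ M : ℤ)) (2 ^ M), Z δ 0 j t ^ (2 * k))) :=
    fun b => ((hvm b).mul ((hvm b).div hsm)).ennreal_ofReal
  rw [← lintegral_finsetSum _ fun b _ => hmm b] at h1
  have h2 : ENNReal.ofReal (2 ^ M * (cL k C * (2 * T * (C * (2 * δ) ^ (-(k ^ 2)))))) ≤ ∑ b ∈ Finset.Icc (-(2 ^ M : ℤ)) (2 ^ M), ENNReal.ofReal (cL k C * (2 * T * (C * (2 * δ) ^ (-(k ^ 2))))) := by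
    rw [Finset.sum_const, nsmul_eq_mul, ← ENNReal.ofReal_natCast, ← ENNReal.ofReal_mul (Nat.cast_nonneg _)]
    refine ENNReal.ofReal_le_ofReal (mul_le_mul_of_nonneg_right ?_ (by positivity))
    rw [Int.card_Icc]
    have h3 : (2 ^ M : ℕ) ≤ (2 ^ M + 1 - -(2 ^ M) : ℤ).toNat := by
      have h4 : (0:ℤ) ≤ 2 ^ M := by positivity
      have h5 : ((2 ^ M : ℕ) : ℤ) = 2 ^ M := by push_cast; rfl
      omega
    exact_mod_cast h3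
  refine h2.trans (h1.trans (setLIntegral_mono' hGm fun t ht => ?_))
  have hnn : ∀ b : ℤ, 0 ≤ Z δ 0 b t ^ (2 * k) := fun b => Real.rpow_nonneg (Z_nn _ _ _ _) _
  have hS0 : 0 ≤ ∑ j ∈ Finset.Icc (-(2 ^ M : ℤ)) (2 ^ M), Z δ 0 j t ^ (2 * k) := Finset.sum_nonneg fun j _ => hnn j
  rw [← ENNReal.ofReal_sum_of_nonneg fun b _ => mul_nonneg (hnn b) (div_nonneg (hnn b) hS0)]
  refine ENNReal.ofReal_le_ofReal ?_
  calc ∑ b ∈ Finset.Icc (-(2 ^ M : ℤ)) (2 ^ M), Z δ 0 b t ^ (2 * k) * (Z δ 0 b t ^ (2 * k) / ∑ j ∈ Finset.Icc (-(2 ^ M : ℤ)) (2 ^ M), Z δ 0 j t ^ (2 * k)) ≤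
      ∑ b ∈ Finset.Icc (-(2 ^ M : ℤ)) (2 ^ M), MX k δ M t * (Z δ 0 b t ^ (2 * k) / ∑ j ∈ Finset.Icc (-(2 ^ M : ℤ)) (2 ^ M), Z δ 0 j t ^ (2 * k)) :=
        Finset.sum_le_sum fun b hb => mul_le_mul_of_nonneg_right (MX_ge hb t) (div_nonneg (hnn b) hS0)
    _ = MX k δ M t * ((∑ b ∈ Finset.Icc (-(2 ^ M : ℤ)) (2 ^ M), Z δ 0 b t ^ (2 * k)) / ∑ j ∈ Finset.Icc (-(2 ^ M : ℤ)) (2 ^ M), Z δ 0 j t ^ (2 * k)) := by
        rw [← Finset.mul_sum, ← Finset.sum_div]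
    _ ≤ MX k δ M t * 1 := mul_le_mul_of_nonneg_left (div_self_le_one _) (MX_nn _ _ _ _)
    _ = _ := mul_one _

end

end

end Pool.Agent.X111.MS
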