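import Pool.Agent.X111.MS.Nl0

set_option autoImplicit false
set_option linter.unusedSectionVars false

/-! The moments of the maxima over windows near the line: the theorem. -/

namespace Pool.Agent.X111.MS

open Finset MeasureTheory Filter Topology
open Pool.Agent.Y746.OA (sp)

noncomputable section

lemma Cst_ex {k : ℝ} (hk : 0 < k) : ∃ C : ℝ, Cst k C := by
  obtain ⟨K, hK⟩ : ∃ K : ℕ, 2 * k + 1 ≤ K := exists_nat_ge _
  have hK1 : 1 ≤ K := by
    have : (1:ℝ) ≤ K := by linarith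
    exact_mod_cast this
  obtain ⟨C, hC1, h⟩ := DG_bd hk hK1 (by linarith)
  exact ⟨C, hC1, fun δ b A l hp => (h δ b A l hp).1.1, fun δ b A l hp => (h δ b A l hp).1.2, fun δ b A l hp => (h δ b A l hp).2.1,
    fun δ b A l hp => (h δ b A l hp).2.2.1, fun δ b A l hp => (h δ b A l hp).2.2.2⟩

/-- the moments of the maxima over windows near the line, away from a small set -/
theorem nl {k : ℝ} (hk : 1 < k) : ∃ (E : ℕ) (c C T0 : ℝ), 0 < c ∧ 0 < C ∧ ∀ T : ℝ, T0 ≤ T → 4 ≤ T ∧ 24 ≤ Real.log T ∧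
    ∀ δ : ℝ, C * Real.log (Real.log T) / Real.log T ≤ δ → δ ≤ 1 / 32 → 0 < δ ∧ 2 / δ ≤ Real.log T ∧
    ∀ M : ℕ, δ * 2 ^ (M + 1) ≤ 1 / 32 → ∀ R : Set ℝ, MeasurableSet R → (volume (Set.Ioc 0 T ∩ R)).toReal ≤ T / Real.log T ^ (E + 2) →
    ENNReal.ofReal (c * 2 ^ M * δ ^ (-(k ^ 2)) * T) ≤ ∫⁻ t in Set.Ioc 0 T \ R, ENNReal.ofReal (MX k δ M t) := by
  have hk0 : 0 < k := by linarith
  obtain ⟨C0, hC0⟩ := Cst_ex hk0
  have hC01 := hC0.one
  obtain ⟨K, hK⟩ : ∃ K : ℕ, 2 * k ≤ K := exists_nat_ge _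
  obtain ⟨E, hE⟩ : ∃ E : ℕ, 4 * k ^ 2 + 1 ≤ E := exists_nat_ge _
  obtain ⟨c0, hc0, h⟩ := jm 3 K
  obtain ⟨A, C1, T1, hC1, h2⟩ := h (E + 4)
  have hcL := cL_pos hk hC01
  refine ⟨E, cL k C0 * (2 * C0 * 2 ^ (-(k ^ 2))), max C1 (A / c0), max T1 (Real.exp (max 24 (4 * (2 * C0 + 1)))), by positivity,
    lt_max_of_lt_left hC1, fun T hT => ?_⟩
  have hT1 : T1 ≤ T := (le_max_left _ _).trans hT
  have hTe : Real.exp (max 24 (4 * (2 * C0 + 1))) ≤ T := (le_max_right _ _).trans hT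
  have hTp : 0 < T := lt_of_lt_of_le (Real.exp_pos _) hTe
  have hLm : max 24 (4 * (2 * C0 + 1)) ≤ Real.log T := by
    have := Real.log_le_log (Real.exp_pos _) hTe
    rwa [Real.log_exp] at this
  have hL : 24 ≤ Real.log T := (le_max_left _ _).trans hLm
  have hLC : 4 * (2 * C0 + 1) ≤ Real.log T := (le_max_right _ _).trans hLm
  have hT4 : 4 ≤ T := by
    have h3 := Real.add_one_le_exp (24:ℝ)
    have h4 : Real.exp 24 ≤ T := (Real.exp_le_exp.mpr (le_max_left _ _)).trans hTe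
    linarith
  refine ⟨hT4, hL, fun δ hδ hδ1 => ?_⟩
  have hll : 0 < Real.log (Real.log T) := Real.log_pos (by linarith)
  have hq : ∀ x : ℝ, x ≤ max C1 (A / c0) → x * Real.log (Real.log T) / Real.log T ≤ δ := fun x hx =>
    (div_le_div_of_nonneg_right (mul_le_mul_of_nonneg_right hx hll.le) (by linarith)).trans hδ
  obtain ⟨_, _, hδ0, h2δ, h3⟩ := h2 T hT1 δ (hq _ (le_max_left _ _)) (by linarith)
  refine ⟨hδ0, h2δ, fun M hM R hRm hR => ?_⟩
  obtain ⟨V, hV⟩ : ∃ V : ℝ, V = Real.log T ^ A := ⟨_, rfl⟩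
  have hV1 : 1 ≤ V := by rw [hV]; exact one_le_pow₀ (by linarith)
  have hVT : V ≤ T ^ (c0 * δ) := by
    have h4 := hq _ (le_max_right _ _)
    rw [div_le_iff₀ (by linarith)] at h4
    have h5 : (A:ℝ) * Real.log (Real.log T) ≤ c0 * δ * Real.log T := by
      have h6 : c0 * (A / c0 * Real.log (Real.log T)) ≤ c0 * (δ * Real.log T) := mul_le_mul_of_nonneg_left h4 hc0.le
      have h7 : c0 * (A / c0 * Real.log (Real.log T)) = A * Real.log (Real.log T) := by field_simp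
      linarith
    rw [hV, Real.rpow_def_of_pos hTp, ← Real.exp_log (show 0 < Real.log T ^ A by positivity), Real.log_pow]
    refine Real.exp_le_exp.mpr ?_
    rw [mul_comm (Real.log T)]
    exact h5
  have ctx : Ctx K (E + 4) T δ V M := ⟨hTp, hL, hδ0, hδ1, hM, h2δ, hV1, h3 V hV.ge hVT⟩
  have hGPm := GP_meas ctx
  have hGPv := GP_vol ctx
  obtain ⟨G, hG⟩ : ∃ G : Set ℝ, G = (Set.Ioc 0 T ∩ GP δ V M) \ R := ⟨_, rfl⟩
  have hGm : MeasurableSet G := by rw [hG]; exact (measurableSet_Ioc.inter hGPm).diff hRm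
  have hGs : G ⊆ Set.Ioc 0 T ∩ GP δ V M := by rw [hG]; exact Set.sdiff_subset
  have hfin : ∀ S : Set ℝ, S ⊆ Set.Ioc 0 T → volume S ≠ ⊤ := fun S hS =>
    (measure_lt_top_of_subset hS (by rw [Real.volume_Ioc]; exact ENNReal.ofReal_ne_top)).ne
  have hvol : (volume (Set.Ioc 0 T \ G)).toReal ≤ T / Real.log T ^ (E + 1) := by
    have h4 : Set.Ioc 0 T \ G ⊆ (Set.Ioc 0 T \ GP δ V M) ∪ (Set.Ioc 0 T ∩ R) := by
      intro t ht
      rw [hG] at ht
      obtain ⟨h5, h6⟩ := ht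
      by_cases h7 : t ∈ GP δ V M
      · right
        refine ⟨h5, ?_⟩
        by_contra h8
        exact h6 ⟨⟨h5, h7⟩, h8⟩
      · left
        exact ⟨h5, h7⟩
    have h5 : (volume (Set.Ioc 0 T \ G)).toReal ≤ (volume (Set.Ioc 0 T \ GP δ V M)).toReal + (volume (Set.Ioc 0 T ∩ R)).toReal := by
      rw [← ENNReal.toReal_add (hfin _ Set.sdiff_subset) (hfin _ Set.inter_subset_left)]
      exact ENNReal.toReal_mono (ENNReal.add_ne_top.mpr ⟨hfin _ Set.sdiff_subset, hfin _ Set.inter_subset_left⟩)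
        ((measure_mono h4).trans (measure_union_le _ _))
    refine h5.trans ((add_le_add hGPv hR).trans ?_)
    have hLp : 0 < Real.log T := by linarith
    have e1 : Real.log T ^ 2 * (T / Real.log T ^ (E + 4)) = T / Real.log T ^ (E + 2) := by
      have e0 : Real.log T ^ (E + 4) = Real.log T ^ 2 * Real.log T ^ (E + 2) := by ring
      rw [e0]
      field_simp
    have e2 : T / Real.log T ^ (E + 1) = T / Real.log T ^ (E + 2) * Real.log T := by
      rw [pow_succ (Real.log T) (E + 1)]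
      field_simp
    rw [e1, e2]
    have h6 : 0 ≤ T / Real.log T ^ (E + 2) := by positivity
    nlinarith
  have h4 := nl0 ctx hk hK hC0 hGm hGs hE hvol hLC
  have h5 : cL k C0 * (2 * C0 * 2 ^ (-(k ^ 2))) * 2 ^ M * δ ^ (-(k ^ 2)) * T = 2 ^ M * (cL k C0 * (2 * T * (C0 * (2 * δ) ^ (-(k ^ 2))))) := by
    rw [Real.mul_rpow (by norm_num) hδ0.le]
    ring
  rw [h5]
  refine h4.trans (lintegral_mono_set ?_)
  rw [hG]
  exact fun t ht => ⟨ht.1.1, ht.2⟩

end

end Pool.Agent.X111.MS
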