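import Pool.Agent.X111.MS.Nl2
import Pool.Agent.W184.Half
import Pool.Agent.W184.Avg
import Pool.Agent.W184.Zn
import Pool.Agent.Y755.Hp4

set_option autoImplicit false
set_option linter.unusedSectionVars false

/-! From the lines near the critical line to the critical line: maxima over windows. -/

namespace Pool.Agent.X111.MS

open Finset MeasureTheory Filter Topology
open Pool.Agent.Y746.OA (sp)
open Pool.Agent.W184 (zn zn_nonneg zn_cont zn_le' KP KP_cont KP_nonneg KP_le KP_int)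

noncomputable section

/-- the local maximum of zeta over a window of the critical line -/
def WM (H t : ℝ) : ℝ := sSup ((fun h : ℝ => zn (1 / 2) (t + h)) '' Set.Icc (-H) H)

lemma zh_cont : Continuous (zn (1 / 2)) := zn_cont (by norm_num)

lemma WM_cont (H : ℝ) : Continuous (WM H) := by
  unfold WM
  refine IsCompact.continuous_sSup (f := fun t h : ℝ => zn (1 / 2) (t + h)) isCompact_Icc ?_
  have h1 := zh_cont
  exact h1.comp (continuous_fst.add continuous_snd)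

lemma WM_bdd (H t : ℝ) : BddAbove ((fun h : ℝ => zn (1 / 2) (t + h)) '' Set.Icc (-H) H) :=
  (isCompact_Icc.image (zh_cont.comp (continuous_const.add continuous_id))).bddAbove

lemma WM_ge {H h : ℝ} (hh : |h| ≤ H) (t : ℝ) : zn (1 / 2) (t + h) ≤ WM H t :=
  le_csSup (WM_bdd H t) ⟨h, abs_le.mp hh, rfl⟩

lemma WM_nn {H : ℝ} (hH : 0 ≤ H) (t : ℝ) : 0 ≤ WM H t :=
  (zn_nonneg _ _).trans (WM_ge (h := 0) (by rwa [abs_zero]) t)

lemma WM_le {H t B : ℝ} (hH : 0 ≤ H) (hB : ∀ h, |h| ≤ H → zn (1 / 2) (t + h) ≤ B) : WM H t ≤ B := by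
  refine csSup_le ⟨_, 0, ⟨by linarith, hH⟩, rfl⟩ ?_
  rintro x ⟨h, hh, rfl⟩
  exact hB h (abs_le.mpr hh)

lemma WM_mono {H H' : ℝ} (hH : 0 ≤ H) (h : H ≤ H') (t : ℝ) : WM H t ≤ WM H' t :=
  WM_le hH fun _ hx => WM_ge (hx.trans h) t

lemma WM_pol {H t : ℝ} (hH : 0 ≤ H) (hH1 : H ≤ 1) : WM H t ≤ 24 * (1 + |t|) := by
  refine WM_le hH fun h hh => (zn_le' (by norm_num) (by norm_num)).trans ?_
  have h1 := abs_add_le t h
  have h2 := abs_nonneg t
  linarith

lemma zeta_two {s : ℂ} (hs : 2 ≤ s.re) : ‖riemannZeta s‖ ≤ 2 := by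
  rw [zeta_eq_tsum_one_div_nat_add_one_cpow (by linarith)]
  have hterm : ∀ n : ℕ, ‖1 / ((n : ℂ) + 1) ^ s‖ ≤ 1 / ((n : ℝ) + 1) ^ 2 := by
    intro n
    have h1 : ((n : ℂ) + 1) = (((n : ℝ) + 1 : ℝ) : ℂ) := by push_cast; ring
    rw [norm_div, norm_one, h1, Complex.norm_cpow_eq_rpow_re_of_pos (by positivity)]
    apply one_div_le_one_div_of_le (by positivity)
    rw [← Real.rpow_natCast]
    apply Real.rpow_le_rpow_of_exponent_le _ (by exact_mod_cast hs)
    have : (0 : ℝ) ≤ n := Nat.cast_nonneg n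
    linarith
  have hs2 : Summable (fun n : ℕ => 1 / ((n : ℝ) + 1) ^ 2) := by
    have h := (summable_nat_add_iff 1).2 hasSum_zeta_two.summable
    refine h.congr fun n => ?_
    push_cast
    rfl
  have hz : ∑' n : ℕ, 1 / ((n : ℝ) + 1) ^ 2 = Real.pi ^ 2 / 6 := by
    have h1 := hasSum_zeta_two
    have h2 := h1.summable.tsum_eq_zero_add
    rw [h1.tsum_eq] at h2
    simp only [Nat.cast_zero, ne_eq, OfNat.ofNat_ne_zero, not_false_eq_true, zero_pow, div_zero,
      zero_add, Nat.cast_add, Nat.cast_one] at h2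
    exact h2.symm
  refine (tsum_of_norm_bounded hs2.hasSum hterm).trans ?_
  rw [hz]
  have hpi := Real.pi_lt_d2
  have hpi0 := Real.pi_pos
  nlinarith

/-- the half-plane inequality -/
lemma hp_one {p δ : ℝ} {m : ℕ} (hp : 0 < p) (hm : 1 ≤ m) (h0 : 0 < δ) (h1 : δ ≤ 1 / 8) (t : ℝ) :
    ((1 - 8 * δ) / (1 + δ) ^ (2 * m)) ^ p * zn (1 / 2 + δ) t ^ p ≤ ∫ w : ℝ, (KP δ w * (1 + w ^ 2) ^ (-(m * p))) * zn (1 / 2) (t + w) ^ p := by
  have h := Pool.Agent.W184.half_pt (Q := fun _ => 0) (N := 1) (C1 := 0) (C2 := 2) (p := p) (Δ := δ) (t := t) (M := m) hp le_rfl hm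
    (differentiable_const _) (fun z _ _ => by simp) (fun z hz => by
      rw [sub_zero, Real.one_rpow, mul_one]
      exact zeta_two hz) h0 h1
  simp only [sub_zero, Real.one_rpow, mul_one] at h
  exact h

end

end Pool.Agent.X111.MS
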