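import Pool.Agent.X111.MS.On

set_option autoImplicit false
set_option linter.unusedSectionVars false

/-! From the lines near the critical line to the critical line: the means. -/

namespace Pool.Agent.X111.MS

open Finset MeasureTheory Filter Topology
open Pool.Agent.Y746.OA (sp)
open Pool.Agent.W184 (zn zn_nonneg zn_cont zn_le' KP KP_cont KP_nonneg KP_le KP_int)

noncomputable section

lemma Z_zn (δ b t : ℝ) : Z δ 0 b t = zn (1 / 2 + δ) (t + δ * b) := by
  unfold Z zn
  congr 2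
  unfold sp pw
  push_cast
  ring

lemma MX_cont {k δ : ℝ} (hk : 0 < k) (hδ : δ ≤ 1 / 32) (M : ℕ) : Continuous (MX k δ M) := by
  unfold MX
  refine Continuous.finset_sup'_apply _ fun b _ => ?_
  refine Continuous.rpow_const ?_ fun t => Or.inr (by linarith)
  have h1 : Z δ 0 (b : ℝ) = fun t => zn (1 / 2 + δ) (t + δ * b) := funext fun t => Z_zn δ b t
  rw [h1]
  exact (zn_cont (by linarith)).comp (continuous_id.add continuous_const)

/-- the transfer of the means -/
theorem tr {k : ℝ} (hk : 0 < k) : ∃ c1 C1 : ℝ, 0 < c1 ∧ 0 < C1 ∧ ∀ (T δ : ℝ) (M : ℕ), 16 ≤ T → 0 < δ → δ ≤ 1 / 32 → δ * 2 ^ M ≤ 1 →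
    c1 * ∫ t in (T ^ (1 / 4 : ℝ))..(T - T ^ (1 / 4 : ℝ)), MX k δ M t ≤ (∫ t in (0:ℝ)..T, WM (δ * 2 ^ M) t ^ (2 * k)) + C1 := by
  obtain ⟨p, hp⟩ : ∃ p : ℝ, p = 2 * k := ⟨_, rfl⟩
  have hp0 : 0 < p := by rw [hp]; linarith
  obtain ⟨m, hm⟩ : ∃ m : ℕ, (3 * p + 2) / p ≤ m := exists_nat_ge _
  have he : 3 * p + 2 ≤ m * p := by
    rwa [div_le_iff₀ hp0] at hm
  have hm1 : 1 ≤ m := by
    by_contra hcon
    have : m = 0 := by omega
    rw [this] at he
    push_cast at he
    linarith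
  obtain ⟨e, hee⟩ : ∃ e : ℝ, e = m * p := ⟨_, rfl⟩
  rw [← hee] at he
  refine ⟨(3 / 4 / 2 ^ (2 * m)) ^ p, 96 ^ p, by positivity, by positivity, fun T δ M hT h0 h1 hM => ?_⟩
  have hT0 : 0 < T := by linarith
  obtain ⟨U, hU⟩ : ∃ U : ℝ, U = T ^ (1 / 4 : ℝ) := ⟨_, rfl⟩
  have hU2 : 2 ≤ U := by
    have h2 : (16:ℝ) ^ (1 / 4 : ℝ) ≤ T ^ (1 / 4 : ℝ) := Real.rpow_le_rpow (by norm_num) hT (by norm_num)
    have h3 : (16:ℝ) ^ (1 / 4 : ℝ) = 2 := by
      rw [show (16:ℝ) = 2 ^ (4:ℝ) by norm_num, ← Real.rpow_mul (by norm_num)]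
      norm_num
    rw [hU]
    linarith
  have hU4 : U ^ 4 = T := by
    rw [hU, ← Real.rpow_natCast, ← Real.rpow_mul hT0.le]
    norm_num
  have hUT : 2 * U ≤ T := by
    rw [← hU4]
    have : U ^ 4 = U * (U * U * U) := by ring
    rw [this]
    nlinarith [mul_le_mul hU2 hU2 (by norm_num) (by linarith), mul_pos (show 0 < U by linarith) (show 0 < U by linarith)]
  rw [← hU, ← hp]
  obtain ⟨H, hH⟩ : ∃ H : ℝ, H = δ * 2 ^ M := ⟨_, rfl⟩
  have hH0 : 0 ≤ H := by rw [hH]; positivity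
  rw [← hH] at hM ⊢
  obtain ⟨K, hK⟩ : ∃ K : ℝ → ℝ, K = fun w => KP δ w * (1 + w ^ 2) ^ (-e) := ⟨_, rfl⟩
  have hb : ∀ w : ℝ, 1 ≤ 1 + w ^ 2 := fun w => by nlinarith [sq_nonneg w]
  have hKc : Continuous K := by
    rw [hK]
    refine (KP_cont h0).mul (Continuous.rpow_const (by fun_prop) fun w => Or.inl ?_)
    have := hb w
    positivity
  have hK0 : ∀ w, 0 ≤ K w := fun w => by
    rw [hK]
    exact mul_nonneg (KP_nonneg h0 w) (Real.rpow_nonneg (by linarith [hb w]) _)
  obtain ⟨kp1, kp2⟩ := KP_int h0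
  have hKle : ∀ w, K w ≤ KP δ w := fun w => by
    rw [hK]
    exact mul_le_of_le_one_right (KP_nonneg h0 w) (Real.rpow_le_one_of_one_le_of_nonpos (hb w) (by linarith))
  have hKi : Integrable K := kp1.mono' hKc.aestronglyMeasurable (Eventually.of_forall fun w => by
    rw [Real.norm_of_nonneg (hK0 w)]
    exact hKle w)
  have hKm : ∫ w, K w ≤ 1 := by
    rw [← kp2]
    exact integral_mono hKi kp1 hKle
  have hφe : ∀ w, K w * (1 + w ^ 2) ^ p = KP δ w * (1 + w ^ 2) ^ (p - e) := fun w => by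
    rw [hK]
    simp only
    rw [mul_assoc, ← Real.rpow_add (by linarith [hb w])]
    congr 2
    ring
  have hφle : ∀ w, K w * (1 + w ^ 2) ^ p ≤ KP δ w := fun w => by
    rw [hφe]
    exact mul_le_of_le_one_right (KP_nonneg h0 w) (Real.rpow_le_one_of_one_le_of_nonpos (hb w) (by linarith))
  have hφc : Continuous fun w => K w * (1 + w ^ 2) ^ p := hKc.mul (Continuous.rpow_const (by fun_prop) fun w => Or.inr hp0.le)
  have hφi : Integrable fun w => K w * (1 + w ^ 2) ^ p := kp1.mono' hφc.aestronglyMeasurable (Eventually.of_forall fun w => by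
    rw [Real.norm_of_nonneg (mul_nonneg (hK0 w) (Real.rpow_nonneg (by linarith [hb w]) _))]
    exact hφle w)
  have htail : ∫ w in {w : ℝ | U < |w|}, K w * (1 + w ^ 2) ^ p ≤ (U ^ 2) ^ (p - e) := by
    have hms : MeasurableSet {w : ℝ | U < |w|} := measurableSet_lt measurable_const measurable_abs
    calc ∫ w in {w : ℝ | U < |w|}, K w * (1 + w ^ 2) ^ p ≤ ∫ w in {w : ℝ | U < |w|}, KP δ w * (U ^ 2) ^ (p - e) := by
          refine setIntegral_mono_on hφi.integrableOn (kp1.mul_const _).integrableOn hms fun w hw => ?_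
          have hw' : U < |w| := hw
          rw [hφe]
          refine mul_le_mul_of_nonneg_left ?_ (KP_nonneg h0 w)
          refine Real.rpow_le_rpow_of_nonpos (by positivity) ?_ (by linarith)
          rw [← sq_abs w]
          nlinarith
      _ ≤ ∫ w, KP δ w * (U ^ 2) ^ (p - e) := by
          refine setIntegral_le_integral (kp1.mul_const _) (Eventually.of_forall fun w => ?_)
          exact mul_nonneg (KP_nonneg h0 w) (by positivity)
      _ = _ := by rw [integral_mul_const, kp2, one_mul]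
  have hWc := WM_cont H
  have hGc : Continuous fun x => WM H x ^ p := hWc.rpow_const fun _ => Or.inr hp0.le
  have hG0 : ∀ x, 0 ≤ WM H x ^ p := fun x => Real.rpow_nonneg (WM_nn hH0 x) _
  have hGB : ∀ t ∈ Set.Icc U (T - U), ∀ w, WM H (t + w) ^ p ≤ (48 * (1 + T)) ^ p * (1 + w ^ 2) ^ p := by
    intro t ht w
    rw [← Real.mul_rpow (by linarith) (by linarith [hb w])]
    refine Real.rpow_le_rpow (WM_nn hH0 _) ?_ hp0.le
    refine (WM_pol hH0 hM).trans ?_
    have h2 : |t + w| ≤ T + |w| := by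
      refine (abs_add_le _ _).trans ?_
      rw [abs_of_nonneg (by linarith [ht.1] : (0:ℝ) ≤ t)]
      linarith [ht.2]
    have h3 := Pool.Agent.W184.one_add_abs_le w
    have h4 := abs_nonneg w
    nlinarith
  obtain ⟨F, hF⟩ : ∃ F : ℝ, F = (3 / 4 / 2 ^ (2 * m)) ^ p := ⟨_, rfl⟩
  have hF0 : 0 ≤ F := by rw [hF]; positivity
  rw [← hF]
  have hFle : F ≤ ((1 - 8 * δ) / (1 + δ) ^ (2 * m)) ^ p := by
    rw [hF]
    refine Real.rpow_le_rpow (by positivity) ?_ hp0.le
    have h3 : (1 + δ) ^ (2 * m) ≤ 2 ^ (2 * m) := pow_le_pow_left₀ (by linarith) (by linarith) _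
    exact div_le_div₀ (by linarith) (by linarith) (by positivity) h3
  have hpt : ∀ t ∈ Set.Icc U (T - U), F * MX k δ M t ≤ ∫ w, K w * WM H (t + w) ^ p := by
    intro t ht
    have hint : Integrable fun w => K w * WM H (t + w) ^ p := by
      refine (hφi.const_mul ((48 * (1 + T)) ^ p)).mono' ?_ (Eventually.of_forall fun w => ?_)
      · exact (hKc.mul (hGc.comp (continuous_const.add continuous_id))).aestronglyMeasurable
      · rw [Real.norm_of_nonneg (mul_nonneg (hK0 w) (hG0 _))]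
        calc K w * WM H (t + w) ^ p ≤ K w * ((48 * (1 + T)) ^ p * (1 + w ^ 2) ^ p) := mul_le_mul_of_nonneg_left (hGB t ht w) (hK0 w)
          _ = _ := by ring
    obtain ⟨b, hb1, hb2⟩ := Finset.exists_mem_eq_sup' (win_ne M) fun b : ℤ => Z δ 0 b t ^ (2 * k)
    have e1 : MX k δ M t = zn (1 / 2 + δ) (t + δ * b) ^ p := by
      unfold MX
      rw [hb2, Z_zn, hp]
    have hbH : |δ * (b:ℝ)| ≤ H := by
      rw [abs_mul, abs_of_pos h0, hH]
      refine mul_le_mul_of_nonneg_left ?_ h0.le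
      have := abs_le.mpr (Finset.mem_Icc.mp hb1)
      exact_mod_cast this
    have h2 := hp_one hp0 hm1 h0 (by linarith) (t + δ * b)
    rw [← hee] at h2
    rw [e1]
    refine (mul_le_mul_of_nonneg_right hFle (Real.rpow_nonneg (zn_nonneg _ _) _)).trans (h2.trans ?_)
    refine integral_mono_of_nonneg (Eventually.of_forall fun w => ?_) hint (Eventually.of_forall fun w => ?_)
    · exact mul_nonneg (mul_nonneg (KP_nonneg h0 w) (Real.rpow_nonneg (by linarith [hb w]) _)) (Real.rpow_nonneg (zn_nonneg _ _) _)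
    · rw [hK]
      refine mul_le_mul_of_nonneg_left ?_ (mul_nonneg (KP_nonneg h0 w) (Real.rpow_nonneg (by linarith [hb w]) _))
      refine Real.rpow_le_rpow (zn_nonneg _ _) ?_ hp0.le
      have h3 : t + δ * b + w = t + w + δ * b := by ring
      rw [h3]
      exact WM_ge hbH _
  have hmain := Pool.Agent.Y755.avg_leG (K := K) (G := fun x => WM H x ^ p) (H := fun t => F * MX k δ M t) (φ := fun w => (1 + w ^ 2) ^ p)
    (a := U) (b := T - U) (U := U) (D := (48 * (1 + T)) ^ p) (by linarith) (by linarith) hKc hK0 hφi hKi hGc hG0 hGB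
    (continuous_const.mul (MX_cont hk h1 M)) hpt
  rw [intervalIntegral.integral_const_mul, sub_self, sub_add_cancel] at hmain
  have hI0 : 0 ≤ ∫ t in (0:ℝ)..T, WM H t ^ p := intervalIntegral.integral_nonneg hT0.le fun x _ => hG0 x
  refine hmain.trans (add_le_add (mul_le_of_le_one_left hI0 hKm) ?_)
  calc (T - U - U) * (48 * (1 + T)) ^ p * ∫ w in {w : ℝ | U < |w|}, K w * (1 + w ^ 2) ^ p ≤
      T * (96 * T) ^ p * (U ^ 2) ^ (p - e) := by
        refine mul_le_mul ?_ htail ?_ (by positivity)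
        · refine mul_le_mul (by linarith) (Real.rpow_le_rpow (by linarith) (by linarith) hp0.le) (by positivity) hT0.le
        · exact integral_nonneg fun w => mul_nonneg (hK0 w) (Real.rpow_nonneg (by linarith [hb w]) _)
    _ ≤ 96 ^ p := by
        have e2 : U ^ 2 = T ^ (1 / 2 : ℝ) := by
          rw [hU, ← Real.rpow_natCast, ← Real.rpow_mul hT0.le]
          norm_num
        rw [e2, ← Real.rpow_mul hT0.le, Real.mul_rpow (by norm_num) hT0.le]
        have e3 : T * (96 ^ p * T ^ p) * T ^ (1 / 2 * (p - e)) = 96 ^ p * T ^ (1 + p + 1 / 2 * (p - e)) := by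
          rw [Real.rpow_add hT0, Real.rpow_add hT0, Real.rpow_one]
          ring
        rw [e3]
        refine mul_le_of_le_one_right (by positivity) ?_
        exact Real.rpow_le_one_of_one_le_of_nonpos (by linarith) (by linarith)

end

end Pool.Agent.X111.MS
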