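import Pool.Agent.X111.MS.Nl

set_option autoImplicit false
set_option linter.unusedSectionVars false

/-! The share of one point in the moment over the neighbouring points, all scales. -/

namespace Pool.Agent.X111.MS

open Finset MeasureTheory Filter Topology
open Pool.Agent.X110.RR (GS Zf GS_meas Zf_meas Zf_le cze)
open Pool.Agent.Y746.OA (sp)

noncomputable section

/-- the measure with density a power of the value at the base point -/
def mu (k δ : ℝ) (b : ℤ) (G : Set ℝ) : Measure ℝ := (volume.restrict G).withDensity fun t => ENNReal.ofReal (Z δ 0 b t ^ (2 * k))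

section

variable {K B : ℕ} {T δ V : ℝ} {M : ℕ}

lemma Z0_cont (c : Ctx K B T δ V M) (b : ℝ) : Continuous (Z δ 0 b) := Z_cont (by have := c.d1; linarith)

lemma mu_lint (c : Ctx K B T δ V M) {k : ℝ} (b : ℤ) (G : Set ℝ) {f : ℝ → ENNReal} (hf : Measurable f) :
    ∫⁻ t, f t ∂(mu k δ b G) = ∫⁻ t in G, ENNReal.ofReal (Z δ 0 b t ^ (2 * k)) * f t := by
  unfold mu
  have hm : Measurable fun t => ENNReal.ofReal (Z δ 0 b t ^ (2 * k)) := ENNReal.measurable_ofReal.comp ((Z0_cont c b).measurable.pow_const _)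
  exact lintegral_withDensity_eq_lintegral_mul _ hm hf

lemma mu_univ (c : Ctx K B T δ V M) {k : ℝ} (b : ℤ) (G : Set ℝ) :
    mu k δ b G Set.univ = ∫⁻ t in G, ENNReal.ofReal (Z δ 0 b t ^ (2 * k)) := by
  rw [← lintegral_one, mu_lint c b G measurable_const]
  simp

/-- positivity on the good set -/
lemma Z_pos (c : Ctx K B T δ V M) {t : ℝ} (ht : t ∈ GP δ V M) {p : ℝ × ℝ} (hp : p ∈ Pts M) : 0 < Z δ p.1 p.2 t :=
  lt_trans (inv_pos.mpr (by linarith [c.V1])) (ht p hp).1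

/-- three points of the set -/
lemma GS_sub {p q r : ℝ × ℝ} (hp : p ∈ Pts M) (hq : q ∈ Pts M) (hr : r ∈ Pts M) : GP δ V M ⊆ GS δ V ![pw δ p.1 p.2, pw δ q.1 q.2, pw δ r.1 r.2] := by
  intro t ht j
  fin_cases j
  · exact ht p hp
  · exact ht q hq
  · exact ht r hr

/-- the conditions on three points -/
lemma pos_of (c : Ctx K B T δ V M) {b l : ℤ} {A : ℝ} (hA : A = 0 ∨ ∃ i < M + 2, A = 2 ^ i) (hb : |b| ≤ 2 ^ (M + 3)) (hl : |b + l| ≤ 2 ^ (M + 3)) :
    Pos δ b A l := by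
  have hd := c.d0
  have h3 : 0 ≤ A ∧ A ≤ 2 ^ (M + 1) := by
    rcases hA with h1 | ⟨i, hi, h1⟩
    · rw [h1]
      exact ⟨le_rfl, by positivity⟩
    · rw [h1]
      exact ⟨by positivity, pow_le_pow_right₀ (by norm_num) (by omega)⟩
  have key : ∀ n : ℤ, |n| ≤ 2 ^ (M + 3) → |δ * (n : ℝ)| ≤ 1 := by
    intro n hn
    rw [abs_mul, abs_of_pos hd]
    have h4 : |(n : ℝ)| ≤ 2 ^ (M + 3) := by exact_mod_cast hn
    calc δ * |(n : ℝ)| ≤ δ * 2 ^ (M + 3) := mul_le_mul_of_nonneg_left h4 hd.le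
      _ = 4 * (δ * 2 ^ (M + 1)) := by ring
      _ ≤ 1 := by linarith [c.dM]
  refine ⟨hd, c.d1, h3.1, (mul_le_mul_of_nonneg_left h3.2 hd.le).trans c.dM, key b hb, ?_⟩
  have := key (b + l) hl
  push_cast at this
  exact this

lemma w3_sub {A : ℝ} (hA : A = 0 ∨ ∃ i < M + 2, A = 2 ^ i) {b l : ℤ} (hb : |b| ≤ 2 ^ (M + 3)) (hl : |b + l| ≤ 2 ^ (M + 3)) :
    GP δ V M ⊆ GS δ V (w3 δ b A l) := by
  have h1 : (A, (b:ℝ)) ∈ Pts M := by
    rcases hA with h1 | ⟨i, hi, h1⟩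
    · rw [h1]; exact zero_mem hb
    · rw [h1]; exact two_mem hi hb
  have h2 := zero_mem hl
  push_cast at h2
  intro t ht j
  fin_cases j
  · exact ht _ (zero_mem hb)
  · exact ht _ h1
  · exact ht _ h2

/-- the total mass, upper bound -/
lemma mass_up (c : Ctx K B T δ V M) {k : ℝ} (hk : 0 < k) (hkK : 2 * k ≤ K) {C : ℝ}
    (hC : ∀ (δ b A l : ℝ), Pos δ b A l → DG (b3 k 0 0) (w3 δ b A l) δ ≤ C * (2 * δ) ^ (-(k ^ 2)))
    {b : ℤ} (hb : |b| ≤ 2 ^ (M + 3)) {G : Set ℝ} (hGm : MeasurableSet G) (hG : G ⊆ Set.Ioc 0 T ∩ GP δ V M) :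
    mu k δ b G Set.univ ≤ ENNReal.ofReal (2 * T * (C * (2 * δ) ^ (-(k ^ 2)))) := by
  have hp : Pos δ b 0 (0:ℤ) := pos_of c (Or.inl rfl) hb (by rwa [add_zero])
  have a0 : |(0:ℝ)| ≤ K := by rw [abs_zero]; exact Nat.cast_nonneg _
  have ak : |k| ≤ K := by rw [abs_of_pos hk]; linarith
  rw [mu_univ c]
  refine (lint_le c hp ak a0 a0 (fun t ht => ⟨(hG ht).1, w3_sub (Or.inl rfl) hb (by rwa [add_zero]) (hG ht).2⟩) hGm fun t ht => ?_).trans ?_
  · rw [mul_zero, Real.rpow_zero, Real.rpow_zero, mul_one, mul_one]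
  · exact ENNReal.ofReal_le_ofReal (mul_le_mul_of_nonneg_left (hC _ _ _ _ hp) (by have := c.T0; positivity))

/-- the total mass, lower bound -/
lemma mass_low (c : Ctx K B T δ V M) {k : ℝ} (hk : 0 < k) (hkK : 2 * k ≤ K) {C : ℝ} (hC1 : 1 ≤ C)
    (hC : ∀ (δ b A l : ℝ), Pos δ b A l → C⁻¹ * (2 * δ) ^ (-(k ^ 2)) ≤ DG (b3 k 0 0) (w3 δ b A l) δ)
    (hC' : ∀ (δ b A l : ℝ), Pos δ b A l → DG (b3 (2 * k) 0 0) (w3 δ b A l) δ ≤ C * (2 * δ) ^ (-(4 * k ^ 2)))
    {b : ℤ} (hb : |b| ≤ 2 ^ (M + 3)) {G : Set ℝ} (hGm : MeasurableSet G) (hG : G ⊆ Set.Ioc 0 T ∩ GP δ V M)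
    {E : ℕ} (hE : 4 * k ^ 2 + 1 ≤ E) (hvol : (volume (Set.Ioc 0 T \ G)).toReal ≤ T / Real.log T ^ (E + 1)) (hLC : 4 * (2 * C + 1) ≤ Real.log T) :
    ENNReal.ofReal (T * (C⁻¹ * (2 * δ) ^ (-(k ^ 2))) / 4) ≤ mu k δ b G Set.univ := by
  have hp : Pos δ b 0 (0:ℤ) := pos_of c (Or.inl rfl) hb (by rwa [add_zero])
  have hT := c.T0
  have hL := c.L
  have hd := c.d0
  have a0 : |(0:ℝ)| ≤ K := by rw [abs_zero]; exact Nat.cast_nonneg _
  have ak : |k| ≤ K := by rw [abs_of_pos hk]; linarith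
  have a2k : |2 * k| ≤ K := by rw [abs_of_pos (by linarith)]; exact hkK
  obtain ⟨W, hW⟩ : ∃ W : Fin 3 → ℂ, W = w3 δ b 0 (0:ℤ) := ⟨_, rfl⟩
  obtain ⟨D, hD⟩ : ∃ D : ℝ, D = DG (b3 k 0 0) W δ := ⟨_, rfl⟩
  have hD1 : 1 ≤ D := by rw [hD, hW]; exact DG_ge (b3_ok ak a0 a0) (fun j => (w3_ok hp j).1) hd
  have hDC : C⁻¹ * (2 * δ) ^ (-(k ^ 2)) ≤ D := by rw [hD, hW]; exact hC _ _ _ _ hp
  have hWm : MeasurableSet (GS δ V W) := by rw [hW]; exact GS_meas fun j => (w3_ok hp j).2.1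
  have hGW : G ⊆ Set.Ioc 0 T ∩ GS δ V W := fun t ht => ⟨(hG ht).1, by rw [hW]; exact w3_sub (Or.inl rfl) hb (by rwa [add_zero]) (hG ht).2⟩
  -- the full integral
  have h1 : ENNReal.ofReal (T * D / 2) ≤ ∫⁻ t in Set.Ioc 0 T ∩ GS δ V W, ENNReal.ofReal (Z δ 0 b t ^ (2 * k)) := by
    have h2 := (c.j W (b3 k 0 0) (fun j => by rw [hW]; exact w3_ok hp j) (b3_ok ak a0 a0)).1
    rw [← hD] at h2
    refine (ENNReal.ofReal_le_ofReal h2).trans ?_
    unfold JI
    rw [hW, ofReal_integral_eq_lintegral_ofReal (JI_int c hp ak a0 a0) (Eventually.of_forall fun t => Finset.prod_nonneg fun j _ => Real.rpow_nonneg (norm_nonneg _) _)]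
    refine le_of_eq (lintegral_congr fun t => ?_)
    rw [w3_prod, mul_zero, Real.rpow_zero, Real.rpow_zero, mul_one, mul_one]
  -- the integral over the rest
  have h2 : ∫⁻ t in (Set.Ioc 0 T ∩ GS δ V W) \ G, ENNReal.ofReal (Z δ 0 b t ^ (2 * k)) ≤ ENNReal.ofReal (T / 4) := by
    have hbad : MeasurableSet ((Set.Ioc 0 T ∩ GS δ V W) \ G) := (measurableSet_Ioc.inter hWm).diff hGm
    obtain ⟨lam, hlam⟩ : ∃ lam : ℝ, lam = (Real.log T ^ E)⁻¹ := ⟨_, rfl⟩
    have hLE : 0 < Real.log T ^ E := by positivity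
    have hl0 : 0 < lam := by rw [hlam]; positivity
    have hpt : ∀ t, ENNReal.ofReal (Z δ 0 b t ^ (2 * k)) ≤ ENNReal.ofReal lam * ENNReal.ofReal (Z δ 0 b t ^ (2 * (2 * k))) + ENNReal.ofReal lam⁻¹ := by
      intro t
      have hz := Z_nn δ 0 b t
      have e1 : Z δ 0 b t ^ (2 * (2 * k)) = (Z δ 0 b t ^ (2 * k)) ^ 2 := by
        rw [← Real.rpow_natCast, ← Real.rpow_mul hz]
        congr 1
        push_cast
        ring
      rw [← ENNReal.ofReal_mul hl0.le, ← ENNReal.ofReal_add (by positivity) (by positivity)]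
      refine ENNReal.ofReal_le_ofReal ?_
      rw [e1]
      obtain ⟨v, hv⟩ : ∃ v : ℝ, v = Z δ 0 b t ^ (2 * k) := ⟨_, rfl⟩
      rw [← hv]
      have h3 : v * lam ≤ (lam * v ^ 2 + lam⁻¹) * lam := by
        have h4 : lam⁻¹ * lam = 1 := inv_mul_cancel₀ hl0.ne'
        nlinarith [sq_nonneg (lam * v - 1), sq_nonneg (lam * v + 1)]
      exact le_of_mul_le_mul_right h3 hl0
    have hm : Measurable fun t => ENNReal.ofReal (Z δ 0 b t ^ (2 * (2 * k))) := ENNReal.measurable_ofReal.comp ((Z0_cont c b).measurable.pow_const _)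
    refine (lintegral_mono hpt).trans ?_
    rw [lintegral_add_left (hm.const_mul _), lintegral_const_mul _ hm, lintegral_const, Measure.restrict_apply_univ]
    have h3 : ∫⁻ t in (Set.Ioc 0 T ∩ GS δ V W) \ G, ENNReal.ofReal (Z δ 0 b t ^ (2 * (2 * k))) ≤ ENNReal.ofReal (2 * T * (C * (2 * δ) ^ (-(4 * k ^ 2)))) := by
      refine (lint_le c hp a2k a0 a0 (fun t ht => by rw [← hW]; exact ht.1) hbad fun t ht => ?_).trans ?_
      · rw [mul_zero, Real.rpow_zero, Real.rpow_zero, mul_one, mul_one]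
      · exact ENNReal.ofReal_le_ofReal (mul_le_mul_of_nonneg_left (hC' _ _ _ _ hp) (by positivity))
    have h4 : volume ((Set.Ioc 0 T ∩ GS δ V W) \ G) ≤ ENNReal.ofReal (T / Real.log T ^ (E + 1)) := by
      have h5 : volume (Set.Ioc 0 T \ G) ≤ ENNReal.ofReal (T / Real.log T ^ (E + 1)) := by
        rw [ENNReal.le_ofReal_iff_toReal_le _ (by positivity)]
        · exact hvol
        · exact (measure_lt_top_of_subset Set.sdiff_subset (by rw [Real.volume_Ioc]; exact ENNReal.ofReal_ne_top)).ne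
      exact (measure_mono (Set.sdiff_subset_sdiff_left Set.inter_subset_left)).trans h5
    refine (add_le_add (mul_le_mul_right h3 _) (mul_le_mul_right h4 _)).trans ?_
    rw [← ENNReal.ofReal_mul hl0.le, ← ENNReal.ofReal_mul (by positivity), ← ENNReal.ofReal_add (by positivity) (by positivity)]
    refine ENNReal.ofReal_le_ofReal ?_
    -- numbers
    have hL1 : 1 ≤ Real.log T := by linarith
    have h6 : (2 * δ) ^ (-(4 * k ^ 2)) ≤ Real.log T ^ (4 * k ^ 2) := by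
      have h7 : (2 * δ)⁻¹ ≤ Real.log T := by
        have h8 := c.dL
        have h9 : (2 * δ)⁻¹ = 2 / δ / 4 := by field_simp; ring
        rw [h9]
        linarith
      rw [Real.rpow_neg (by linarith), ← Real.inv_rpow (by linarith)]
      exact Real.rpow_le_rpow (by positivity) h7 (by positivity)
    have h7 : Real.log T ^ (4 * k ^ 2) ≤ Real.log T ^ E / Real.log T := by
      rw [le_div_iff₀ (by linarith), ← Real.rpow_add_one (by linarith), ← Real.rpow_natCast (Real.log T) E]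
      exact Real.rpow_le_rpow_of_exponent_le hL1 hE
    have h8 : lam * (2 * T * (C * (2 * δ) ^ (-(4 * k ^ 2)))) ≤ 2 * C * T / Real.log T := by
      have h9 : (2 * δ) ^ (-(4 * k ^ 2)) ≤ Real.log T ^ E / Real.log T := h6.trans h7
      have h10 : lam * (2 * T * (C * (2 * δ) ^ (-(4 * k ^ 2)))) ≤ lam * (2 * T * (C * (Real.log T ^ E / Real.log T))) := by gcongr
      refine h10.trans (le_of_eq ?_)
      rw [hlam]
      field_simp
    have h9 : lam⁻¹ * (T / Real.log T ^ (E + 1)) = T / Real.log T := by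
      rw [hlam, inv_inv, pow_succ]
      field_simp
    rw [h9]
    have h10 : 2 * C * T / Real.log T + T / Real.log T = T * (2 * C + 1) / Real.log T := by ring
    have h11 : T * (2 * C + 1) / Real.log T ≤ T / 4 := by
      rw [div_le_div_iff₀ (by linarith) (by norm_num)]
      nlinarith
    linarith
  -- the difference
  have h3 : ∫⁻ t in Set.Ioc 0 T ∩ GS δ V W, ENNReal.ofReal (Z δ 0 b t ^ (2 * k)) ≤
      (∫⁻ t in G, ENNReal.ofReal (Z δ 0 b t ^ (2 * k))) + ENNReal.ofReal (T / 4) := by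
    have h4 := lintegral_inter_add_sdiff (μ := volume) (fun t => ENNReal.ofReal (Z δ 0 b t ^ (2 * k))) (Set.Ioc 0 T ∩ GS δ V W) hGm
    rw [← h4]
    refine add_le_add (lintegral_mono_set Set.inter_subset_right) h2
  rw [mu_univ c]
  have h4 := h1.trans h3
  have h5 : ENNReal.ofReal (T * (C⁻¹ * (2 * δ) ^ (-(k ^ 2))) / 4) + ENNReal.ofReal (T / 4) ≤ ENNReal.ofReal (T * D / 2) := by
    have h6 : 0 ≤ C⁻¹ * (2 * δ) ^ (-(k ^ 2)) := by positivity
    rw [← ENNReal.ofReal_add (by positivity) (by positivity)]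
    refine ENNReal.ofReal_le_ofReal ?_
    nlinarith [mul_le_mul_of_nonneg_left hDC hT.le, mul_le_mul_of_nonneg_left hD1 hT.le]
  exact (ENNReal.add_le_add_iff_right ENNReal.ofReal_ne_top).mp (h5.trans h4)

end

end

end Pool.Agent.X111.MS
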